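import Mathlib

/-!
# The parity identities behind the non-planarity of K5 and K33
-/

set_option autoImplicit false
namespace Pool.Agent.MP_f692a6_lc
theorem k5_algebra (l : Fin 5 → Fin 5 → ZMod 2) (Y : Fin 5 → Fin 5 → Fin 5 → ZMod 2)
    (ha : ∀ i j, i ≠ j → l i j + l j i = 1)
    (h : ∀ i j k m : Fin 5, i < j → k < m → i ≠ k → i ≠ m → j ≠ k → j ≠ m →
      l i k + l i m + l j k + l j m + Y i j k + Y i j m + Y k m i + Y k m j = 0) : False := by
  have two : (2 : ZMod 2) = 0 := by decide
  have : (1 : ZMod 2) = 0 := by
    linear_combination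
      (h 0 1 2 3 (by decide) (by decide) (by decide) (by decide) (by decide) (by decide) +
      h 0 1 2 4 (by decide) (by decide) (by decide) (by decide) (by decide) (by decide) +
      h 0 1 3 4 (by decide) (by decide) (by decide) (by decide) (by decide) (by decide) +
      h 0 2 1 3 (by decide) (by decide) (by decide) (by decide) (by decide) (by decide) +
      h 0 2 1 4 (by decide) (by decide) (by decide) (by decide) (by decide) (by decide) +
      h 0 2 3 4 (by decide) (by decide) (by decide) (by decide) (by decide) (by decide) +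
      h 0 3 1 2 (by decide) (by decide) (by decide) (by decide) (by decide) (by decide) +
      h 0 3 1 4 (by decide) (by decide) (by decide) (by decide) (by decide) (by decide) +
      h 0 3 2 4 (by decide) (by decide) (by decide) (by decide) (by decide) (by decide) +
      h 0 4 1 2 (by decide) (by decide) (by decide) (by decide) (by decide) (by decide) +
      h 0 4 1 3 (by decide) (by decide) (by decide) (by decide) (by decide) (by decide) +
      h 0 4 2 3 (by decide) (by decide) (by decide) (by decide) (by decide) (by decide) +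
      h 1 2 3 4 (by decide) (by decide) (by decide) (by decide) (by decide) (by decide) +
      h 1 3 2 4 (by decide) (by decide) (by decide) (by decide) (by decide) (by decide) +
      h 1 4 2 3 (by decide) (by decide) (by decide) (by decide) (by decide) (by decide))
      - (2 * ha 1 2 (by decide) +
      2 * ha 1 3 (by decide) +
      2 * ha 1 4 (by decide) +
      3 * ha 2 3 (by decide) +
      3 * ha 2 4 (by decide) +
      3 * ha 3 4 (by decide))
      - ((3) * l 0 1 +
      (3) * l 0 2 +
      (3) * l 0 3 +
      (3) * l 0 4 +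
      (1) * l 1 2 +
      (1) * l 1 3 +
      (1) * l 1 4 +
      Y 0 1 2 +
      Y 0 1 3 +
      Y 0 1 4 +
      Y 0 2 1 +
      Y 0 2 3 +
      Y 0 2 4 +
      Y 0 3 1 +
      Y 0 3 2 +
      Y 0 3 4 +
      Y 0 4 1 +
      Y 0 4 2 +
      Y 0 4 3 +
      Y 1 2 0 +
      Y 1 2 3 +
      Y 1 2 4 +
      Y 1 3 0 +
      Y 1 3 2 +
      Y 1 3 4 +
      Y 1 4 0 +
      Y 1 4 2 +
      Y 1 4 3 +
      Y 2 3 0 +
      Y 2 3 1 +
      Y 2 3 4 +
      Y 2 4 0 +
      Y 2 4 1 +
      Y 2 4 3 +
      Y 3 4 0 +
      Y 3 4 1 +
      Y 3 4 2 +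
      7) * two
  exact absurd this (by decide)

theorem k33_algebra (l : Fin 6 → Fin 6 → ZMod 2) (Y : Fin 6 → Fin 6 → Fin 6 → ZMod 2)
    (ha : ∀ i j, i ≠ j → l i j + l j i = 1)
    (h : ∀ i j k m : Fin 6, (i.val < 3 ∧ 3 ≤ j.val) → (k.val < 3 ∧ 3 ≤ m.val) → i ≠ k → i ≠ m → j ≠ k → j ≠ m →
      l i k + l i m + l j k + l j m + Y i j k + Y i j m + Y k m i + Y k m j = 0) : False := by
  have two : (2 : ZMod 2) = 0 := by decide
  have : (1 : ZMod 2) = 0 := by
    linear_combination
      (h 0 3 1 4 (by decide) (by decide) (by decide) (by decide) (by decide) (by decide) +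
      h 0 3 1 5 (by decide) (by decide) (by decide) (by decide) (by decide) (by decide) +
      h 0 3 2 4 (by decide) (by decide) (by decide) (by decide) (by decide) (by decide) +
      h 0 3 2 5 (by decide) (by decide) (by decide) (by decide) (by decide) (by decide) +
      h 0 4 1 3 (by decide) (by decide) (by decide) (by decide) (by decide) (by decide) +
      h 0 4 1 5 (by decide) (by decide) (by decide) (by decide) (by decide) (by decide) +
      h 0 4 2 3 (by decide) (by decide) (by decide) (by decide) (by decide) (by decide) +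
      h 0 4 2 5 (by decide) (by decide) (by decide) (by decide) (by decide) (by decide) +
      h 0 5 1 3 (by decide) (by decide) (by decide) (by decide) (by decide) (by decide) +
      h 0 5 1 4 (by decide) (by decide) (by decide) (by decide) (by decide) (by decide) +
      h 0 5 2 3 (by decide) (by decide) (by decide) (by decide) (by decide) (by decide) +
      h 0 5 2 4 (by decide) (by decide) (by decide) (by decide) (by decide) (by decide) +
      h 1 3 2 4 (by decide) (by decide) (by decide) (by decide) (by decide) (by decide) +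
      h 1 3 2 5 (by decide) (by decide) (by decide) (by decide) (by decide) (by decide) +
      h 1 4 2 3 (by decide) (by decide) (by decide) (by decide) (by decide) (by decide) +
      h 1 4 2 5 (by decide) (by decide) (by decide) (by decide) (by decide) (by decide) +
      h 1 5 2 3 (by decide) (by decide) (by decide) (by decide) (by decide) (by decide) +
      h 1 5 2 4 (by decide) (by decide) (by decide) (by decide) (by decide) (by decide))
      - (2 * ha 1 3 (by decide) +
      2 * ha 1 4 (by decide) +
      2 * ha 1 5 (by decide) +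
      4 * ha 2 3 (by decide) +
      4 * ha 2 4 (by decide) +
      4 * ha 2 5 (by decide) +
      3 * ha 3 4 (by decide) +
      3 * ha 3 5 (by decide) +
      3 * ha 4 5 (by decide))
      - ((3) * l 0 1 +
      (3) * l 0 2 +
      (2) * l 0 3 +
      (2) * l 0 4 +
      (2) * l 0 5 +
      (3) * l 1 2 +
      (-2) * l 2 3 +
      (-2) * l 2 4 +
      (-2) * l 2 5 +
      Y 0 3 1 +
      Y 0 3 2 +
      Y 0 3 4 +
      Y 0 3 5 +
      Y 0 4 1 +
      Y 0 4 2 +
      Y 0 4 3 +
      Y 0 4 5 +
      Y 0 5 1 +
      Y 0 5 2 +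
      Y 0 5 3 +
      Y 0 5 4 +
      Y 1 3 0 +
      Y 1 3 2 +
      Y 1 3 4 +
      Y 1 3 5 +
      Y 1 4 0 +
      Y 1 4 2 +
      Y 1 4 3 +
      Y 1 4 5 +
      Y 1 5 0 +
      Y 1 5 2 +
      Y 1 5 3 +
      Y 1 5 4 +
      Y 2 3 0 +
      Y 2 3 1 +
      Y 2 3 4 +
      Y 2 3 5 +
      Y 2 4 0 +
      Y 2 4 1 +
      Y 2 4 3 +
      Y 2 4 5 +
      Y 2 5 0 +
      Y 2 5 1 +
      Y 2 5 3 +
      Y 2 5 4 +
      13) * two
  exact absurd this (by decide)

end Pool.Agent.MP_f692a6_lc
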