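import Pool.Agent.MP_f692a6_lc.Letters

/-!
# States of the clusters that belong to a solution of the cell equations
-/

set_option autoImplicit false

namespace Pool.Agent.MP_f692a6_lc

/-- the values of `orient` -/
def orT (e : Ent) (s : ℕ) : Bool :=
  if e.k < 4 then
    (if e.code = 1 then decide (s ≠ 0) else if e.code = 3 then decide (s ≠ 1) else decide (s = 0))
  else if e.k < 8 then (if e.code = 1 then decide (s ≠ 0) else decide (s = 2))
  else if e.k < 12 then
    (if e.code = 2 then decide (s = 3) else if e.code = 0 then decide (s ≠ 0) else decide (s < 2))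
  else if e.k = 12 then decide (s ≠ if e.k' = 0 then 0 else if e.k' = 1 then 1 else 2)
  else decide (s ≠ if e.k' = 12 then 0 else if e.k' = 2 then 1 else 2)

theorem orient_orT : (E2.all fun e => !(decide (e.code < 4)) ||
    (List.range (nst e.k)).all fun s => orient s e == orT e s) = true := by decide +kernel

/-- the pairs of edges, listed in one direction -/
def F2 : List Ent :=
  [⟨0, 0, 0, 4, 1, 1, 1, 0⟩, ⟨1, 0, 0, 5, 1, 1, 1, 1⟩, ⟨2, 0, 0, 6, 1, 1, 1, 2⟩,
   ⟨3, 0, 0, 7, 1, 1, 1, 3⟩, ⟨4, 0, 0, 8, 2, 2, 1, 0⟩, ⟨5, 0, 0, 9, 2, 2, 1, 1⟩,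
   ⟨6, 0, 0, 10, 2, 2, 1, 2⟩, ⟨7, 0, 0, 11, 2, 2, 1, 3⟩, ⟨8, 0, 0, 1, 3, 3, 3, 0⟩,
   ⟨9, 0, 0, 2, 3, 3, 3, 1⟩, ⟨10, 0, 0, 3, 3, 3, 3, 2⟩, ⟨11, 0, 0, 0, 3, 3, 3, 3⟩,
   ⟨0, 0, 0, 12, 0, 2, 1, 0⟩, ⟨1, 0, 0, 12, 0, 2, 2, 1⟩, ⟨2, 0, 0, 13, 0, 2, 2, 2⟩,
   ⟨3, 0, 0, 13, 0, 2, 3, 3⟩, ⟨12, 0, 0, 13, 0, 3, 1, 0⟩, ⟨9, 0, 1, 11, 0, 2, 2, 0⟩,
   ⟨10, 1, 0, 8, 0, 2, 2, 0⟩]

theorem F2_all : (E2.all fun e => !(decide (e.code < 4)) || decide (e ∈ F2) ||
    decide (e.rev ∈ F2)) = true := by decide +kernel

theorem F2_sub : (F2.all fun e => decide (e ∈ E2)) = true := by decide +kernel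

/-- the predecessor modulo four -/
def prv (i : ℕ) : ℕ := (i + 3) % 4

/-- A solution of the cell equations: the active corner of each cell, the values of the right and
lower terminals. -/
structure Sol (N : Net) where
  /-- the active corner -/
  hot : ℤ → ℤ → ℕ
  /-- the value of the right terminal -/
  E : ℤ → ℤ → Bool
  /-- the value of the lower terminal -/
  S : ℤ → ℤ → Bool

/-- the value of the terminal `i` of a cell -/
def Sol.t {N : Net} (A : Sol N) (r c : ℤ) (i : ℕ) : Bool :=
  if i = 0 then !(A.S (r - 1) c) else if i = 1 then A.E r c else if i = 2 then A.S r c else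
    !(A.E r (c - 1))

/-- the cell equations -/
structure Sol.Ok {N : Net} (A : Sol N) : Prop where
  lt : ∀ r c, A.hot r c < 4
  sideA : ∀ r c, N.tx r c (A.hot r c) = true ∨ A.t r c (A.hot r c) = true
  sideB : ∀ r c, N.ty r c (prv (A.hot r c)) = true ∨ A.t r c (prv (A.hot r c)) = true
  forced : ∀ r c i, N.fo r c i = true → ¬ (i = A.hot r c ∧ N.tx r c i = false) ∧
    ¬ (i = prv (A.hot r c) ∧ N.ty r c i = false)

/-- the value of the pair between `T_i` and `V_{i+1}` -/
def Sol.yT {N : Net} (A : Sol N) (r c : ℤ) (i : ℕ) : Bool :=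
  if i = A.hot r c then !(N.tx r c i) else if i = prv (A.hot r c) then !(N.ty r c i) else false

/-- the states of the clusters -/
def Sol.st {N : Net} (A : Sol N) (z : V1) : ℕ :=
  let r := z.1
  let c := z.2.1
  let k := z.2.2
  let h := A.hot r c
  if k < 4 then (if k = h then 0 else if A.yT r c (prv k) ^^ N.ty r c (prv k) then 2 else 1)
  else if k < 8 then (if k - 4 = h then 0 else if N.tx r c (k - 4) then 1 else 2)
  else if k < 12 then
    (if A.yT r c (k - 8) then (if k - 8 = h then 3 else 2) else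
      if A.t r c (k - 8) then 1 else 0)
  else if k = 12 then (if h = 0 then 0 else if h = 1 then 1 else 2)
  else (if h ≤ 1 then 0 else if h = 2 then 1 else 2)

theorem Sol.st_lt {N : Net} (A : Sol N) (z : V1) (hz : z.2.2 < 14) : A.st z < nst z.2.2 := by
  unfold Sol.st nst
  simp only
  split_ifs <;> omega

theorem orient_eq {e : Ent} (he : e ∈ E2) (h4 : e.code < 4) {s : ℕ} (hs : s < nst e.k) :
    orient s e = orT e s := by
  have h := orient_orT
  rw [List.all_eq_true] at h
  have h := h e he
  simp only [h4, decide_true, Bool.not_true, Bool.false_or] at h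
  rw [List.all_eq_true] at h
  have h := h s (List.mem_range.2 hs)
  simpa using h

theorem odd_rev (N : Net) {z : V1} {e : Ent} (he : e ∈ E2) (h4 : e.code < 4) :
    N.odd (step z e.base).1 (step z e.base).2.1 e.rev = N.odd z.1 z.2.1 e := by
  obtain ⟨f1, f2, f3, f4, f5, f6, f7, -, -⟩ := E2_facts he
  have ec : e.rev.code = e.code := rfl
  unfold Net.odd
  rw [ec]
  by_cases h0 : e.code = 0
  · rw [if_pos h0, if_pos h0]
  · by_cases h1 : e.code = 1
    · rw [if_neg h0, if_pos h1, if_neg h0, if_pos h1]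
    · have h23 : e.code = 2 ∨ e.code = 3 := by omega
      have hd := f4 h23
      have e1 : (step z e.base).1 = z.1 := by unfold step Ent.base; simp [hd.1]
      have e2 : (step z e.base).2.1 = z.2.1 := by unfold step Ent.base; simp [hd.2]
      rw [e1, e2]
      rfl

theorem Ent.rev_rev (e : Ent) : e.rev.rev = e := by
  unfold Ent.rev
  simp

theorem Sol.t_of_yT {N : Net} {A : Sol N} (hA : A.Ok) {r c : ℤ} {i : ℕ} (h : A.yT r c i = true) :
    A.t r c i = true := by
  unfold Sol.yT at h
  split_ifs at h with h1 h2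
  · subst h1
    rcases hA.sideA r c with h3 | h3
    · rw [h3] at h
      exact absurd h (by decide)
    · exact h3
  · subst h2
    rcases hA.sideB r c with h3 | h3
    · rw [h3] at h
      exact absurd h (by decide)
    · exact h3

theorem Sol.fitF {N : Net} (A : Sol N) (hA : A.Ok) (z : V1) (e : Ent) (he : e ∈ F2)
    (hk : z.2.2 = e.k) :
    (orT e (A.st z) ^^ orT e.rev (A.st (step z e.base))) = !(N.odd z.1 z.2.1 e) := by
  obtain ⟨r, c, k⟩ := z
  simp only at hk
  subst hk
  have hlt := hA.lt r c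
  have ht : ∀ i, A.yT r c i = true → A.t r c i = true := fun i => Sol.t_of_yT hA
  have hh : A.hot r c = 0 ∨ A.hot r c = 1 ∨ A.hot r c = 2 ∨ A.hot r c = 3 := by omega
  simp only [F2, List.mem_cons, List.not_mem_nil, or_false] at he
  rcases he with rfl | rfl | rfl | rfl | rfl | rfl | rfl | rfl | rfl | rfl | rfl | rfl | rfl |
    rfl | rfl | rfl | rfl | rfl | rfl
  iterate 17
    · rcases hh with hh | hh | hh | hh <;>
        simp [step, Ent.base, Ent.rev, Sol.st, orT, Net.odd, Sol.yT, prv, hh] <;>
        split_ifs <;> simp_all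
  · have h1 := Sol.t_of_yT (r := r) (c := c) (i := 1) hA
    have h2 := Sol.t_of_yT (r := r) (c := c + 1) (i := 3) hA
    have e1 : A.t r c 1 = !(A.t r (c + 1) 3) := by simp [Sol.t]
    simp only [step, Ent.base, Ent.rev, Sol.st, orT, Net.odd]
    simp only [show ¬ (9 < 4) by decide, show ¬ (9 < 8) by decide, show 9 < 12 by decide,
      show ¬ (11 < 4) by decide, show ¬ (11 < 8) by decide, show 11 < 12 by decide, if_true,
      if_false, show 9 - 8 = 1 from rfl, show 11 - 8 = 3 from rfl, show ¬ (0 = 2) by decide,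
      add_zero]
    rw [e1] at h1 ⊢
    generalize A.yT r c 1 = y1 at *
    generalize A.yT r (c + 1) 3 = y2 at *
    generalize A.t r (c + 1) 3 = t at *
    generalize A.hot r (c + 1) = g at *
    rcases hh with hh | hh | hh | hh <;> cases y1 <;> cases y2 <;> cases t <;> simp_all <;>
      split_ifs <;> first | rfl | omega | simp_all
  · have h1 := Sol.t_of_yT (r := r) (c := c) (i := 2) hA
    have h2 := Sol.t_of_yT (r := r + 1) (c := c) (i := 0) hA
    have e1 : A.t r c 2 = !(A.t (r + 1) c 0) := by simp [Sol.t]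
    simp only [step, Ent.base, Ent.rev, Sol.st, orT, Net.odd]
    simp only [show ¬ (10 < 4) by decide, show ¬ (10 < 8) by decide, show 10 < 12 by decide,
      show ¬ (8 < 4) by decide, show ¬ (8 < 8) by decide, show 8 < 12 by decide, if_true,
      if_false, show 10 - 8 = 2 from rfl, show 8 - 8 = 0 from rfl, show ¬ (0 = 2) by decide,
      add_zero]
    rw [e1] at h1 ⊢
    generalize A.yT r c 2 = y1 at *
    generalize A.yT (r + 1) c 0 = y2 at *
    generalize A.t (r + 1) c 0 = t at *
    generalize A.hot (r + 1) c = g at *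
    rcases hh with hh | hh | hh | hh <;> cases y1 <;> cases y2 <;> cases t <;> simp_all <;>
      split_ifs <;> first | rfl | omega | simp_all

theorem Sol.fits {N : Net} (A : Sol N) (hA : A.Ok) : Fits N A.st where
  lt := A.st_lt
  forced := by
    intro z i hi hk hfo
    obtain ⟨h1, h2⟩ := hA.forced _ _ _ hfo
    have hy : A.yT z.1 z.2.1 i = false := by
      unfold Sol.yT
      split_ifs with h3 h4
      · have := fun h => h1 ⟨h3, h⟩
        simpa using this
      · have := fun h => h2 ⟨h4, h⟩
        simpa using this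
      · rfl
    unfold Sol.st
    simp only [hk]
    rw [if_neg (by omega), if_neg (by omega), if_pos (by omega)]
    rw [show 8 + i - 8 = i by omega, hy]
    simp only [Bool.false_eq_true, if_false]
    split_ifs <;> omega
  pair := by
    intro z e he hk h4
    have hk14 : e.k < 14 := by
      have g1 := (E2_facts he).2.2.2.2.2.2.2
      omega
    have hk14' : e.rev.k < 14 := by
      have g1 := (E2_facts (E2_facts he).1).2.2.2.2.2.2.2
      have : e.rev.code = e.code := rfl
      omega
    have hs : (step z e.base).2.2 = e.rev.k := rfl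
    rw [orient_eq he h4 (by rw [← hk]; exact A.st_lt z (by omega)),
      orient_eq (E2_facts he).1 h4 (by rw [← hs]; exact A.st_lt _ (by omega))]
    have h := F2_all
    rw [List.all_eq_true] at h
    have h := h e he
    simp only [h4, decide_true, Bool.not_true, Bool.false_or, Bool.or_eq_true,
      decide_eq_true_eq] at h
    rcases h with h | h
    · exact A.fitF hA z e h hk
    · have := A.fitF hA (step z e.base) e.rev h hs
      rw [step_rev _ _ hk, Ent.rev_rev, odd_rev N he h4] at this
      rw [Bool.xor_comm]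
      exact this

end Pool.Agent.MP_f692a6_lc
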