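import Pool.Agent.MP_f692a6_lc.Proper
import Pool.Agent.MP_f692a6_lc.States

/-!
# A satisfying assignment gives a solution of the cell equations
-/

set_option autoImplicit false

namespace Pool.Agent.MP_f692a6_lc

open Pool.Agent.H66

/-- the value of the literal of a row -/
def litV (τ : ℕ → Bool) (r : ℕ) : Bool := if r % 2 = 1 then τ (r / 2) else !(τ (r / 2 - 1))

/-- the token of a column is removed in one of the rows up to `r` -/
def gone (φ : Fm) (τ : ℕ → Bool) (r c : ℕ) : Bool :=
  (List.range (r + 1)).any fun r' => decide (1 ≤ r') && (tapN φ r' c && litV τ r')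

/-- the right terminal -/
def eV (τ : ℕ → Bool) (r c : ℕ) : Bool := if c = 0 then true else !(litV τ r)

/-- the lower terminal -/
def sV (φ : Fm) (τ : ℕ → Bool) (r c : ℕ) : Bool :=
  if c ≤ 1 then litV τ r else !(gone φ τ r c)

/-- the active corner -/
def hotV (φ : Fm) (τ : ℕ → Bool) (r c : ℕ) : ℕ :=
  if inN φ r c = true then
    (if c = 1 then (if oddN φ r = true then (if litV τ r = true then 3 else 1) else
      (if litV τ r = true then 0 else 2))
    else if tapN φ r c = true ∧ litV τ r = true then 0
    else if gone φ τ r c = true then (if litV τ r = true then 0 else 1)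
    else (if litV τ r = true then 3 else 2))
  else 0

/-- the solution of the cell equations -/
def solOf (φ : Fm) (τ : ℕ → Bool) : Sol (netOf φ) :=
  ⟨fun r c => hotV φ τ r.toNat c.toNat, fun r c => eV τ r.toNat c.toNat,
    fun r c => sV φ τ r.toNat c.toNat⟩

theorem gone_succ {φ : Fm} {τ : ℕ → Bool} {r c : ℕ} (hr : 1 ≤ r) :
    gone φ τ r c = (gone φ τ (r - 1) c || (tapN φ r c && litV τ r)) := by
  unfold gone
  obtain ⟨s, rfl⟩ : ∃ s, r = s + 1 := ⟨r - 1, by omega⟩
  rw [List.range_succ, List.any_append]
  simp

theorem gone_zero {φ : Fm} {τ : ℕ → Bool} {c : ℕ} : gone φ τ 0 c = false := by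
  unfold gone
  simp

theorem litV_row {τ : ℕ → Bool} {l : Bool × ℕ} (h : LitSat τ l) : litV τ (rowOf l) = true := by
  obtain ⟨b, v⟩ := l
  unfold LitSat at h
  simp only at h
  unfold litV rowOf
  cases b with
  | true =>
    simp only [if_true]
    rw [if_pos (by omega)]
    have : (2 * v + 1) / 2 = v := by omega
    rw [this, h]
  | false =>
    simp only [Bool.false_eq_true, if_false]
    rw [if_neg (by omega)]
    have : (2 * v + 2) / 2 - 1 = v := by omega
    rw [this, h]
    rfl

theorem gone_last {φ : Fm} {τ : ℕ → Bool} (hτ : ∀ c ∈ φ, ClSat τ c) {c : ℕ} (h1 : 2 ≤ c)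
    (h2 : c ≤ φ.length + 1) (hrow : ∀ q ∈ φ, ∀ l, l = q.1 ∨ l = q.2.1 ∨ l = q.2.2 →
      1 ≤ rowOf l ∧ rowOf l ≤ 2 * nv φ) : gone φ τ (2 * nv φ) c = true := by
  have hj : c - 2 < φ.length := by omega
  have hcl : clN φ c = φ[c - 2] := by
    unfold clN
    rw [List.getD_eq_getElem _ _ hj]
  have hmem : φ[c - 2] ∈ φ := List.getElem_mem _
  have key : ∀ l, (l = (clN φ c).1 ∨ l = (clN φ c).2.1 ∨ l = (clN φ c).2.2) → LitSat τ l →
      gone φ τ (2 * nv φ) c = true := by
    intro l hl hs
    have hr := hrow _ hmem l (by rw [hcl] at hl; exact hl)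
    unfold gone
    rw [List.any_eq_true]
    refine ⟨rowOf l, List.mem_range.2 (by omega), ?_⟩
    simp only [Bool.and_eq_true, decide_eq_true_eq]
    refine ⟨hr.1, ?_, litV_row hs⟩
    unfold tapN
    simp only [Bool.or_eq_true, decide_eq_true_eq]
    rcases hl with rfl | rfl | rfl
    · exact Or.inl rfl
    · exact Or.inr (Or.inl rfl)
    · exact Or.inr (Or.inr rfl)
  have hs := hτ _ hmem
  rw [← hcl] at hs
  rcases hs with hs | hs | hs
  · exact key _ (Or.inl rfl) hs
  · exact key _ (Or.inr (Or.inl rfl)) hs
  · exact key _ (Or.inr (Or.inr rfl)) hs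

/-- the value of a terminal -/
def tN (φ : Fm) (τ : ℕ → Bool) (a b i : ℕ) : Bool :=
  if i = 0 then !(sV φ τ (a - 1) b) else if i = 1 then eV τ a b else if i = 2 then sV φ τ a b else
    !(eV τ a (b - 1))

theorem solOf_t (φ : Fm) (τ : ℕ → Bool) (r c : ℤ) (i : ℕ) :
    (solOf φ τ).t r c i = tN φ τ r.toNat c.toNat i := by
  unfold Sol.t tN solOf
  have e1 : (r - 1).toNat = r.toNat - 1 := by omega
  have e2 : (c - 1).toNat = c.toNat - 1 := by omega
  simp only [e1, e2]

theorem even_of {φ : Fm} {a b : ℕ} (h : inN φ a b = true) (h' : oddN φ a = false) :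
    a % 2 = 0 := by
  by_contra hne
  have : oddN φ a = true := by
    rw [oddN_iff]
    rw [inN_iff] at h
    exact ⟨a / 2, by omega, by omega⟩
  rw [h'] at this
  exact absurd this (by decide)

theorem sides (φ : Fm) (τ : ℕ → Bool) (a b : ℕ) :
    (txN φ a b (hotV φ τ a b) = true ∨ tN φ τ a b (hotV φ τ a b) = true) ∧
      (tyN φ a b (prv (hotV φ τ a b)) = true ∨ tN φ τ a b (prv (hotV φ τ a b)) = true) := by
  by_cases hin : inN φ a b = true
  · have hin' := inN_iff.1 hin
    by_cases hb : b = 1
    · subst hb
      cases ho : oddN φ a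
      · have hev := even_of hin ho
        cases hl : litV τ a
        · have hh : hotV φ τ a 1 = 2 := by simp [hotV, hin, ho, hl]
          rw [hh]
          refine ⟨Or.inl ?_, Or.inr ?_⟩
          · simp [txN, hin, ho]
          · simp [tN, prv, eV, hl]
        · have hh : hotV φ τ a 1 = 0 := by simp [hotV, hin, ho, hl]
          rw [hh]
          refine ⟨Or.inr ?_, Or.inl ?_⟩
          · have h1 : litV τ (a - 1) = false := by
              unfold litV at hl ⊢
              rw [if_neg (by omega)] at hl
              rw [if_pos (by omega)]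
              have : (a - 1) / 2 = a / 2 - 1 := by omega
              rw [this]
              simpa using hl
            simp [tN, sV, h1]
          · simp [tyN, hin, ho, prv]
      · cases hl : litV τ a
        · have hh : hotV φ τ a 1 = 1 := by simp [hotV, hin, ho, hl]
          rw [hh]
          refine ⟨Or.inr ?_, Or.inl ?_⟩
          · simp [tN, eV, hl]
          · simp [tyN, hin, ho, prv]
        · have hh : hotV φ τ a 1 = 3 := by simp [hotV, hin, ho, hl]
          rw [hh]
          refine ⟨Or.inl ?_, Or.inr ?_⟩
          · simp [txN, hin, ho]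
          · simp [tN, prv, sV, hl]
    · have hb2 : ¬ b ≤ 1 := by omega
      have hb3 : ¬ b - 1 = 0 := by omega
      have hb0 : ¬ b = 0 := by omega
      by_cases ht : tapN φ a b = true ∧ litV τ a = true
      · have hh : hotV φ τ a b = 0 := by simp [hotV, hin, hb, ht]
        rw [hh]
        refine ⟨Or.inl ?_, Or.inr ?_⟩
        · simp [txN, hin, hb, ht]
        · simp [tN, prv, eV, hb3, ht]
      · have hg : gone φ τ a b = gone φ τ (a - 1) b := by
          rw [gone_succ hin'.1]
          have : (tapN φ a b && litV τ a) = false := by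
            rw [Bool.and_eq_false_iff]
            by_contra hne
            push Not at hne
            exact ht ⟨by simpa using hne.1, by simpa using hne.2⟩
          rw [this, Bool.or_false]
        cases hgo : gone φ τ a b
        · cases hl : litV τ a
          · have hh : hotV φ τ a b = 2 := by simp [hotV, hin, hb, hgo, hl]
            rw [hh]
            refine ⟨Or.inr ?_, Or.inr ?_⟩
            · simp [tN, sV, hb2, hgo]
            · simp [tN, prv, eV, hb0, hl]
          · have ht' : ¬ tapN φ a b = true := fun h => ht ⟨h, hl⟩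
            have hh : hotV φ τ a b = 3 := by simp [hotV, hin, hb, hgo, hl, ht']
            rw [hh]
            refine ⟨Or.inr ?_, Or.inr ?_⟩
            · simp [tN, eV, hb3, hl]
            · simp [tN, prv, sV, hb2, hgo]
        · rw [hgo] at hg
          cases hl : litV τ a
          · have hh : hotV φ τ a b = 1 := by simp [hotV, hin, hb, hgo, hl]
            rw [hh]
            refine ⟨Or.inr ?_, Or.inr ?_⟩
            · simp [tN, eV, hb0, hl]
            · simp [tN, prv, sV, hb2, ← hg]
          · have ht' : ¬ tapN φ a b = true := fun h => ht ⟨h, hl⟩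
            have hh : hotV φ τ a b = 0 := by simp [hotV, hin, hb, hgo, hl, ht']
            rw [hh]
            refine ⟨Or.inr ?_, Or.inr ?_⟩
            · simp [tN, sV, hb2, ← hg]
            · simp [tN, prv, eV, hb3, hl]
  · have hin' : inN φ a b = false := by simpa using hin
    have hh : hotV φ τ a b = 0 := by simp [hotV, hin']
    rw [hh]
    refine ⟨Or.inl ?_, Or.inl ?_⟩
    · simp [txN, hin']
    · simp [tyN, hin', prv]

theorem forcedV {φ : Fm} {τ : ℕ → Bool} (hτ : ∀ c ∈ φ, ClSat τ c) (a b i : ℕ)
    (hfo : foN φ a b i = true) : ¬ (i = hotV φ τ a b ∧ txN φ a b i = false) ∧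
      ¬ (i = prv (hotV φ τ a b) ∧ tyN φ a b i = false) := by
  unfold foN at hfo
  rw [Bool.and_eq_true] at hfo
  obtain ⟨hin, hfo⟩ := hfo
  have hin' := inN_iff.1 hin
  by_cases hb : b = 1
  · subst hb
    simp only [if_true, decide_eq_true_eq] at hfo
    subst hfo
    cases ho : oddN φ a
    · cases hl : litV τ a
      · have hh : hotV φ τ a 1 = 2 := by simp [hotV, hin, ho, hl]
        rw [hh]
        simp [prv]
      · have hh : hotV φ τ a 1 = 0 := by simp [hotV, hin, ho, hl]
        rw [hh]
        simp [prv, tyN, hin, ho]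
    · cases hl : litV τ a
      · have hh : hotV φ τ a 1 = 1 := by simp [hotV, hin, ho, hl]
        rw [hh]
        simp [prv]
      · have hh : hotV φ τ a 1 = 3 := by simp [hotV, hin, ho, hl]
        rw [hh]
        simp [prv, txN, hin, ho]
  · simp only [hb, if_false, Bool.or_eq_true, Bool.and_eq_true, decide_eq_true_eq] at hfo
    by_cases ht : tapN φ a b = true ∧ litV τ a = true
    · have hh : hotV φ τ a b = 0 := by simp [hotV, hin, hb, ht]
      rw [hh]
      rcases hfo with ⟨h1, rfl⟩ | ⟨h1, rfl⟩
      · simp [prv, txN, hin, hb, ht]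
      · simp [prv]
    · have hg : gone φ τ a b = gone φ τ (a - 1) b := by
        rw [gone_succ hin'.1]
        have : (tapN φ a b && litV τ a) = false := by
          rw [Bool.and_eq_false_iff]
          by_contra hne
          push Not at hne
          exact ht ⟨by simpa using hne.1, by simpa using hne.2⟩
        rw [this, Bool.or_false]
      rcases hfo with ⟨h1, rfl⟩ | ⟨h1, rfl⟩
      · subst h1
        rw [show 1 - 1 = 0 from rfl, gone_zero] at hg
        cases hl : litV τ 1
        · have hh : hotV φ τ 1 b = 2 := by simp [hotV, hin, hb, hg, hl]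
          rw [hh]
          simp [prv]
        · have ht' : ¬ tapN φ 1 b = true := fun h => ht ⟨h, hl⟩
          have hh : hotV φ τ 1 b = 3 := by simp [hotV, hin, hb, hg, hl, ht']
          rw [hh]
          simp [prv]
      · have hlast : gone φ τ a b = true := by
          rw [h1]
          exact gone_last hτ (by omega) (by omega) fun q hq l hl => by
            obtain ⟨n1, n2, n3⟩ := lt_nv hq
            rcases hl with rfl | rfl | rfl
            · exact rowOf_le n1
            · exact rowOf_le n2
            · exact rowOf_le n3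
        cases hl : litV τ a
        · have hh : hotV φ τ a b = 1 := by simp [hotV, hin, hb, hlast, hl]
          rw [hh]
          simp [prv]
        · have ht' : ¬ tapN φ a b = true := fun h => ht ⟨h, hl⟩
          have hh : hotV φ τ a b = 0 := by simp [hotV, hin, hb, hlast, hl, ht']
          rw [hh]
          simp [prv]

theorem solOf_ok {φ : Fm} {τ : ℕ → Bool} (hτ : ∀ c ∈ φ, ClSat τ c) : (solOf φ τ).Ok where
  lt := by
    intro r c
    show hotV φ τ r.toNat c.toNat < 4
    unfold hotV
    split_ifs <;> omega
  sideA := by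
    intro r c
    rw [solOf_t]
    exact (sides φ τ r.toNat c.toNat).1
  sideB := by
    intro r c
    rw [solOf_t]
    exact (sides φ τ r.toNat c.toNat).2
  forced := by
    intro r c i h
    exact forcedV hτ r.toNat c.toNat i h

end Pool.Agent.MP_f692a6_lc
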