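import Pool.Agent.MP_f692a6_lc.Grid

/-!
# The network of clusters and its certificate
-/

set_option autoImplicit false

namespace Pool.Agent.MP_f692a6_lc

/-- the clusters of the network: a cell and a kind; the kinds `0, ..., 13` are the clusters of a
cell, and the kind `14` is the corner at the upper left of the cell -/
abbrev V1 := ℤ × ℤ × ℕ

/-- the table of the adjacent pairs of clusters: kind, offset of the cell, kind -/
def T1 : List (ℕ × ℤ × ℤ × ℕ) :=
  [(0, 0, 0, 4), (4, 0, 0, 0), (4, 0, 0, 8), (8, 0, 0, 4), (8, 0, 0, 1), (1, 0, 0, 8), (4, 0,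
   0, 1), (1, 0, 0, 4), (1, 0, 0, 5), (5, 0, 0, 1), (5, 0, 0, 9), (9, 0, 0, 5), (9, 0, 0, 2),
   (2, 0, 0, 9), (5, 0, 0, 2), (2, 0, 0, 5), (2, 0, 0, 6), (6, 0, 0, 2), (6, 0, 0, 10), (10, 0,
   0, 6), (10, 0, 0, 3), (3, 0, 0, 10), (6, 0, 0, 3), (3, 0, 0, 6), (3, 0, 0, 7), (7, 0, 0, 3),
   (7, 0, 0, 11), (11, 0, 0, 7), (11, 0, 0, 0), (0, 0, 0, 11), (7, 0, 0, 0), (0, 0, 0, 7), (0,
   0, 0, 12), (12, 0, 0, 0), (1, 0, 0, 12), (12, 0, 0, 1), (12, 0, 0, 13), (13, 0, 0, 12), (2,
   0, 0, 13), (13, 0, 0, 2), (3, 0, 0, 13), (13, 0, 0, 3), (4, 0, 0, 14), (14, 0, 0, 4), (8, 0,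
   0, 14), (14, 0, 0, 8), (8, 0, 1, 14), (14, 0, -1, 8), (5, 0, 1, 14), (14, 0, -1, 5), (9, 0,
   1, 14), (14, 0, -1, 9), (9, 1, 1, 14), (14, -1, -1, 9), (6, 1, 1, 14), (14, -1, -1, 6), (10,
   1, 1, 14), (14, -1, -1, 10), (10, 1, 0, 14), (14, -1, 0, 10), (7, 1, 0, 14), (14, -1, 0, 7),
   (11, 1, 0, 14), (14, -1, 0, 11), (11, 0, 0, 14), (14, 0, 0, 11), (8, -1, 0, 10), (9, 0, 1,
   11), (10, 1, 0, 8), (11, 0, -1, 9)]

/-- table of the side function inside of a cell -/
def yN : ℕ := 0x3fc07fc0000000000000000000000000000000000000000000000000000000007fe0ffe00000000000000000000000000070000000000000000000000001bff0000000000000000000000000000000300000000001b800000000000000000000000000000000000000000000001000000000009800000000000000000000000000000000000000000000000000000000000800000000000000007000000000000000000000000000000700000000183f000000000000000030000000000000000000000000018003000000000000000000000000000010000000000000000000000000008001000000000000000000000000000000000000000000000000000000000000000003fc0000000006e0000000000700060000000000000000000000000001ff0000000000000260000000000300020000000000000000000000000001ff800000000000002000000000010000000000000000000000000000ffe6ffc0000000000060fc00000000000000000000000000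

/-- table of the side function of the edges that leave a cell -/
def etaTab : List (ℕ × ℤ × ℤ × ℕ × ℕ) :=
  [(4, 0, 0, 14, 0), (8, 0, 0, 14, 0), (8, 0, 1, 14, 0), (5, 0, 1, 14, 256), (9, 0, 1, 14, 0),
   (9, 1, 1, 14, 0), (6, 1, 1, 14, 768), (10, 1, 1, 14, 0), (10, 1, 0, 14, 0), (7, 1, 0, 14,
   1792), (11, 1, 0, 14, 0), (11, 0, 0, 14, 14335), (8, -1, 0, 10, 0), (9, 0, 1, 11, 0), (10,
   1, 0, 8, 0), (11, 0, -1, 9, 14335)]

/-- the offset `1` of cells against corners -/
def hb (k : ℕ) : ℤ := if k = 14 then 0 else 1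

/-- the point of the grid to which a cluster belongs -/
def pt (v : V1) : ℤ × ℤ := (2 * v.1 + hb v.2.2, 2 * v.2.1 + hb v.2.2)

/-- adjacency of clusters -/
def Adj1 (u v : V1) : Prop :=
  ∃ p ∈ T1, u.2.2 = p.1 ∧ v = (u.1 + p.2.1, u.2.1 + p.2.2.1, p.2.2.2)

/-- the direction of an entry of the table in the grid -/
def dpt (p : ℕ × ℤ × ℤ × ℕ) : ℤ × ℤ :=
  (2 * p.2.1 + hb p.2.2.2 - hb p.1, 2 * p.2.2.1 + hb p.2.2.2 - hb p.1)

/-- lookup in the table `yN` -/
def ybit (k l w : ℕ) : Bool := Nat.testBit yN (225 * min k l + 15 * max k l + w)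

/-- the side function inside of a cell -/
def yl1 (u v w : V1) : Bool := ybit u.2.2 v.2.2 w.2.2

/-- lookup in the table `etaTab` -/
def etaB (k : ℕ) (a b : ℤ) (k' w : ℕ) : Bool :=
  etaTab.any fun p => decide (p.1 = k) && decide (p.2.1 = a) && decide (p.2.2.1 = b) &&
    decide (p.2.2.2.1 = k') && Nat.testBit p.2.2.2.2 w

/-- the side function of the edges that leave a cell -/
def eta1 (u v w : V1) : Bool := etaB u.2.2 (v.1 - u.1) (v.2.1 - u.2.1) v.2.2 w.2.2

theorem pt_step {u v : V1} {p : ℕ × ℤ × ℤ × ℕ} (h1 : u.2.2 = p.1)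
    (h2 : v = (u.1 + p.2.1, u.2.1 + p.2.2.1, p.2.2.2)) :
    pt v = ((pt u).1 + (dpt p).1, (pt u).2 + (dpt p).2) := by
  subst h2
  unfold pt dpt
  simp only [h1]
  ext <;> simp only <;> ring

theorem hb_cases (k : ℕ) : (hb k = 0 ∧ k = 14) ∨ (hb k = 1 ∧ k ≠ 14) := by
  unfold hb
  split_ifs with h
  · exact Or.inl ⟨rfl, h⟩
  · exact Or.inr ⟨rfl, h⟩

theorem pt_eq {u w : V1} (h : pt u = pt w) : u.1 = w.1 ∧ u.2.1 = w.2.1 ∧
    ((u.2.2 = 14 ∧ w.2.2 = 14) ∨ (u.2.2 ≠ 14 ∧ w.2.2 ≠ 14)) := by
  unfold pt at h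
  simp only [Prod.mk.injEq] at h
  rcases hb_cases u.2.2 with ⟨h1, h2⟩ | ⟨h1, h2⟩ <;> rcases hb_cases w.2.2 with ⟨h3, h4⟩ | ⟨h3, h4⟩
  · rw [h1, h3] at h
    exact ⟨by omega, by omega, Or.inl ⟨h2, h4⟩⟩
  · rw [h1, h3] at h
    omega
  · rw [h1, h3] at h
    omega
  · rw [h1, h3] at h
    exact ⟨by omega, by omega, Or.inr ⟨h2, h4⟩⟩

/-- the entry is an edge inside of a cell -/
def isIn (p : ℕ × ℤ × ℤ × ℕ) : Bool := decide (dpt p = (0, 0))

theorem T1_symm : (T1.all fun p => decide ((p.2.2.2, -p.2.1, -p.2.2.1, p.1) ∈ T1)) = true := by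
  decide +kernel

theorem T1_in : (T1.all fun p => !(isIn p) || (decide (p.2.1 = 0) && decide (p.2.2.1 = 0) &&
    decide (p.1 ≠ 14) && decide (p.2.2.2 ≠ 14))) = true := by
  decide +kernel

theorem T1_out : (T1.all fun p => isIn p || (decide (dpt p ∈ dirS) && decide (p.1 ≠ 14) &&
    decide (p.2.2.2 ≠ 14)) || decide (dpt p ∈ dirD)) = true := by
  decide +kernel

/-- the check of pairs of edges inside of a cell -/
def chk1 : Bool :=
  T1.all fun p => T1.all fun q => !(isIn p) || !(isIn q) || decide (p.1 = q.1) ||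
    decide (p.1 = q.2.2.2) || decide (p.2.2.2 = q.1) || decide (p.2.2.2 = q.2.2.2) ||
    !(decide (p.1 < q.1) ^^ decide (p.1 < q.2.2.2) ^^ decide (p.2.2.2 < q.1) ^^
      decide (p.2.2.2 < q.2.2.2) ^^ ybit p.1 p.2.2.2 q.1 ^^
      ybit p.1 p.2.2.2 q.2.2.2 ^^
      ybit q.1 q.2.2.2 p.1 ^^
      ybit q.1 q.2.2.2 p.2.2.2)

/-- the check of an edge that leaves a cell and an edge inside -/
def chk2 : Bool :=
  T1.all fun p => T1.all fun q => isIn p || decide (p.1 = 14) || !(isIn q) || decide (p.1 = q.1) ||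
    decide (p.1 = q.2.2.2) ||
    !(decide (p.1 < q.1) ^^ decide (p.1 < q.2.2.2) ^^ etaB p.1 p.2.1 p.2.2.1 p.2.2.2 q.1 ^^
      etaB p.1 p.2.1 p.2.2.1 p.2.2.2 q.2.2.2 ^^
      ybit q.1 q.2.2.2 p.1)

/-- the check of two edges that leave a cell -/
def chk3 : Bool :=
  T1.all fun p => T1.all fun q => isIn p || decide (p.1 = 14) || isIn q || decide (q.1 = 14) ||
    decide (p.1 = q.1) || decide (dpt p = dpt q) ||
    !(decide (p.1 < q.1) ^^ etaB p.1 p.2.1 p.2.2.1 p.2.2.2 q.1 ^^
      etaB q.1 q.2.1 q.2.2.1 q.2.2.2 p.1 ^^ K0 (dpt p) (dpt q))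

/-- the check of parallel edges -/
def chk4 : Bool :=
  T1.all fun p => T1.all fun q => isIn p || decide (p.1 = 14) || decide (p.2.2.2 = 14) ||
    isIn q || decide (q.1 = 14) || decide (q.2.2.2 = 14) || decide (dpt p ≠ dpt q) ||
    decide (p.1 = q.1)

theorem chk1_true : chk1 = true := by decide +kernel

theorem chk2_true : chk2 = true := by decide +kernel

theorem chk3_true : chk3 = true := by decide +kernel

theorem chk4_true : chk4 = true := by decide +kernel

theorem all_all {α : Type} {l : List α} {f : α → α → Bool}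
    (h : (l.all fun p => l.all fun q => f p q) = true) {p q : α} (hp : p ∈ l) (hq : q ∈ l) :
    f p q = true := by
  rw [List.all_eq_true] at h
  have := h p hp
  rw [List.all_eq_true] at this
  exact this q hq

theorem Adj1.symm {u v : V1} (h : Adj1 u v) : Adj1 v u := by
  obtain ⟨p, hp, h1, h2⟩ := h
  have := T1_symm
  rw [List.all_eq_true] at this
  have := of_decide_eq_true (this p hp)
  refine ⟨_, this, ?_, ?_⟩
  · rw [h2]
  · rw [h2]
    simp only [add_neg_cancel_right, ← h1]

theorem isIn_iff {u v : V1} {p : ℕ × ℤ × ℤ × ℕ} (h1 : u.2.2 = p.1)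
    (h2 : v = (u.1 + p.2.1, u.2.1 + p.2.2.1, p.2.2.2)) : isIn p = true ↔ pt u = pt v := by
  rw [pt_step h1 h2]
  unfold isIn
  rw [decide_eq_true_eq]
  constructor
  · intro h
    rw [h]
    simp
  · intro h
    rw [Prod.ext_iff] at h ⊢
    simp only at h ⊢
    omega

theorem pt_in {u v : V1} {p : ℕ × ℤ × ℤ × ℕ} (hp : p ∈ T1) (h1 : u.2.2 = p.1)
    (h2 : v = (u.1 + p.2.1, u.2.1 + p.2.2.1, p.2.2.2)) (h : pt u = pt v) :
    isIn p = true ∧ v.1 = u.1 ∧ v.2.1 = u.2.1 ∧ v.2.2 = p.2.2.2 ∧ p.1 ≠ 14 ∧ p.2.2.2 ≠ 14 := by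
  have hi := (isIn_iff h1 h2).2 h
  have := T1_in
  rw [List.all_eq_true] at this
  have := this p hp
  rw [hi] at this
  simp only [Bool.not_true, Bool.false_or, Bool.and_eq_true, decide_eq_true_eq] at this
  obtain ⟨⟨⟨h3, h4⟩, h5⟩, h6⟩ := this
  refine ⟨hi, ?_, ?_, ?_, h5, h6⟩
  · rw [h2, h3]; simp
  · rw [h2, h4]; simp
  · rw [h2]

theorem pt_out {u v : V1} {p : ℕ × ℤ × ℤ × ℕ} (h1 : u.2.2 = p.1)
    (h2 : v = (u.1 + p.2.1, u.2.1 + p.2.2.1, p.2.2.2)) (h : pt u ≠ pt v) : isIn p = false := by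
  by_contra h'
  exact h ((isIn_iff h1 h2).1 (by simpa using h'))

/-- two vertices of one cell are equal if their kinds are equal -/
theorem eq_of_kind {u w : V1} (h : pt u = pt w) (hk : u.2.2 = w.2.2) : u = w := by
  obtain ⟨e1, e2, e3⟩ := pt_eq h
  ext
  · exact e1
  · exact e2
  · exact hk

/-- the certificate of the network -/
def C1 : Cert Adj1 :=
  C0.subst pt (fun _ _ h => h.symm)
    (by
      intro u v ⟨p, hp, h1, h2⟩ hne
      have hi : isIn p = false := by
        by_contra h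
        exact hne ((isIn_iff h1 h2).1 (by simpa using h))
      have := T1_out
      rw [List.all_eq_true] at this
      have := this p hp
      rw [hi, pt_step h1 h2] at *
      simp only [Bool.false_or, Bool.or_eq_true, Bool.and_eq_true, decide_eq_true_eq] at this
      unfold Adj0
      simp only [add_sub_cancel_left, Prod.mk.eta]
      rcases this with ⟨⟨h3, h4⟩, h5⟩ | h3
      · left
        refine ⟨?_, ?_, h3⟩
        · unfold pt hb
          rw [if_neg (by rw [h1]; exact h4)]
          simp only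
          omega
        · unfold pt hb
          rw [if_neg (by rw [h1]; exact h4)]
          simp only
          omega
      · right
        refine ⟨?_, h3⟩
        unfold pt
        simp only
        omega)
    (fun u v => decide (u.2.2 < v.2.2)) yl1 eta1
    (by
      intro u v h hne
      obtain ⟨e1, e2, e3⟩ := pt_eq h
      have hk : u.2.2 ≠ v.2.2 := by
        intro hk
        apply hne
        ext
        · exact e1
        · exact e2
        · exact hk
      rcases lt_or_gt_of_ne hk with h | h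
      · simp [h, not_lt_of_gt h]
      · simp [h, not_lt_of_gt h])
    (by
      intro u v w _
      unfold yl1 ybit
      rw [min_comm, max_comm])
    (by
      intro u v w x ⟨p, hp, h1, h2⟩ ⟨q, hq, h3, h4⟩ h5 h6 h7 h8 h9 h10 h11
      obtain ⟨i1, e1, e2, e3, e4, e5⟩ := pt_in hp h1 h2 h5
      obtain ⟨i2, f1, f2, f3, f4, f5⟩ := pt_in hq h3 h4 (h6.symm.trans h7)
      have := all_all chk1_true hp hq
      have n1 : ¬ p.1 = q.1 := fun h => h8 (eq_of_kind h6 (by rw [h1, h3, h]))
      have n2 : ¬ p.1 = q.2.2.2 := fun h => h9 (eq_of_kind h7 (by rw [h1, f3, h]))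
      have n3 : ¬ p.2.2.2 = q.1 := fun h =>
        h10 (eq_of_kind (h5.symm.trans h6) (by rw [e3, h3, h]))
      have n4 : ¬ p.2.2.2 = q.2.2.2 := fun h =>
        h11 (eq_of_kind (h5.symm.trans h7) (by rw [e3, f3, h]))
      simp only [i1, i2, n1, n2, n3, n4, Bool.not_true, decide_false, Bool.or_self,
        Bool.false_or, Bool.not_eq_true'] at this
      unfold yl1
      rw [e3, f3, h1, h3]
      exact this)
    (by
      intro u v w x ⟨p, hp, h1, h2⟩ ⟨q, hq, h3, h4⟩ h5 h6 h7 h8 h9
      have i1 := pt_out h1 h2 h5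
      obtain ⟨i2, f1, f2, f3, f4, f5⟩ := pt_in hq h3 h4 (h6.symm.trans h7)
      have := all_all chk2_true hp hq
      have n1 : ¬ p.1 = q.1 := fun h => h8 (eq_of_kind h6 (by rw [h1, h3, h]))
      have n2 : ¬ p.1 = q.2.2.2 := fun h => h9 (eq_of_kind h7 (by rw [h1, f3, h]))
      have n3 : ¬ p.1 = 14 := by
        rcases (pt_eq h6).2.2 with h | h
        · rw [h3] at h
          exact absurd h.2 f4
        · rw [← h1]; exact h.1
      simp only [i1, i2, n1, n2, n3, Bool.not_true, decide_false, Bool.or_self,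
        Bool.false_or, Bool.not_eq_true'] at this
      unfold yl1 eta1
      rw [h2, f3, h1, h3]
      simp only [add_sub_cancel_left]
      exact this)
    (by
      intro u v w x ⟨p, hp, h1, h2⟩ ⟨q, hq, h3, h4⟩ h5 h6 h7 h8 h9
      have i1 := pt_out h1 h2 h6
      have i2 := pt_out h3 h4 (by rw [← h5]; exact h7)
      have := all_all chk3_true hp hq
      have n1 : ¬ p.1 = q.1 := fun h => h9 (eq_of_kind h5 (by rw [h1, h3, h]))
      have n2 : ¬ p.1 = 14 ∧ ¬ q.1 = 14 := by
        rcases (pt_eq h5).2.2 with h | h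
        · exact absurd (eq_of_kind h5 (h.1.trans h.2.symm)) h9
        · rw [← h1, ← h3]; exact h
      have n3 : ¬ dpt p = dpt q := by
        intro h
        apply h8
        rw [pt_step h1 h2, pt_step h3 h4, h, h5]
      simp only [i1, i2, n1, n2.1, n2.2, n3, decide_false, Bool.or_self,
        Bool.false_or, Bool.not_eq_true'] at this
      rw [pt_step h1 h2, pt_step h3 h4, ← h5, kappa_C0]
      unfold eta1
      rw [h2, h4, h1, h3]
      simp only [add_sub_cancel_left]
      rw [z2_iff_false] at this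
      rw [z2_eq]
      simp only [z2_xor] at this ⊢
      grind)
    (by
      intro u v w x ⟨p, hp, h1, h2⟩ ⟨q, hq, h3, h4⟩ h5 h6 h7 h8 h9
      exfalso
      have i1 := pt_out h1 h2 h7
      have i2 := pt_out h3 h4 (by rw [← h5, ← h6]; exact h7)
      have := all_all chk4_true hp hq
      have n2 : ¬ p.1 = 14 ∧ ¬ q.1 = 14 := by
        rcases (pt_eq h5).2.2 with h | h
        · exact absurd (eq_of_kind h5 (h.1.trans h.2.symm)) h8
        · rw [← h1, ← h3]; exact h
      have n3 : ¬ p.2.2.2 = 14 ∧ ¬ q.2.2.2 = 14 := by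
        have ev : v.2.2 = p.2.2.2 := by rw [h2]
        have ex : x.2.2 = q.2.2.2 := by rw [h4]
        rcases (pt_eq h6).2.2 with h | h
        · exact absurd (eq_of_kind h6 (h.1.trans h.2.symm)) h9
        · rw [← ev, ← ex]; exact h
      have n4 : dpt p = dpt q := by
        have := h6
        rw [pt_step h1 h2, pt_step h3 h4, ← h5] at this
        simp only [Prod.mk.injEq, add_right_inj] at this
        ext
        · exact this.1
        · exact this.2
      simp only [i1, i2, n2.1, n2.2, n3.1, n3.2, n4, ne_eq, not_true_eq_false, decide_false,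
        Bool.or_self, Bool.false_or, decide_eq_true_eq] at this
      exact h8 (eq_of_kind h5 (by rw [h1, h3, this])))

/-- the entry `p` applied to the cluster `z` -/
def step (z : V1) (p : ℕ × ℤ × ℤ × ℕ) : V1 := (z.1 + p.2.1, z.2.1 + p.2.2.1, p.2.2.2)

/-- the order of two links at a cluster -/
def K1 (p q : ℕ × ℤ × ℤ × ℕ) : Bool :=
  if isIn p then
    (if isIn q then
      decide (p.1 < q.2.2.2) ^^ decide (p.2.2.2 < p.1) ^^ decide (p.2.2.2 < q.2.2.2) ^^
        ybit p.1 p.2.2.2 q.2.2.2 ^^ ybit p.1 q.2.2.2 p.2.2.2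
    else decide (p.2.2.2 < p.1) ^^ etaB q.1 q.2.1 q.2.2.1 q.2.2.2 p.2.2.2)
  else
    (if isIn q then decide (p.1 < q.2.2.2) ^^ etaB p.1 p.2.1 p.2.2.1 p.2.2.2 q.2.2.2
    else K0 (dpt p) (dpt q))

/-- different links from a cluster to other cells go to different points -/
def chk5 : Bool :=
  T1.all fun p => T1.all fun q => isIn p || isIn q || decide (p.1 ≠ q.1) || decide (p.1 = 14) ||
    decide (p = q) || decide (dpt p ≠ dpt q)

theorem chk5_true : chk5 = true := by decide +kernel

theorem C1_L (a b : V1) : C1.L a b = if pt a = pt b then decide (a.2.2 < b.2.2) else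
    C0.L (pt a) (pt b) := rfl

theorem C1_y (a b c : V1) : C1.y a b c = if pt a = pt b then (if pt c = pt a then yl1 a b c else
    false) else if pt c = pt a then eta1 a b c else if pt c = pt b then eta1 b a c else
    C0.y (pt a) (pt b) (pt c) := rfl

theorem kappa_C1 (z : V1) {p q : ℕ × ℤ × ℤ × ℕ} (hp : p ∈ T1) (hq : q ∈ T1) (h1 : z.2.2 = p.1)
    (h2 : z.2.2 = q.1) (hpq : p ≠ q) (hz : z.2.2 ≠ 14) :
    C1.kappa z (step z p) (step z q) = K1 p q := by
  have ep : pt (step z p) = ((pt z).1 + (dpt p).1, (pt z).2 + (dpt p).2) := pt_step h1 rfl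
  have eq : pt (step z q) = ((pt z).1 + (dpt q).1, (pt z).2 + (dpt q).2) := pt_step h2 rfl
  have ip : isIn p = true ↔ pt z = pt (step z p) := isIn_iff h1 rfl
  have iq : isIn q = true ↔ pt z = pt (step z q) := isIn_iff h2 rfl
  have kp : (step z p).2.2 = p.2.2.2 := rfl
  have kq : (step z q).2.2 = q.2.2.2 := rfl
  have dp : (step z p).1 - z.1 = p.2.1 ∧ (step z p).2.1 - z.2.1 = p.2.2.1 := by
    unfold step; simp
  have dq : (step z q).1 - z.1 = q.2.1 ∧ (step z q).2.1 - z.2.1 = q.2.2.1 := by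
    unfold step; simp
  unfold Cert.kappa K1
  simp only [C1_L, C1_y]
  by_cases hip : isIn p = true
  · have hp' := ip.1 hip
    by_cases hiq : isIn q = true
    · have hq' := iq.1 hiq
      rw [if_pos hip, if_pos hiq]
      rw [← hp', ← hq']
      simp only [if_true]
      unfold yl1
      rw [kp, kq, h1]
    · have hq' : ¬ pt z = pt (step z q) := fun h => hiq (iq.2 h)
      have hq'' := fun h => hq' (Eq.symm h)
      rw [if_pos hip, if_neg hiq, ← hp']
      simp only [if_true, if_neg hq', if_neg hq'']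
      unfold eta1
      rw [dq.1, dq.2, kp, kq, h1]
      rw [← h1, h2]
      cases C0.L (pt z) (pt (step z q)) <;> cases decide (p.2.2.2 < q.1) <;>
        cases etaB q.1 q.2.1 q.2.2.1 q.2.2.2 p.2.2.2 <;> rfl
  · have hp' : ¬ pt z = pt (step z p) := fun h => hip (ip.2 h)
    have hp'' := fun h => hp' (Eq.symm h)
    by_cases hiq : isIn q = true
    · have hq' := iq.1 hiq
      rw [if_neg hip, if_pos hiq, ← hq']
      simp only [if_true, if_neg hp', if_neg hp'']
      unfold eta1
      rw [dp.1, dp.2, kp, kq, h1]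
      cases C0.L (pt (step z p)) (pt z) <;> cases decide (p.1 < q.2.2.2) <;>
        cases etaB p.1 p.2.1 p.2.2.1 p.2.2.2 q.2.2.2 <;> rfl
    · have hq' : ¬ pt z = pt (step z q) := fun h => hiq (iq.2 h)
      have hq'' := fun h => hq' (Eq.symm h)
      rw [if_neg hip, if_neg hiq]
      have hne : dpt p ≠ dpt q := by
        have := all_all chk5_true hp hq
        have e1 : isIn p = false := by simpa using hip
        have e2 : isIn q = false := by simpa using hiq
        have e3 : ¬ p.1 = 14 := by rw [← h1]; exact hz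
        simp only [e1, e2, ← h1, ← h2, ne_eq, not_true_eq_false, decide_false, hz, hpq,
          Bool.false_or, decide_eq_true_eq] at this
        exact this
      have hpq' : ¬ pt (step z p) = pt (step z q) := by
        rw [ep, eq]
        intro h
        apply hne
        rw [Prod.ext_iff] at h ⊢
        simp only at h
        omega
      have hqp' := fun h => hpq' (Eq.symm h)
      simp only [if_neg hp', if_neg hp'', if_neg hq', if_neg hq'', if_neg hpq', if_neg hqp']
      rw [← kappa_C0 (pt z) (dpt p) (dpt q), ← ep, ← eq]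
      rfl

end Pool.Agent.MP_f692a6_lc
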