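import Pool.Agent.MP_f692a6_lc.Defs
import Pool.Agent.MP_f692a6_lc.Algebra

/-!
# A parity certificate for planarity

A graph with a tournament `L` on its vertices and a function `y` on pairs (edge, vertex) that
satisfy one linear equation over the field with two elements for each pair of disjoint edges has
neither a `K₅` minor nor a `K₃₃` minor.
-/

set_option autoImplicit false

namespace Pool.Agent.MP_f692a6_lc

/-- a boolean as an element of the field with two elements -/
def z2 (b : Bool) : ZMod 2 := if b then 1 else 0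

theorem z2_xor (a b : Bool) : z2 (a ^^ b) = z2 a + z2 b := by
  cases a <;> cases b <;> decide

theorem z2_inj {a b : Bool} (h : z2 a = z2 b) : a = b := by
  revert h; cases a <;> cases b <;> decide

theorem z2_eq {a b : Bool} : a = b ↔ z2 a = z2 b := ⟨fun h => by rw [h], z2_inj⟩

@[simp] theorem z2_true : z2 true = 1 := rfl

@[simp] theorem z2_false : z2 false = 0 := rfl

/-- The certificate. -/
structure Cert {V : Type} (Adj : V → V → Prop) where
  /-- the tournament -/
  L : V → V → Bool
  /-- on which side of an edge a vertex lies -/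
  y : V → V → V → Bool
  anti : ∀ u v, u ≠ v → (L u v ^^ L v u) = true
  symm : ∀ u v w, y u v w = y v u w
  eq : ∀ u v w x, Adj u v → Adj w x → u ≠ w → u ≠ x → v ≠ w → v ≠ x →
    (L u w ^^ L u x ^^ L v w ^^ L v x ^^ y u v w ^^ y u v x ^^ y w x u ^^ y w x v) = false

/-- the certificate of a graph is one of each subgraph, and can be pulled back -/
def Cert.comap {V W : Type} {Adj : V → V → Prop} (C : Cert Adj) {Adj' : W → W → Prop}
    (f : W → V) (hf : ∀ u v, Adj' u v → Adj (f u) (f v))
    (hinj : ∀ u v, f u = f v → u = v) : Cert Adj' where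
  L u v := C.L (f u) (f v)
  y u v w := C.y (f u) (f v) (f w)
  anti u v h := C.anti _ _ fun h' => h (hinj _ _ h')
  symm u v w := C.symm _ _ _
  eq u v w x h1 h2 h3 h4 h5 h6 := C.eq _ _ _ _ (hf _ _ h1) (hf _ _ h2)
    (fun h => h3 (hinj _ _ h)) (fun h => h4 (hinj _ _ h)) (fun h => h5 (hinj _ _ h))
    (fun h => h6 (hinj _ _ h))

section

variable {V : Type} {Adj : V → V → Prop} (C : Cert Adj)

/-- sum of `y` along a list of vertices -/
def Cert.sum : List V → V → ZMod 2
  | u :: v :: l, w => z2 (C.y u v w) + Cert.sum (v :: l) w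
  | _, _ => 0

/-- the equation of an edge and a path -/
theorem Cert.edge_path (u v : V) (huv : Adj u v) : ∀ (Q : List V) (w x : V),
    Q.IsChain Adj → Q.head? = some w → Q.getLast? = some x → (∀ q ∈ Q, q ≠ u ∧ q ≠ v) →
    z2 (C.L u w) + z2 (C.L u x) + z2 (C.L v w) + z2 (C.L v x) + z2 (C.y u v w) +
      z2 (C.y u v x) + C.sum Q u + C.sum Q v = 0
  | [], w, x, _, h, _, _ => by simp at h
  | [q], w, x, _, h, h', _ => by
    simp only [List.head?_cons, Option.some.injEq] at h
    simp only [List.getLast?_singleton, Option.some.injEq] at h'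
    subst h; subst h'
    simp only [Cert.sum]
    have two : (2 : ZMod 2) = 0 := by decide
    linear_combination (z2 (C.L u q) + z2 (C.L v q) + z2 (C.y u v q)) * two
  | q :: q' :: Q, w, x, hc, h, h', ha => by
    simp only [List.head?_cons, Option.some.injEq] at h
    subst h
    have ih := Cert.edge_path u v huv (q' :: Q) q' x (List.isChain_cons_cons.1 hc).2 rfl
      (by rw [← h']; simp [List.getLast?_cons_cons]) (fun r hr => ha r (List.mem_cons_of_mem _ hr))
    have h1 := C.eq u v q q' huv (List.isChain_cons_cons.1 hc).1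
      (ha q (by simp)).1.symm (ha q' (by simp)).1.symm (ha q (by simp)).2.symm
      (ha q' (by simp)).2.symm
    rw [z2_eq] at h1
    simp only [z2_xor, z2_false] at h1
    simp only [Cert.sum]
    have two : (2 : ZMod 2) = 0 := by decide
    linear_combination ih + h1 - (z2 (C.L u q') + z2 (C.L v q') + z2 (C.y u v q')) * two

/-- the equation of two disjoint paths -/
theorem Cert.path_path (Q : List V) (w x : V) (hQ : Q.IsChain Adj) (hw : Q.head? = some w)
    (hx : Q.getLast? = some x) : ∀ (P : List V) (u v : V),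
    P.IsChain Adj → P.head? = some u → P.getLast? = some v → (∀ p ∈ P, ∀ q ∈ Q, q ≠ p) →
    z2 (C.L u w) + z2 (C.L u x) + z2 (C.L v w) + z2 (C.L v x) + C.sum P w + C.sum P x +
      C.sum Q u + C.sum Q v = 0
  | [], u, v, _, h, _, _ => by simp at h
  | [p], u, v, _, h, h', _ => by
    simp only [List.head?_cons, Option.some.injEq] at h
    simp only [List.getLast?_singleton, Option.some.injEq] at h'
    subst h; subst h'
    simp only [Cert.sum]
    have two : (2 : ZMod 2) = 0 := by decide
    linear_combination (z2 (C.L p w) + z2 (C.L p x) + C.sum Q p) * two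
  | p :: p' :: P, u, v, hc, h, h', ha => by
    simp only [List.head?_cons, Option.some.injEq] at h
    subst h
    have ih := Cert.path_path Q w x hQ hw hx (p' :: P) p' v (List.isChain_cons_cons.1 hc).2 rfl
      (by rw [← h']; simp [List.getLast?_cons_cons]) (fun r hr => ha r (List.mem_cons_of_mem _ hr))
    have h1 := C.edge_path p p' (List.isChain_cons_cons.1 hc).1 Q w x hQ hw hx
      (fun q hq => ⟨ha p (by simp) q hq, ha p' (by simp) q hq⟩)
    simp only [Cert.sum]
    have two : (2 : ZMod 2) = 0 := by decide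
    linear_combination ih + h1 - (z2 (C.L p' w) + z2 (C.L p' x) + C.sum Q p') * two

end

/-- a path in a connected set -/
theorem exists_path_in {V : Type} (G : SimpleGraph V) {B : Set V} (hB : (G.induce B).Connected)
    {r x : V} (hr : r ∈ B) (hx : x ∈ B) :
    ∃ P : List V, P.IsChain G.Adj ∧ P.head? = some r ∧ P.getLast? = some x ∧ ∀ p ∈ P, p ∈ B := by
  obtain ⟨w⟩ := hB.preconnected ⟨r, hr⟩ ⟨x, hx⟩
  refine ⟨w.support.map Subtype.val, ?_, ?_, ?_, ?_⟩
  · refine List.isChain_map_of_isChain (R := (G.induce B).Adj) Subtype.val ?_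
      w.isChain_adj_support
    intro a b h
    exact h
  · rw [List.head?_map]
    rw [List.head?_eq_some_head w.support_ne_nil]
    simp
  · rw [List.getLast?_map]
    rw [List.getLast?_eq_some_getLast w.support_ne_nil]
    simp
  · intro p hp
    simp only [List.mem_map] at hp
    obtain ⟨a, _, rfl⟩ := hp
    exact a.2

/-- two adjacent branch sets: a path between their roots -/
theorem exists_path {V : Type} (G : SimpleGraph V) {B B' : Set V} (hB : (G.induce B).Connected)
    (hB' : (G.induce B').Connected) {r r' : V} (hr : r ∈ B) (hr' : r' ∈ B')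
    (h : ∃ x ∈ B, ∃ y ∈ B', G.Adj x y) :
    ∃ P : List V, P.IsChain G.Adj ∧ P.head? = some r ∧ P.getLast? = some r' ∧
      ∀ p ∈ P, p ∈ B ∨ p ∈ B' := by
  obtain ⟨x, hx, y, hy, hxy⟩ := h
  obtain ⟨P, h1, h2, h3, h4⟩ := exists_path_in G hB hr hx
  obtain ⟨Q, k1, k2, k3, k4⟩ := exists_path_in G hB' hy hr'
  refine ⟨P ++ Q, ?_, ?_, ?_, ?_⟩
  · rw [List.isChain_append]
    refine ⟨h1, k1, ?_⟩
    intro a ha b hb
    rw [h3] at ha
    rw [k2] at hb
    simp only [Option.mem_def, Option.some.injEq] at ha hb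
    rw [← ha, ← hb]
    exact hxy
  · rw [List.head?_append, h2]; rfl
  · rw [List.getLast?_append, k3]; rfl
  · intro p hp
    rcases List.mem_append.1 hp with hp | hp
    · exact Or.inl (h4 p hp)
    · exact Or.inr (k4 p hp)

/-- The certificate excludes minors: the general step. -/
theorem Cert.minor_eq {V : Type} {G : SimpleGraph V} (C : Cert G.Adj) {n : ℕ}
    {B : Fin n → Set V} (hB : ∀ w, (G.induce (B w)).Connected)
    (hd : ∀ w w', w ≠ w' → Disjoint (B w) (B w')) :
    ∃ (l : Fin n → Fin n → ZMod 2) (Y : Fin n → Fin n → Fin n → ZMod 2),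
      (∀ i j, i ≠ j → l i j + l j i = 1) ∧
      ∀ i j k m : Fin n, (∃ x ∈ B i, ∃ y ∈ B j, G.Adj x y) →
        (∃ x ∈ B k, ∃ y ∈ B m, G.Adj x y) → i ≠ k → i ≠ m → j ≠ k → j ≠ m →
        l i k + l i m + l j k + l j m + Y i j k + Y i j m + Y k m i + Y k m j = 0 := by
  have hne : ∀ w, ∃ r, r ∈ B w := fun w => by
    obtain ⟨⟨r, hr⟩⟩ := (hB w).nonempty
    exact ⟨r, hr⟩
  choose r hr using hne
  have hP : ∀ i j : Fin n, ∃ P : List V, (∃ x ∈ B i, ∃ y ∈ B j, G.Adj x y) →
      P.IsChain G.Adj ∧ P.head? = some (r i) ∧ P.getLast? = some (r j) ∧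
      ∀ p ∈ P, p ∈ B i ∨ p ∈ B j := by
    intro i j
    by_cases h : ∃ x ∈ B i, ∃ y ∈ B j, G.Adj x y
    · obtain ⟨P, hP⟩ := exists_path G (hB i) (hB j) (hr i) (hr j) h
      exact ⟨P, fun _ => hP⟩
    · exact ⟨[], fun h' => absurd h' h⟩
  choose P hP using hP
  refine ⟨fun i j => z2 (C.L (r i) (r j)), fun i j k => C.sum (P i j) (r k), ?_, ?_⟩
  · intro i j hij
    have hne : r i ≠ r j := fun h =>
      Set.disjoint_left.1 (hd i j hij) (hr i) (h ▸ hr j)
    have := C.anti _ _ hne
    rw [z2_eq] at this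
    simpa only [z2_xor, z2_true] using this
  · intro i j k m hij hkm h1 h2 h3 h4
    obtain ⟨p1, p2, p3, p4⟩ := hP i j hij
    obtain ⟨q1, q2, q3, q4⟩ := hP k m hkm
    refine C.path_path (P k m) (r k) (r m) q1 q2 q3 (P i j) (r i) (r j) p1 p2 p3 ?_
    intro p hp q hq hpq
    rw [hpq] at hq
    rcases p4 p hp with hp | hp <;> rcases q4 p hq with hq | hq
    · exact Set.disjoint_left.1 (hd i k h1) hp hq
    · exact Set.disjoint_left.1 (hd i m h2) hp hq
    · exact Set.disjoint_left.1 (hd j k h3) hp hq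
    · exact Set.disjoint_left.1 (hd j m h4) hp hq

/-- A graph with a certificate is planar. -/
theorem Cert.planar {V : Type} {G : SimpleGraph V} (C : Cert G.Adj) : Planar G := by
  constructor
  · rintro ⟨B, hB, hd, ha⟩
    obtain ⟨l, Y, h1, h2⟩ := C.minor_eq hB hd
    refine k5_algebra l Y h1 fun i j k m hij hkm h3 h4 h5 h6 =>
      h2 i j k m (ha i j ?_) (ha k m ?_) h3 h4 h5 h6
    · exact ne_of_lt hij
    · exact ne_of_lt hkm
  · rintro ⟨B, hB, hd, ha⟩
    let e : Fin 6 → Fin 3 ⊕ Fin 3 := fun i =>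
      if h : i.val < 3 then Sum.inl ⟨i.val, h⟩ else Sum.inr ⟨i.val - 3, by omega⟩
    have he : ∀ i j, e i = e j → i = j := by decide
    obtain ⟨l, Y, h1, h2⟩ := C.minor_eq (B := fun i => B (e i)) (fun w => hB _)
      (fun w w' hw => hd _ _ fun h => hw (he _ _ h))
    have hadj : ∀ i j : Fin 6, (i.val < 3 ∧ 3 ≤ j.val) →
        (completeBipartiteGraph (Fin 3) (Fin 3)).Adj (e i) (e j) := by
      intro i j hij
      have h3 : ¬ (j.val < 3) := by omega
      simp only [e, hij.1, h3, dif_pos, dif_neg, not_false_eq_true, completeBipartiteGraph]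
      simp
    exact k33_algebra l Y h1 fun i j k m hij hkm h3 h4 h5 h6 =>
      h2 i j k m (ha _ _ (hadj i j hij)) (ha _ _ (hadj k m hkm)) h3 h4 h5 h6

end Pool.Agent.MP_f692a6_lc
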