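import Pool.Agent.MP_f692a6_lc.Minor

/-!
# The table of the certificates
-/

set_option autoImplicit false

namespace Pool.Agent.MP_f692a6_lc

/-- certificates: assumptions and six connected sets of items -/
def certs : List (Asm × List (List Itm)) :=
  [(⟨[(0, 0, 0, 0)], [], []⟩, [[(0, 0, 0, 1)], [(0, 0, 0, 5)], [(0, -1, 9, 0), (0, 0, 14, 0), (0,
   0, 1, 0), (0, 0, 8, 0)], [(0, 0, 4, 0)], [(0, 0, 11, 0)], [(0, 0, 12, 0)]]),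
(⟨[(0, 0, 1, 0)], [], []⟩, [[(0, 0, 1, 1)], [(0, 0, 1, 5)], [(0, 0, 13, 0), (0, 0, 2, 0), (0,
   0, 9, 0)], [(0, 0, 5, 0)], [(0, 1, 14, 0), (-1, 0, 10, 0), (0, 0, 8, 0)], [(0, 0, 12,
   0)]]),
(⟨[(0, 0, 2, 0)], [], []⟩, [[(0, 0, 2, 1)], [(0, 0, 2, 5)], [(0, 0, 3, 0), (0, 0, 10, 0)],
   [(0, 0, 6, 0)], [(1, 1, 14, 0), (0, 1, 11, 0), (0, 0, 9, 0)], [(0, 0, 13, 0)]]),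
(⟨[(0, 0, 3, 0)], [], []⟩, [[(0, 0, 3, 1)], [(0, 0, 3, 5)], [(1, 0, 14, 0)], [(0, 0, 7, 0)],
   [(1, 0, 8, 0), (0, 0, 10, 0)], [(0, 0, 11, 0), (0, 0, 0, 0), (0, 0, 12, 0), (0, 0, 13,
   0)]]),
(⟨[(0, 0, 8, 0)], [], []⟩, [[(0, 0, 5, 0), (0, 1, 14, 0), (-1, 0, 7, 0), (-1, 0, 3, 0), (-1,
   0, 10, 0)], [(0, 0, 4, 0)], [(0, 0, 8, 1)], [(0, 0, 1, 0)], [(0, 0, 8, 5)], [(0, 0, 14,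
   0)]]),
(⟨[(0, 0, 9, 0)], [], []⟩, [[(1, 1, 14, 0), (0, 0, 6, 0), (0, 0, 2, 0)], [(0, 0, 9, 5)], [(0,
   1, 14, 0)], [(0, 0, 5, 0)], [(0, 0, 9, 1)], [(0, 1, 4, 0), (0, 1, 0, 0), (0, 1, 11, 0)]]),
(⟨[(0, 0, 10, 0)], [], []⟩, [[(1, 0, 14, 0), (0, 0, 7, 0), (0, 0, 3, 0)], [(0, 0, 10, 5)],
   [(1, 1, 14, 0)], [(0, 0, 6, 0)], [(0, 0, 10, 1)], [(1, 0, 5, 0), (1, 0, 1, 0), (1, 0, 8,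
   0)]]),
(⟨[(0, 0, 11, 0)], [], []⟩, [[(0, 0, 4, 0), (0, 0, 14, 0), (0, -1, 6, 0), (0, -1, 2, 0), (0,
   -1, 9, 0)], [(0, 0, 7, 0)], [(0, 0, 11, 1)], [(0, 0, 0, 0)], [(0, 0, 11, 5)], [(1, 0, 14,
   0)]]),
(⟨[(0, 0, 12, 0)], [], []⟩, [[(0, 0, 6, 0), (0, 0, 3, 0), (0, 0, 7, 0), (0, 0, 0, 0)], [(0, 0,
   5, 0), (0, 0, 1, 0)], [(0, 0, 13, 0)], [(0, 0, 2, 0)], [(0, 0, 12, 1)], [(0, 0, 12, 5)]]),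
(⟨[(0, 0, 13, 0)], [], []⟩, [[(0, 0, 7, 0), (0, 0, 5, 0), (0, 0, 1, 0), (0, 0, 4, 0), (0, 0,
   0, 0)], [(0, 0, 13, 1)], [(0, 0, 13, 5)], [(0, 0, 2, 0)], [(0, 0, 3, 0)], [(0, 0, 12,
   0)]]),
(⟨[(0, 0, 0, 1)], [], []⟩, [[(0, 0, 0, 2)], [(0, 0, 11, 0)], [(0, 0, 12, 0)], [(0, 0, 0, 6)],
   [(0, -1, 9, 0), (0, 0, 14, 0), (0, 0, 1, 0), (0, 0, 4, 0)], [(0, 0, 13, 0), (0, 0, 3, 0),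
   (0, 0, 7, 0)]]),
(⟨[(0, 0, 1, 1)], [], []⟩, [[(0, 0, 1, 2)], [(0, 0, 8, 0)], [(0, 0, 12, 0)], [(0, 0, 1, 6)],
   [(0, 0, 0, 0), (0, 0, 4, 0)], [(-1, 0, 10, 0), (0, 1, 14, 0), (0, 0, 13, 0), (0, 0, 2, 0),
   (0, 0, 5, 0)]]),
(⟨[(0, 0, 2, 1)], [], []⟩, [[(0, 0, 2, 2)], [(0, 0, 9, 0)], [(0, 0, 13, 0)], [(0, 0, 2, 6)],
   [(0, 0, 12, 0), (0, 0, 1, 0), (0, 0, 5, 0)], [(0, 1, 11, 0), (1, 1, 14, 0), (0, 0, 3, 0),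
   (0, 0, 6, 0)]]),
(⟨[(0, 0, 3, 1)], [], []⟩, [[(0, 0, 3, 2)], [(0, 0, 10, 0)], [(0, 0, 13, 0)], [(0, 0, 3, 6)],
   [(0, 0, 2, 0), (0, 0, 6, 0)], [(1, 0, 8, 0), (1, 0, 14, 0), (0, 0, 12, 0), (0, 0, 0, 0),
   (0, 0, 7, 0)]]),
(⟨[(0, 0, 8, 3)], [], []⟩, [[(0, 0, 5, 0), (0, 1, 14, 0), (-1, 0, 7, 0), (-1, 0, 3, 0), (-1,
   0, 10, 0)], [(0, 0, 4, 0)], [(0, 0, 8, 4)], [(0, 0, 1, 0)], [(0, 0, 8, 8)], [(0, 0, 14,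
   0)]]),
(⟨[(0, 0, 9, 3)], [], []⟩, [[(1, 1, 14, 0), (0, 0, 6, 0), (0, 0, 2, 0)], [(0, 0, 9, 8)], [(0,
   1, 14, 0)], [(0, 0, 5, 0)], [(0, 0, 9, 4)], [(0, 1, 4, 0), (0, 1, 0, 0), (0, 1, 11, 0)]]),
(⟨[(0, 0, 10, 3)], [], []⟩, [[(1, 0, 14, 0), (0, 0, 7, 0), (0, 0, 3, 0)], [(0, 0, 10, 8)],
   [(1, 1, 14, 0)], [(0, 0, 6, 0)], [(0, 0, 10, 4)], [(1, 0, 5, 0), (1, 0, 1, 0), (1, 0, 8,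
   0)]]),
(⟨[(0, 0, 11, 3)], [], []⟩, [[(0, 0, 4, 0), (0, 0, 14, 0), (0, -1, 6, 0), (0, -1, 2, 0), (0,
   -1, 9, 0)], [(0, 0, 7, 0)], [(0, 0, 11, 4)], [(0, 0, 0, 0)], [(0, 0, 11, 8)], [(1, 0, 14,
   0)]]),
(⟨[(0, 0, 8, 1)], [], [(0, 0, 0)]⟩, [[(0, 0, 14, 0), (-1, 0, 7, 0), (-1, 0, 3, 0), (-1, 0, 10,
   0)], [(0, 0, 5, 0), (0, 0, 1, 0)], [(0, 0, 8, 2)], [(0, 0, 4, 0)], [(0, 0, 8, 6)], [(0, 1,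
   14, 0)]]),
(⟨[(0, 0, 9, 1)], [], [(0, 0, 1)]⟩, [[(0, 0, 6, 0), (0, 0, 5, 0), (0, 0, 2, 0)], [(0, 0, 9,
   2)], [(0, 1, 4, 0), (0, 1, 0, 0), (0, 1, 11, 0)], [(0, 0, 9, 6)], [(0, 1, 14, 0)], [(1, 1,
   14, 0)]]),
(⟨[(0, 0, 10, 1)], [], [(0, 0, 2)]⟩, [[(0, 0, 7, 0), (0, 0, 6, 0), (0, 0, 3, 0)], [(0, 0, 10,
   2)], [(1, 0, 5, 0), (1, 0, 1, 0), (1, 0, 8, 0)], [(0, 0, 10, 6)], [(1, 0, 14, 0)], [(1, 1,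
   14, 0)]]),
(⟨[(0, 0, 11, 1)], [], [(0, 0, 3)]⟩, [[(0, -1, 6, 0), (0, -1, 2, 0), (0, -1, 9, 0)], [(0, 0,
   7, 0), (0, 0, 4, 0), (0, 0, 0, 0)], [(0, 0, 11, 2)], [(0, 0, 11, 6)], [(0, 0, 14, 0)], [(1,
   0, 14, 0)]]),
(⟨[(0, 0, 4, 3)], [], []⟩, [[(0, 0, 12, 0), (0, -1, 9, 0), (0, 0, 11, 0), (0, 0, 0, 0)], [(0,
   0, 4, 4)], [(0, 0, 8, 0)], [(0, 0, 1, 0)], [(0, 0, 4, 8)], [(0, 0, 14, 0)]]),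
(⟨[(0, 0, 5, 3)], [], []⟩, [[(0, 0, 13, 0), (0, 0, 12, 0), (-1, 0, 10, 0), (0, 0, 8, 0), (0,
   0, 1, 0)], [(0, 0, 5, 4)], [(0, 0, 9, 0)], [(0, 0, 2, 0)], [(0, 0, 5, 8)], [(0, 1, 14,
   0)]]),
(⟨[(0, 0, 6, 3)], [], []⟩, [[(0, 0, 13, 0), (0, 1, 11, 0), (0, 0, 9, 0), (0, 0, 2, 0)], [(0,
   0, 6, 4)], [(0, 0, 10, 0)], [(0, 0, 3, 0)], [(0, 0, 6, 8)], [(1, 1, 14, 0)]]),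
(⟨[(0, 0, 7, 3)], [], []⟩, [[(0, 0, 13, 0), (0, 0, 12, 0), (0, 0, 0, 0)], [(0, 0, 7, 8)], [(1,
   0, 14, 0)], [(1, 0, 8, 0), (0, 0, 10, 0), (0, 0, 3, 0)], [(0, 0, 7, 4)], [(0, 0, 11, 0)]]),
(⟨[(0, 0, 0, 2), (0, 0, 4, 2)], [], []⟩, [[(0, 0, 1, 0), (0, 0, 12, 0), (0, 0, 0, 3)], [(0, 0,
   4, 3)], [(0, 0, 14, 0)], [(0, -1, 9, 0), (0, 0, 11, 0), (0, 0, 0, 7)], [(0, 0, 4, 7)], [(0,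
   0, 8, 0)]]),
(⟨[(0, 0, 1, 2), (0, 0, 5, 2)], [], []⟩, [[(0, 0, 13, 0), (0, 0, 12, 0), (0, 0, 1, 3)], [(0,
   0, 1, 7), (0, 0, 5, 3)], [(0, 1, 14, 0)], [(0, 0, 9, 0), (0, 0, 2, 0)], [(0, 0, 5, 7)],
   [(-1, 0, 10, 0), (0, 0, 8, 0)]]),
(⟨[(0, 0, 2, 2), (0, 0, 6, 2)], [], []⟩, [[(0, 0, 3, 0), (0, 0, 13, 0), (0, 0, 2, 3)], [(0, 0,
   6, 3)], [(1, 1, 14, 0)], [(0, 1, 11, 0), (0, 0, 9, 0), (0, 0, 2, 7)], [(0, 0, 6, 7)], [(0,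
   0, 10, 0)]]),
(⟨[(0, 0, 3, 2), (0, 0, 7, 2)], [], []⟩, [[(0, 0, 0, 0), (0, 0, 12, 0), (0, 0, 13, 0), (0, 0,
   3, 3)], [(0, 0, 3, 7), (0, 0, 7, 3)], [(1, 0, 14, 0)], [(0, 0, 7, 7)], [(1, 0, 8, 0), (0,
   0, 10, 0)], [(0, 0, 11, 0)]]),
(⟨[(0, 0, 0, 2), (0, 0, 4, 0)], [], []⟩, [[(0, 0, 12, 0), (0, 0, 0, 3)], [(0, 0, 0, 7), (0, 0,
   4, 1)], [(0, 0, 14, 0)], [(0, 0, 8, 0), (0, 0, 1, 0)], [(0, 0, 4, 5)], [(0, -1, 9, 0), (0,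
   0, 11, 0)]]),
(⟨[(0, 0, 1, 2), (0, 0, 5, 0)], [], []⟩, [[(0, 0, 2, 0), (0, 0, 13, 0), (0, 0, 12, 0), (0, 0,
   1, 3)], [(0, 0, 5, 1)], [(0, 1, 14, 0)], [(-1, 0, 10, 0), (0, 0, 8, 0), (0, 0, 1, 7)], [(0,
   0, 5, 5)], [(0, 0, 9, 0)]]),
(⟨[(0, 0, 2, 2), (0, 0, 6, 0)], [], []⟩, [[(0, 0, 3, 0), (0, 0, 13, 0), (0, 0, 2, 3)], [(0, 0,
   6, 1)], [(1, 1, 14, 0)], [(0, 1, 11, 0), (0, 0, 9, 0), (0, 0, 2, 7)], [(0, 0, 6, 5)], [(0,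
   0, 10, 0)]]),
(⟨[(0, 0, 3, 2), (0, 0, 7, 0)], [], []⟩, [[(0, 0, 13, 0), (0, 0, 12, 0), (0, 0, 11, 0), (0, 0,
   0, 0)], [(1, 0, 8, 0), (0, 0, 10, 0), (0, 0, 3, 7)], [(0, 0, 7, 5)], [(0, 0, 3, 3)], [(0,
   0, 7, 1)], [(1, 0, 14, 0)]]),
(⟨[(0, 0, 4, 1), (0, 0, 8, 2)], [(0, 0, 2, 0)], []⟩, [[(0, -1, 9, 0), (0, 0, 11, 0), (0, 0, 0,
   0), (0, 0, 12, 0), (0, 0, 1, 0)], [(0, 0, 4, 6)], [(0, 0, 8, 3)], [(0, 0, 4, 2)], [(0, 0,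
   8, 7)], [(0, 0, 14, 0)]]),
(⟨[(0, 0, 5, 1), (0, 0, 9, 2)], [(0, 0, 2, 1)], []⟩, [[(-1, 0, 10, 0), (0, 0, 8, 0), (0, 0, 1,
   0), (0, 0, 12, 0), (0, 0, 13, 0), (0, 0, 2, 0)], [(0, 0, 5, 6)], [(0, 0, 9, 3)], [(0, 0, 5,
   2)], [(0, 0, 9, 7)], [(0, 1, 14, 0)]]),
(⟨[(0, 0, 6, 1), (0, 0, 10, 2)], [(0, 0, 2, 2)], []⟩, [[(0, 0, 3, 0), (0, 0, 13, 0), (0, 1,
   11, 0), (0, 0, 9, 0), (0, 0, 2, 0)], [(0, 0, 6, 6)], [(0, 0, 10, 3)], [(0, 0, 6, 2)], [(0,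
   0, 10, 7)], [(1, 1, 14, 0)]]),
(⟨[(0, 0, 7, 1), (0, 0, 11, 2)], [(0, 0, 2, 3)], []⟩, [[(0, -1, 6, 0), (0, -1, 2, 0), (0, -1,
   5, 0), (0, 0, 14, 0), (0, 0, 4, 0), (0, 0, 0, 0)], [(0, 0, 7, 6)], [(0, 0, 11, 3)], [(0, 0,
   7, 2)], [(0, 0, 11, 7)], [(1, 0, 14, 0)]]),
(⟨[(0, 0, 1, 2), (0, 0, 8, 2)], [(0, 0, 3, 0)], []⟩, [[(0, 0, 1, 3)], [(0, 0, 8, 7)], [(0, 0,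
   14, 0)], [(-1, 0, 7, 0), (-1, 0, 3, 0), (-1, 0, 6, 0), (0, 1, 14, 0), (0, 0, 5, 0), (0, 0,
   1, 7)], [(0, 0, 4, 0)], [(0, 0, 8, 3)]]),
(⟨[(0, 0, 2, 2), (0, 0, 9, 2)], [(0, 0, 3, 1)], []⟩, [[(0, 0, 2, 3)], [(0, 0, 9, 7)], [(0, 1,
   14, 0)], [(0, 0, 5, 0)], [(0, 1, 4, 0), (0, 1, 0, 0), (0, 1, 7, 0), (1, 1, 14, 0), (0, 0,
   2, 7), (0, 0, 6, 0)], [(0, 0, 9, 3)]]),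
(⟨[(0, 0, 3, 2), (0, 0, 10, 2)], [(0, 0, 3, 2)], []⟩, [[(0, 0, 3, 3)], [(0, 0, 10, 7)], [(1,
   1, 14, 0)], [(1, 0, 5, 0), (1, 0, 1, 0), (1, 0, 4, 0), (1, 0, 14, 0), (0, 0, 7, 0), (0, 0,
   3, 7)], [(0, 0, 6, 0)], [(0, 0, 10, 3)]]),
(⟨[(0, 0, 0, 2), (0, 0, 11, 2)], [(0, 0, 3, 3)], []⟩, [[(0, 0, 0, 3)], [(0, 0, 11, 7)], [(1,
   0, 14, 0)], [(0, -1, 6, 0), (0, -1, 2, 0), (0, -1, 9, 0), (0, 0, 14, 0), (0, 0, 4, 0), (0,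
   0, 0, 7)], [(0, 0, 7, 0)], [(0, 0, 11, 3)]]),
(⟨[(0, 0, 0, 3), (0, 0, 12, 2)], [], []⟩, [[(0, 0, 3, 0), (0, 0, 7, 0), (0, 0, 0, 4)], [(0, 0,
   2, 0), (0, 0, 5, 0), (0, 0, 1, 0)], [(0, 0, 12, 7)], [(0, 0, 4, 0), (0, 0, 0, 8)], [(0, 0,
   12, 3)], [(0, 0, 13, 0)]]),
(⟨[(0, 0, 1, 3), (0, 0, 12, 3)], [], []⟩, [[(0, 0, 3, 0), (0, 0, 7, 0), (0, 0, 4, 0), (0, 0,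
   0, 0)], [(0, 0, 2, 0), (0, 0, 5, 0), (0, 0, 1, 8)], [(0, 0, 12, 4)], [(0, 0, 1, 4)], [(0,
   0, 12, 8)], [(0, 0, 13, 0)]]),
(⟨[(0, 0, 2, 3), (0, 0, 13, 3)], [], []⟩, [[(0, 0, 1, 0), (0, 0, 5, 0), (0, 0, 2, 4)], [(0, 0,
   0, 0), (0, 0, 7, 0), (0, 0, 3, 0)], [(0, 0, 13, 8)], [(0, 0, 2, 8), (0, 0, 6, 0)], [(0, 0,
   12, 0)], [(0, 0, 13, 4)]]),
(⟨[(0, 0, 3, 3), (0, 0, 13, 1)], [], []⟩, [[(0, 0, 6, 0), (0, 0, 1, 0), (0, 0, 5, 0), (0, 0,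
   2, 0)], [(0, 0, 3, 8), (0, 0, 0, 0), (0, 0, 7, 0)], [(0, 0, 13, 2)], [(0, 0, 3, 4)], [(0,
   0, 12, 0)], [(0, 0, 13, 6)]]),
(⟨[(0, 0, 12, 1), (0, 0, 13, 2)], [], []⟩, [[(0, 0, 12, 6), (0, 0, 5, 0), (0, 0, 1, 0)], [(0,
   0, 0, 0), (0, 0, 7, 0), (0, 0, 3, 0)], [(0, 0, 13, 3)], [(0, 0, 6, 0), (0, 0, 2, 0)], [(0,
   0, 12, 2)], [(0, 0, 13, 7)]]),
(⟨[(0, 0, 9, 1), (0, 1, 11, 1)], [], []⟩, [[(0, 0, 9, 6), (1, 1, 14, 0), (0, 0, 6, 0), (0, 0,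
   2, 0)], [(0, 1, 0, 0)], [(0, 1, 11, 2)], [(0, 1, 4, 0), (0, 1, 14, 0), (0, 0, 9, 2)], [(0,
   1, 7, 0)], [(0, 1, 11, 6)]]),
(⟨[(0, 0, 10, 1), (1, 0, 8, 1)], [], []⟩, [[(0, 0, 10, 6), (1, 0, 14, 0), (0, 0, 7, 0), (0, 0,
   3, 0)], [(1, 0, 1, 0)], [(1, 0, 8, 2)], [(1, 0, 5, 0), (1, 1, 14, 0), (0, 0, 10, 2)], [(1,
   0, 4, 0)], [(1, 0, 8, 6)]])]

theorem certs_ok : (certs.all fun q => chk33 q.1 q.2) = true := by decide +kernel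

end Pool.Agent.MP_f692a6_lc
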