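import Pool.Agent.MP_f692a6_lc.Defs

/-!
# The codes of instances are unique
-/

set_option autoImplicit false

namespace Pool.Agent.MP_f692a6_lc

/-- no code is a proper initial segment of another one -/
def PF {α : Type} (c : α → List Bool) : Prop :=
  ∀ a b (r s : List Bool), c a ++ r = c b ++ s → a = b ∧ r = s

theorem PF_nat : PF codeNat
  | 0, 0, r, s, h => by simpa [codeNat] using h
  | 0, n + 1, r, s, h => by simp [codeNat] at h
  | n + 1, 0, r, s, h => by simp [codeNat] at h
  | m + 1, n + 1, r, s, h => by
    have h' : codeNat m ++ r = codeNat n ++ s := by simpa [codeNat] using h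
    obtain ⟨h1, h2⟩ := PF_nat m n r s h'
    exact ⟨by rw [h1], h2⟩

theorem PF_list {α : Type} {c : α → List Bool} (hc : PF c) : PF (codeList c)
  | [], [], r, s, h => by simpa [codeList] using h
  | [], b :: l, r, s, h => by simp [codeList] at h
  | a :: l, [], r, s, h => by simp [codeList] at h
  | a :: l, b :: m, r, s, h => by
    have h' : c a ++ (codeList c l ++ r) = c b ++ (codeList c m ++ s) := by
      simpa [codeList] using h
    obtain ⟨h1, h2⟩ := hc _ _ _ _ h'
    obtain ⟨h3, h4⟩ := PF_list hc l m r s h2
    exact ⟨by rw [h1, h3], h4⟩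

theorem PF_pair {α β : Type} {c : α → List Bool} {d : β → List Bool} (hc : PF c) (hd : PF d) :
    PF (fun p : α × β => codePair (c p.1) (d p.2)) := by
  intro a b r s h
  have h' : c a.1 ++ (d a.2 ++ r) = c b.1 ++ (d b.2 ++ s) := by
    simpa [codePair] using h
  obtain ⟨h1, h2⟩ := hc _ _ _ _ h'
  obtain ⟨h3, h4⟩ := hd _ _ _ _ h2
  exact ⟨Prod.ext h1 h3, h4⟩

theorem code_injective : Function.Injective CGraph.code := by
  intro I J h
  have h1 := PF_pair (PF_list (PF_list PF_nat)) (PF_list (PF_pair PF_nat PF_nat))
    (I.clusters, I.links) (J.clusters, J.links) [] [] (by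
      rw [List.append_nil, List.append_nil]
      exact h)
  have h2 := h1.1
  simp only [Prod.mk.injEq] at h2
  cases I
  cases J
  simp only at h2
  rw [h2.1, h2.2]

end Pool.Agent.MP_f692a6_lc
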