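import Mathlib

/-!
# Clique planarity with clusters of bounded size: definitions
-/

set_option autoImplicit false

namespace Pool.Agent.MP_f692a6_lc

/-! ## Minors and planar graphs -/

/-- `H` is a minor of `G`: there are pairwise disjoint sets `B w` of vertices of `G`, one for each
vertex `w` of `H`, each of which induces a connected subgraph of `G`, such that there is an edge
of `G` between `B w` and `B w'` whenever `w` and `w'` are adjacent in `H`. -/
def HasMinor {W V : Type} (H : SimpleGraph W) (G : SimpleGraph V) : Prop :=
  ∃ B : W → Set V, (∀ w, (G.induce (B w)).Connected) ∧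
    (∀ w w', w ≠ w' → Disjoint (B w) (B w')) ∧
    ∀ w w', H.Adj w w' → ∃ x ∈ B w, ∃ y ∈ B w', G.Adj x y

/-- Planar graphs, by the theorem of Wagner: neither the complete graph on five vertices nor the
complete bipartite graph with three vertices on each side is a minor. -/
def Planar {V : Type} (G : SimpleGraph V) : Prop :=
  ¬ HasMinor (⊤ : SimpleGraph (Fin 5)) G ∧
    ¬ HasMinor (completeBipartiteGraph (Fin 3) (Fin 3)) G

/-! ## Flat c-graphs -/

/-- A flat c-graph whose clusters induce cliques. Vertices are natural numbers; `clusters` lists
the clusters, each given as a list of vertices, and `links` lists the inter-cluster edges. -/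
structure CGraph where
  /-- the clusters -/
  clusters : List (List ℕ)
  /-- the inter-cluster edges -/
  links : List (ℕ × ℕ)

namespace CGraph

/-- The clusters are disjoint and have no repeated entries, and the ends of a link are vertices in
different clusters. -/
def Proper (I : CGraph) : Prop :=
  I.clusters.flatten.Nodup ∧
    ∀ e ∈ I.links, e.1 ∈ I.clusters.flatten ∧ e.2 ∈ I.clusters.flatten ∧
      ∀ S ∈ I.clusters, ¬ (e.1 ∈ S ∧ e.2 ∈ S)

/-- The graph `G` of the c-graph: different vertices are adjacent if they lie in one cluster or
form a link. -/
def graph (I : CGraph) : SimpleGraph ℕ :=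
  SimpleGraph.fromRel fun u v => (u, v) ∈ I.links ∨ ∃ S ∈ I.clusters, u ∈ S ∧ v ∈ S

/-- `u` and `v` are consecutive entries of the list `l`, in one order or the other. -/
def Consecutive (l : List ℕ) (u v : ℕ) : Prop := [u, v] <:+: l ∨ [v, u] <:+: l

/-- The path form of clique planarity: it is possible to delete intra-cluster edges of `G` so that
each cluster induces a path through all of its vertices and the resulting graph `P` is planar. -/
def PathPlanar (I : CGraph) : Prop :=
  ∃ P : SimpleGraph ℕ, P ≤ I.graph ∧
    (∀ u v, I.graph.Adj u v → (∀ S ∈ I.clusters, ¬ (u ∈ S ∧ v ∈ S)) → P.Adj u v) ∧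
    (∀ S ∈ I.clusters, ∃ l : List ℕ, l.Perm S ∧
      ∀ u ∈ S, ∀ v ∈ S, (P.Adj u v ↔ Consecutive l u v)) ∧
    Planar P

/-- The tree form: as the path form, but each cluster induces a connected graph without cycles.
(This is clustered planarity of the c-graph that is given by the inter-cluster edges and the
clusters.) -/
def TreePlanar (I : CGraph) : Prop :=
  ∃ P : SimpleGraph ℕ, P ≤ I.graph ∧
    (∀ u v, I.graph.Adj u v → (∀ S ∈ I.clusters, ¬ (u ∈ S ∧ v ∈ S)) → P.Adj u v) ∧
    (∀ S ∈ I.clusters, (P.induce {v | v ∈ S}).Preconnected ∧
      (P.induce {v | v ∈ S}).IsAcyclic) ∧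
    Planar P

end CGraph

/-! ## Codes of instances as bit strings -/

/-- The code of a natural number, in unary. -/
def codeNat : ℕ → List Bool
  | 0 => [false]
  | n + 1 => true :: false :: codeNat n

/-- The code of a pair whose components have the codes `x` and `y`. -/
def codePair (x y : List Bool) : List Bool := true :: (x ++ y)

/-- The code of a list, given the codes of its entries. -/
def codeList {α : Type} (c : α → List Bool) : List α → List Bool
  | [] => [false]
  | a :: l => true :: (c a ++ codeList c l)

/-- The code of an instance. All numbers are written in unary. -/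
def CGraph.code (I : CGraph) : List Bool :=
  codePair (codeList (codeList codeNat) I.clusters)
    (codeList (fun e => codePair (codeNat e.1) (codeNat e.2)) I.links)

/-! ## NP-hardness -/

/-- The code of an input `x` together with a certificate `y`: the bits of `x`, a separator, the
bits of `y`. -/
def pairCode (p : List Bool × List Bool) : List (Option Bool) :=
  p.1.map some ++ none :: p.2.map some

/-- The class NP: languages over the alphabet of bits that have a verifier which runs in
polynomial time on a Turing machine (Mathlib's `TM2`), with certificates of polynomially bounded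
length. -/
def InNP (L : Set (List Bool)) : Prop :=
  ∃ (q : Polynomial ℕ) (V : List Bool × List Bool → Bool),
    Nonempty (Turing.TM2ComputableInPolyTime pairCode Computability.encodeBool V) ∧
    ∀ x, x ∈ L ↔ ∃ y : List Bool, y.length ≤ q.eval x.length ∧ V (x, y) = true

/-- NP-hardness: every language in NP is polynomial-time many-one reducible to `K`. -/
def NPHard (K : Set (List Bool)) : Prop :=
  ∀ L : Set (List Bool), InNP L → ∃ g : List Bool → List Bool,
    Nonempty (Turing.TM2ComputableInPolyTime (fun x : List Bool => x) (fun x : List Bool => x) g) ∧
    ∀ x, x ∈ L ↔ g x ∈ K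

/-- The language of clique planarity, in the path form, for clusters with at most `h` vertices. -/
def CliquePlanarity (h : ℕ) : Set (List Bool) :=
  {w | ∃ I : CGraph, I.code = w ∧ I.Proper ∧ (∀ S ∈ I.clusters, S.length ≤ h) ∧ I.PathPlanar}

end Pool.Agent.MP_f692a6_lc
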