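import Pool.Agent.MP_f692a6_lc.Minor2
import Pool.Agent.MP_f692a6_lc.States

/-!
# The cell equations for a planar graph
-/

set_option autoImplicit false

namespace Pool.Agent.MP_f692a6_lc

variable {N : Net} {val : V1 → Prop} {G : SimpleGraph V2}

/-- the neighbourhood of the cell is in the range -/
def Inn (val : V1 → Prop) (r c : ℤ) : Prop :=
  ∀ a b : ℤ, ∀ k : ℕ, -1 ≤ a → a ≤ 2 → -1 ≤ b → b ≤ 2 → k ≤ 14 → val (r + a, c + b, k)

theorem rule1 (hR : Real N val G) {r c : ℤ} (hI : Inn val r c) {k s : ℕ}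
    (hm : (⟨[(0, 0, k, s)], [], []⟩ : Asm) ∈ certs.map Prod.fst) : ¬ Split G (r, c, k) s := by
  intro h
  refine cert_false hR (r := r) (c := c) (A := ⟨[(0, 0, k, s)], [], []⟩) ⟨hI, ?_, ?_, ?_⟩ hm
  · simpa using h
  · simp
  · simp

theorem rule2 (hR : Real N val G) {r c : ℤ} (hI : Inn val r c) {k s k' s' : ℕ}
    (hm : (⟨[(0, 0, k, s), (0, 0, k', s')], [], []⟩ : Asm) ∈ certs.map Prod.fst) :
    Split G (r, c, k) s → Split G (r, c, k') s' → False := by
  intro h h'
  refine cert_false hR (r := r) (c := c) (A := ⟨[(0, 0, k, s), (0, 0, k', s')], [], []⟩)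
    ⟨hI, ?_, ?_, ?_⟩ hm
  · simpa using ⟨h, h'⟩
  · simp
  · simp

theorem rule3 (hR : Real N val G) {r c : ℤ} (hI : Inn val r c) {k s k' s' i : ℕ}
    (hm : (⟨[(0, 0, k, s), (0, 0, k', s')], [(0, 0, 2, i)], []⟩ : Asm) ∈ certs.map Prod.fst) :
    N.tx r c i = false → Split G (r, c, k) s → Split G (r, c, k') s' → False := by
  intro hx h h'
  refine cert_false hR (r := r) (c := c) (A := ⟨[(0, 0, k, s), (0, 0, k', s')], [(0, 0, 2, i)], []⟩)
    ⟨hI, ?_, ?_, ?_⟩ hm
  · simpa using ⟨h, h'⟩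
  · simpa using hx
  · simp

theorem rule4 (hR : Real N val G) {r c : ℤ} (hI : Inn val r c) {k s k' s' i : ℕ}
    (hm : (⟨[(0, 0, k, s), (0, 0, k', s')], [(0, 0, 3, i)], []⟩ : Asm) ∈ certs.map Prod.fst) :
    N.ty r c i = false → Split G (r, c, k) s → Split G (r, c, k') s' → False := by
  intro hx h h'
  refine cert_false hR (r := r) (c := c) (A := ⟨[(0, 0, k, s), (0, 0, k', s')], [(0, 0, 3, i)], []⟩)
    ⟨hI, ?_, ?_, ?_⟩ hm
  · simpa using ⟨h, h'⟩
  · simpa using hx
  · simp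

theorem rule5 (hR : Real N val G) {r c : ℤ} (hI : Inn val r c) {k s i : ℕ}
    (hm : (⟨[(0, 0, k, s)], [], [(0, 0, i)]⟩ : Asm) ∈ certs.map Prod.fst) :
    N.fo r c i = true → ¬ Split G (r, c, k) s := by
  intro hx h
  refine cert_false hR (r := r) (c := c) (A := ⟨[(0, 0, k, s)], [], [(0, 0, i)]⟩)
    ⟨hI, ?_, ?_, ?_⟩ hm
  · simpa using h
  · simp
  · simpa using hx

theorem ruleH (hR : Real N val G) {r c : ℤ} (hI : Inn val r c) :
    Split G (r, c, 9) 1 → Split G (r, c + 1, 11) 1 → False := by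
  intro h h'
  refine cert_false hR (r := r) (c := c) (A := ⟨[(0, 0, 9, 1), (0, 1, 11, 1)], [], []⟩)
    ⟨hI, ?_, ?_, ?_⟩ (by decide +kernel)
  · simpa using ⟨h, h'⟩
  · simp
  · simp

theorem ruleV (hR : Real N val G) {r c : ℤ} (hI : Inn val r c) :
    Split G (r, c, 10) 1 → Split G (r + 1, c, 8) 1 → False := by
  intro h h'
  refine cert_false hR (r := r) (c := c) (A := ⟨[(0, 0, 10, 1), (1, 0, 8, 1)], [], []⟩)
    ⟨hI, ?_, ?_, ?_⟩ (by decide +kernel)
  · simpa using ⟨h, h'⟩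
  · simp
  · simp

theorem chkR1 : ∀ i < 4, (⟨[(0, 0, i, 0)], [], []⟩ : Asm) ∈ certs.map Prod.fst ∧
    (⟨[(0, 0, 8 + i, 0)], [], []⟩ : Asm) ∈ certs.map Prod.fst ∧
    (⟨[(0, 0, i, 1)], [], []⟩ : Asm) ∈ certs.map Prod.fst ∧
    (⟨[(0, 0, 8 + i, 3)], [], []⟩ : Asm) ∈ certs.map Prod.fst ∧
    (⟨[(0, 0, 4 + i, 3)], [], []⟩ : Asm) ∈ certs.map Prod.fst ∧
    (⟨[(0, 0, 8 + i, 1)], [], [(0, 0, i)]⟩ : Asm) ∈ certs.map Prod.fst ∧
    (⟨[(0, 0, i, 2), (0, 0, 4 + i, 2)], [], []⟩ : Asm) ∈ certs.map Prod.fst ∧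
    (⟨[(0, 0, i, 2), (0, 0, 4 + i, 0)], [], []⟩ : Asm) ∈ certs.map Prod.fst ∧
    (⟨[(0, 0, 4 + i, 1), (0, 0, 8 + i, 2)], [(0, 0, 2, i)], []⟩ : Asm) ∈ certs.map Prod.fst ∧
    (⟨[(0, 0, i, 2), (0, 0, 8 + prv i, 2)], [(0, 0, 3, prv i)], []⟩ : Asm) ∈
      certs.map Prod.fst := by
  decide +kernel

theorem V_split (hR : Real N val G) {r c : ℤ} (hI : Inn val r c) {i : ℕ} (hi : i < 4) :
    Split G (r, c, i) 2 ∨ Split G (r, c, i) 3 := by
  obtain ⟨s, hs, h⟩ := exists_split hR (z := (r, c, i))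
    (by simpa using hI 0 0 i (by omega) (by omega) (by omega) (by omega) (by omega))
    (by show i < 14; omega)
  obtain ⟨h1, h2, h3, h4, h5, h6, h7, h8, h9, h10⟩ := chkR1 i hi
  have hs' : s = 0 ∨ s = 1 ∨ s = 2 ∨ s = 3 := by omega
  rcases hs' with rfl | rfl | rfl | rfl
  · exact absurd h (rule1 hR hI h1)
  · exact absurd h (rule1 hR hI h3)
  · exact Or.inl h
  · exact Or.inr h

theorem T_split (hR : Real N val G) {r c : ℤ} (hI : Inn val r c) {i : ℕ} (hi : i < 4) :
    Split G (r, c, 8 + i) 1 ∨ Split G (r, c, 8 + i) 2 := by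
  obtain ⟨s, hs, h⟩ := exists_split hR (z := (r, c, 8 + i))
    (by simpa using hI 0 0 (8 + i) (by omega) (by omega) (by omega) (by omega) (by omega))
    (by show 8 + i < 14; omega)
  obtain ⟨h1, h2, h3, h4, h5, h6, h7, h8, h9, h10⟩ := chkR1 i hi
  have hs' : s = 0 ∨ s = 1 ∨ s = 2 ∨ s = 3 := by omega
  rcases hs' with rfl | rfl | rfl | rfl
  · exact absurd h (rule1 hR hI h2)
  · exact Or.inl h
  · exact Or.inr h
  · exact absurd h (rule1 hR hI h4)

theorem J_split (hR : Real N val G) {r c : ℤ} (hI : Inn val r c) {i : ℕ} (hi : i < 4) :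
    Split G (r, c, 4 + i) 0 ∨ Split G (r, c, 4 + i) 1 ∨ Split G (r, c, 4 + i) 2 := by
  obtain ⟨s, hs, h⟩ := exists_split hR (z := (r, c, 4 + i))
    (by simpa using hI 0 0 (4 + i) (by omega) (by omega) (by omega) (by omega) (by omega))
    (by show 4 + i < 14; omega)
  obtain ⟨h1, h2, h3, h4, h5, h6, h7, h8, h9, h10⟩ := chkR1 i hi
  have hs' : s = 0 ∨ s = 1 ∨ s = 2 ∨ s = 3 := by omega
  rcases hs' with rfl | rfl | rfl | rfl
  · exact Or.inl h
  · exact Or.inr (Or.inl h)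
  · exact Or.inr (Or.inr h)
  · exact absurd h (rule1 hR hI h5)

/-- The cell equation. -/
theorem cell_eq (hR : Real N val G) {r c : ℤ} (hI : Inn val r c) :
    ∃ i < 4, (N.tx r c i = true ∨ Split G (r, c, 8 + i) 1) ∧
      (N.ty r c (prv i) = true ∨ Split G (r, c, 8 + prv i) 1) := by
  by_cases hex : ∃ i < 4, Split G (r, c, i) 2
  · obtain ⟨i, hi, hV⟩ := hex
    obtain ⟨h1, h2, h3, h4, h5, h6, h7, h8, h9, h10⟩ := chkR1 i hi
    have hJ : Split G (r, c, 4 + i) 1 := by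
      rcases J_split hR hI hi with h | h | h
      · exact absurd h (rule2 hR hI h8 hV)
      · exact h
      · exact absurd h (rule2 hR hI h7 hV)
    refine ⟨i, hi, ?_, ?_⟩
    · rcases hx : N.tx r c i with _ | _
      · right
        rcases T_split hR hI hi with h | h
        · exact h
        · exact absurd h (rule3 hR hI h9 hx hJ)
      · exact Or.inl rfl
    · rcases hx : N.ty r c (prv i) with _ | _
      · right
        have hp : prv i < 4 := Nat.mod_lt _ (by omega)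
        rcases T_split hR hI hp with h | h
        · exact h
        · exact absurd h (rule4 hR hI h10 hx hV)
      · exact Or.inl rfl
  · exfalso
    have hV : ∀ i < 4, Split G (r, c, i) 3 := by
      intro i hi
      rcases V_split hR hI hi with h | h
      · exact absurd ⟨i, hi, h⟩ hex
      · exact h
    obtain ⟨s, hs, h⟩ := exists_split hR (z := (r, c, 12))
      (by simpa using hI 0 0 12 (by omega) (by omega) (by omega) (by omega) (by omega))
      (by show 12 < 14; omega)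
    have hN1 : Split G (r, c, 12) 1 := by
      have hs' : s = 0 ∨ s = 1 ∨ s = 2 ∨ s = 3 := by omega
      rcases hs' with rfl | rfl | rfl | rfl
      · exact absurd h (rule1 hR hI (by decide +kernel))
      · exact h
      · exact absurd h (rule2 hR hI (by decide +kernel) (hV 0 (by omega)))
      · exact absurd h (rule2 hR hI (by decide +kernel) (hV 1 (by omega)))
    obtain ⟨s, hs, h⟩ := exists_split hR (z := (r, c, 13))
      (by simpa using hI 0 0 13 (by omega) (by omega) (by omega) (by omega) (by omega))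
      (by show 13 < 14; omega)
    have hN2 : Split G (r, c, 13) 2 := by
      have hs' : s = 0 ∨ s = 1 ∨ s = 2 ∨ s = 3 := by omega
      rcases hs' with rfl | rfl | rfl | rfl
      · exact absurd h (rule1 hR hI (by decide +kernel))
      · exact absurd h (rule2 hR hI (by decide +kernel) (hV 3 (by omega)))
      · exact h
      · exact absurd h (rule2 hR hI (by decide +kernel) (hV 2 (by omega)))
    exact rule2 hR hI (by decide +kernel) hN1 hN2

theorem forced_eq (hR : Real N val G) {r c : ℤ} (hI : Inn val r c) {i : ℕ} (hi : i < 4)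
    (hfo : N.fo r c i = true) : ¬ Split G (r, c, 8 + i) 1 :=
  rule5 hR hI (chkR1 i hi).2.2.2.2.2.1 hfo

end Pool.Agent.MP_f692a6_lc
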