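import Pool.Agent.MP_f692a6_lc.Proper
import Pool.Agent.MP_f692a6_lc.Rules

/-!
# From a planar graph with paths in the clusters to the cell equations
-/

set_option autoImplicit false

namespace Pool.Agent.MP_f692a6_lc

theorem HasMinor.map {W V V' : Type} {H : SimpleGraph W} {G : SimpleGraph V} {G' : SimpleGraph V'}
    (f : V → V') (hf : Function.Injective f) (h : ∀ u v, G.Adj u v → G'.Adj (f u) (f v))
    (hm : HasMinor H G) : HasMinor H G' := by
  obtain ⟨B, h1, h2, h3⟩ := hm
  refine ⟨fun w => f '' B w, ?_, ?_, ?_⟩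
  · intro w
    let g : G.induce (B w) →g G'.induce (f '' B w) :=
      ⟨fun x => ⟨f x.1, x.1, x.2, rfl⟩, fun {a b} hab => h _ _ hab⟩
    refine (h1 w).map g ?_
    rintro ⟨y, x, hx, rfl⟩
    exact ⟨⟨x, hx⟩, rfl⟩
  · intro w w' hw
    rw [Set.disjoint_image_iff hf]
    exact h2 w w' hw
  · intro w w' hw
    obtain ⟨x, hx, y, hy, hxy⟩ := h3 w w' hw
    exact ⟨f x, ⟨x, hx, rfl⟩, f y, ⟨y, hy, rfl⟩, h _ _ hxy⟩

/-- the letter is a vertex of the instance -/
def okv (φ : Fm) (u : V2) : Prop :=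
  0 ≤ u.1 ∧ u.1 < RR φ ∧ 0 ≤ u.2.1 ∧ u.2.1 < CC φ ∧ 4 * u.2.2.1 + u.2.2.2 < 57 ∧ u.2.2.2 < 4

open Classical in
/-- the number of a letter -/
noncomputable def enc (φ : Fm) (u : V2) : ℕ :=
  if okv φ u then vert (CC φ) u.1.toNat u.2.1.toNat u.2.2.1 u.2.2.2 else
    RR φ * CC φ * 57 + Encodable.encode u

theorem enc_ok {φ : Fm} {u : V2} (h : okv φ u) :
    enc φ u = vert (CC φ) u.1.toNat u.2.1.toNat u.2.2.1 u.2.2.2 := by
  unfold enc
  rw [if_pos h]

theorem enc_not {φ : Fm} {u : V2} (h : ¬ okv φ u) :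
    enc φ u = RR φ * CC φ * 57 + Encodable.encode u := by
  unfold enc
  rw [if_neg h]

theorem enc_lt {φ : Fm} {u : V2} (h : okv φ u) : enc φ u < RR φ * CC φ * 57 := by
  rw [enc_ok h]
  obtain ⟨h1, h2, h3, h4, h5, h6⟩ := h
  exact vert_lt (by omega) (by omega) h5

theorem enc_inj (φ : Fm) : Function.Injective (enc φ) := by
  intro u v h
  by_cases hu : okv φ u <;> by_cases hv : okv φ v
  · rw [enc_ok hu, enc_ok hv] at h
    obtain ⟨h1, h2, h3, h4, h5, h6⟩ := hu
    obtain ⟨g1, g2, g3, g4, g5, g6⟩ := hv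
    obtain ⟨a1, a2, a3, a4⟩ := vert_inj (by omega) (by omega) h5 g5 h6 g6 h
    ext
    · omega
    · omega
    · exact a3
    · exact a4
  · have := enc_lt hu
    rw [enc_not hv] at h
    omega
  · have := enc_lt hv
    rw [enc_not hu] at h
    omega
  · rw [enc_not hu, enc_not hv] at h
    exact Encodable.encode_injective (by omega)

/-- the range of the clusters of the instance -/
def valN (φ : Fm) (z : V1) : Prop :=
  0 ≤ z.1 ∧ z.1 < RR φ ∧ 0 ≤ z.2.1 ∧ z.2.1 < CC φ ∧ z.2.2 ≤ 14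

theorem real_of (φ : Fm) (h : (instOf φ).PathPlanar) : ∃ G : SimpleGraph V2,
    Real (netOf φ) (valN φ) G := by
  obtain ⟨P, hP1, hP2, hP3, hP4⟩ := h
  refine ⟨P.comap (enc φ), ?_, ?_, ?_⟩
  · intro hm
    exact hP4.2 (hm.map (enc φ) (enc_inj φ) fun u v h => h)
  · -- links
    have key : ∀ z : V1, ∀ e ∈ fwd, z.2.2 = (toEnt e).k → valN φ z →
        valN φ (step z (toEnt e).base) → ∀ p ∈ (netOf φ).lnk z.1 z.2.1 (toEnt e),
        P.Adj (enc φ (lt z p.1)) (enc φ (lt (step z (toEnt e).base) p.2)) := by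
      intro z e he hk hz hz' p hp
      obtain ⟨h1, h2, h3, h4, h5⟩ := hz
      obtain ⟨g1, g2, g3, g4, g5⟩ := hz'
      obtain ⟨f1, f2, -⟩ := fwd_facts he
      have hk' : z.2.2 = e.1 := hk
      have s1 : (step z (toEnt e).base).1 = z.1 + (e.2.1 : ℤ) := rfl
      have s2 : (step z (toEnt e).base).2.1 = z.2.1 + (e.2.2.1 : ℤ) := rfl
      have s3 : (step z (toEnt e).base).2.2 = e.2.2.2.1 := rfl
      have hz1 : ((z.1.toNat : ℕ) : ℤ) = z.1 := Int.toNat_of_nonneg h1
      have hz2 : ((z.2.1.toNat : ℕ) : ℤ) = z.2.1 := Int.toNat_of_nonneg h3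
      have hp' : p ∈ lnkN φ z.1.toNat z.2.1.toNat e := by
        rw [lnkN_eq φ _ _ f2, hz1, hz2]
        exact hp
      obtain ⟨q1, q2, q3, q4⟩ := lnkN_lt he hp'
      rw [s1] at g1 g2
      rw [s2] at g3 g4
      have hmem : (vert (CC φ) z.1.toNat z.2.1.toNat e.1 p.1,
          vert (CC φ) (z.1.toNat + e.2.1) (z.2.1.toNat + e.2.2.1) e.2.2.2.1 p.2) ∈ linkN φ := by
        rw [mem_linkN]
        exact ⟨z.1.toNat, by omega, z.2.1.toNat, by omega, e, he, by omega, by omega, p, hp', rfl⟩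
      have e1 : enc φ (lt z p.1) = vert (CC φ) z.1.toNat z.2.1.toNat e.1 p.1 := by
        rw [enc_ok]
        · unfold lt
          simp only [hk']
        · unfold okv lt
          simp only [hk']
          exact ⟨h1, h2, h3, h4, q3, q1⟩
      have e2 : enc φ (lt (step z (toEnt e).base) p.2) =
          vert (CC φ) (z.1.toNat + e.2.1) (z.2.1.toNat + e.2.2.1) e.2.2.2.1 p.2 := by
        rw [enc_ok]
        · unfold lt
          simp only [s1, s2, s3]
          have t1 : (z.1 + (e.2.1 : ℤ)).toNat = z.1.toNat + e.2.1 := by omega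
          have t2 : (z.2.1 + (e.2.2.1 : ℤ)).toNat = z.2.1.toNat + e.2.2.1 := by omega
          rw [t1, t2]
        · unfold okv lt
          simp only [s1, s2, s3]
          exact ⟨g1, g2, g3, g4, q4, q2⟩
      rw [e1, e2]
      have hnc : ∀ S ∈ (instOf φ).clusters, ¬ (vert (CC φ) z.1.toNat z.2.1.toNat e.1 p.1 ∈ S ∧
          vert (CC φ) (z.1.toNat + e.2.1) (z.2.1.toNat + e.2.2.1) e.2.2.2.1 p.2 ∈ S) :=
        fun S hS => link_clusters hmem hS
      refine hP2 _ _ ?_ hnc
      unfold CGraph.graph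
      rw [SimpleGraph.fromRel_adj]
      refine ⟨?_, Or.inl (Or.inl hmem)⟩
      intro heq
      have hin : vert (CC φ) z.1.toNat z.2.1.toNat e.1 p.1 ∈ (clusN φ).flatten := by
        rw [clusN_flatten, List.mem_range]
        exact vert_lt (by omega) (by omega) q3
      obtain ⟨S, hS, hx⟩ := List.mem_flatten.1 hin
      exact hnc S hS ⟨hx, by rw [← heq]; exact hx⟩
    intro z e he hk hz hz' p hp
    have h := fwd_all
    rw [List.all_eq_true] at h
    have h := h e he
    simp only [Bool.or_eq_true, decide_eq_true_eq] at h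
    rcases h with h | h
    · obtain ⟨e', he', rfl⟩ := List.mem_map.1 h
      exact key z e' he' hk hz hz' p hp
    · obtain ⟨e', he', hee⟩ := List.mem_map.1 h
      have hp' := lnk_symm (netOf φ) (z := z) he (l := p.1) (m := p.2) hp
      rw [← hee] at hp'
      have hst : step (step z e.base) (toEnt e').base = z := by
        rw [hee, step_rev _ _ hk]
      have := key (step z e.base) e' he' (by rw [hee]; rfl) hz' (by rw [hst]; exact hz)
        (p.2, p.1) hp'
      rw [hst] at this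
      exact this.symm
  · -- paths
    intro z hz hk
    obtain ⟨h1, h2, h3, h4, h5⟩ := hz
    have hS : [vert (CC φ) z.1.toNat z.2.1.toNat z.2.2 0, vert (CC φ) z.1.toNat z.2.1.toNat z.2.2 1,
        vert (CC φ) z.1.toNat z.2.1.toNat z.2.2 2, vert (CC φ) z.1.toNat z.2.1.toNat z.2.2 3] ∈
        (instOf φ).clusters := by
      show _ ∈ clusN φ
      rw [mem_clusN]
      exact ⟨z.1.toNat, by omega, z.2.1.toNat, by omega, Or.inl ⟨z.2.2, hk, rfl⟩⟩
    obtain ⟨l, hl, hadj⟩ := hP3 _ hS
    have hlet : ∀ x ∈ l, ∃ j < 4, x = vert (CC φ) z.1.toNat z.2.1.toNat z.2.2 j := by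
      intro x hx
      exact mem_cluster.1 (hl.mem_iff.1 hx)
    have hdec : ∀ j < 4, (vert (CC φ) z.1.toNat z.2.1.toNat z.2.2 j) % 57 % 4 = j := by
      intro j hj
      unfold vert
      rw [Nat.mul_add_mod_self_right, Nat.mod_eq_of_lt (show 4 * z.2.2 + j < 57 by omega)]
      omega
    refine ⟨l.map fun x => x % 57 % 4, ?_, ?_⟩
    · have := hl.map fun x => x % 57 % 4
      simp only [List.map_cons, List.map_nil, hdec 0 (by omega), hdec 1 (by omega),
        hdec 2 (by omega), hdec 3 (by omega)] at this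
      exact this
    · intro a b hab
      obtain ⟨s, t, hst⟩ := hab
      have hlm : l = (l.map fun x => x % 57 % 4).map fun j =>
          vert (CC φ) z.1.toNat z.2.1.toNat z.2.2 j := by
        rw [List.map_map]
        conv_lhs => rw [← List.map_id l]
        apply List.map_congr_left
        intro x hx
        obtain ⟨j, hj, rfl⟩ := hlet x hx
        simp only [Function.comp_apply, hdec j hj, id]
      have hmem4 : ∀ j ∈ (l.map fun x => x % 57 % 4), j < 4 := by
        intro j hj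
        obtain ⟨x, hx, rfl⟩ := List.mem_map.1 hj
        omega
      have ha : a < 4 := hmem4 a (by rw [← hst]; simp)
      have hb : b < 4 := hmem4 b (by rw [← hst]; simp)
      have hE : ∀ j < 4, enc φ (lt z j) = vert (CC φ) z.1.toNat z.2.1.toNat z.2.2 j := by
        intro j hj
        rw [enc_ok]
        · rfl
        · exact ⟨h1, h2, h3, h4, by show 4 * z.2.2 + j < 57; omega, hj⟩
      show P.Adj (enc φ (lt z a)) (enc φ (lt z b))
      rw [hE a ha, hE b hb]
      refine (hadj _ (mem_cluster.2 ⟨a, ha, rfl⟩) _ (mem_cluster.2 ⟨b, hb, rfl⟩)).2 (Or.inl ?_)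
      rw [hlm, ← hst]
      simp only [List.map_append, List.map_cons, List.map_nil]
      exact ⟨_, _, rfl⟩

end Pool.Agent.MP_f692a6_lc
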