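import Pool.Agent.MP_f692a6_lc.Subst

/-!
# The certificate of the grid of cells and corners
-/

set_option autoImplicit false

namespace Pool.Agent.MP_f692a6_lc

/-- lexicographic positivity -/
def lexb (x y : ℤ) : Bool := decide (0 < x) || (decide (x = 0) && decide (0 < y))

/-- a point `(x, y)` lies beside an edge with direction of first coordinate `a > 0` -/
def gg (a x y : ℤ) : Bool :=
  (decide (x = 0) && decide (0 < y)) || (decide (x = 1) && decide (a = 2) && decide (0 < y))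

/-- a point `(x, y)` lies beside an edge with direction `(a, b)` -/
def gd (a b x y : ℤ) : Bool :=
  if 0 < a then gg a x y else if a < 0 then gg (-a) (x - a) (y - b) else false

/-- the tournament of the grid -/
def L0 (p q : ℤ × ℤ) : Bool := lexb (q.1 - p.1) (q.2 - p.2)

/-- the side function of the grid -/
def y0 (p q z : ℤ × ℤ) : Bool := gd (q.1 - p.1) (q.2 - p.2) (z.1 - p.1) (z.2 - p.2)

/-- the straight directions -/
def dirS : List (ℤ × ℤ) := [(0, 2), (0, -2), (2, 0), (-2, 0)]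

/-- the diagonal directions -/
def dirD : List (ℤ × ℤ) := [(1, 1), (1, -1), (-1, 1), (-1, -1)]

/-- adjacency in the grid -/
def Adj0 (p q : ℤ × ℤ) : Prop :=
  (p.1 % 2 = 1 ∧ p.2 % 2 = 1 ∧ (q.1 - p.1, q.2 - p.2) ∈ dirS) ∨
    ((p.1 - p.2) % 2 = 0 ∧ (q.1 - p.1, q.2 - p.2) ∈ dirD)

/-- the clamped coordinate -/
def cl (x : ℤ) : ℤ := if 6 < x then 6 + x % 2 else if x < -6 then -6 - x % 2 else x

theorem cl_neg (x : ℤ) : cl (-x) = - cl x := by
  unfold cl
  split_ifs <;> omega

theorem cl_pos {x d : ℤ} (h1 : -4 ≤ d) (h2 : d ≤ 4) : (0 < x + d) ↔ (0 < cl x + d) := by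
  unfold cl
  split_ifs <;> omega

theorem cl_zero {x d : ℤ} (h1 : -4 ≤ d) (h2 : d ≤ 4) : (x + d = 0) ↔ (cl x + d = 0) := by
  unfold cl
  split_ifs <;> omega

theorem cl_one {x d : ℤ} (h1 : -4 ≤ d) (h2 : d ≤ 4) : (x + d = 1) ↔ (cl x + d = 1) := by
  unfold cl
  split_ifs <;> omega

theorem lexb_cl {x y d e : ℤ} (h1 : -4 ≤ d) (h2 : d ≤ 4) (h3 : -4 ≤ e) (h4 : e ≤ 4) :
    lexb (x + d) (y + e) = lexb (cl x + d) (cl y + e) := by
  unfold lexb
  rw [decide_eq_decide.2 (cl_pos (x := x) h1 h2), decide_eq_decide.2 (cl_zero (x := x) h1 h2),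
    decide_eq_decide.2 (cl_pos (x := y) h3 h4)]

theorem gg_cl {a x y d e : ℤ} (h1 : -4 ≤ d) (h2 : d ≤ 4) (h3 : -4 ≤ e) (h4 : e ≤ 4) :
    gg a (x + d) (y + e) = gg a (cl x + d) (cl y + e) := by
  unfold gg
  rw [decide_eq_decide.2 (cl_one (x := x) h1 h2), decide_eq_decide.2 (cl_zero (x := x) h1 h2),
    decide_eq_decide.2 (cl_pos (x := y) h3 h4)]

theorem gd_cl {a b x y d e : ℤ} (h1 : -2 ≤ d) (h2 : d ≤ 2) (h3 : -2 ≤ e) (h4 : e ≤ 2)
    (h5 : -2 ≤ a) (h6 : a ≤ 2) (h7 : -2 ≤ b) (h8 : b ≤ 2) :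
    gd a b (x + d) (y + e) = gd a b (cl x + d) (cl y + e) := by
  unfold gd
  split_ifs
  · exact gg_cl (by omega) (by omega) (by omega) (by omega)
  · rw [show x + d - a = x + (d - a) by ring, show y + e - b = y + (e - b) by ring,
      show cl x + d - a = cl x + (d - a) by ring, show cl y + e - b = cl y + (e - b) by ring]
    exact gg_cl (by omega) (by omega) (by omega) (by omega)
  · rfl

/-- the expression that has to vanish -/
def FF (a b a' b' x y : ℤ) : Bool :=
  lexb (x + 0) (y + 0) ^^ lexb (x + a') (y + b') ^^ lexb (x + -a) (y + -b) ^^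
    lexb (x + (a' - a)) (y + (b' - b)) ^^ gd a b (x + 0) (y + 0) ^^ gd a b (x + a') (y + b') ^^
    gd a' b' (-x + 0) (-y + 0) ^^ gd a' b' (-x + a) (-y + b)

theorem FF_cl {a b a' b' x y : ℤ} (h5 : -2 ≤ a) (h6 : a ≤ 2) (h7 : -2 ≤ b) (h8 : b ≤ 2)
    (h5' : -2 ≤ a') (h6' : a' ≤ 2) (h7' : -2 ≤ b') (h8' : b' ≤ 2) :
    FF a b a' b' x y = FF a b a' b' (cl x) (cl y) := by
  unfold FF
  rw [lexb_cl (x := x) (y := y) (d := 0) (e := 0) (by omega) (by omega) (by omega) (by omega),
    lexb_cl (x := x) (y := y) (d := a') (e := b') (by omega) (by omega) (by omega) (by omega),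
    lexb_cl (x := x) (y := y) (d := -a) (e := -b) (by omega) (by omega) (by omega) (by omega),
    lexb_cl (x := x) (y := y) (d := a' - a) (e := b' - b) (by omega) (by omega) (by omega)
      (by omega),
    gd_cl (x := x) (y := y) (d := 0) (e := 0) (by omega) (by omega) (by omega) (by omega) h5 h6
      h7 h8,
    gd_cl (x := x) (y := y) (d := a') (e := b') h5' h6' h7' h8' h5 h6 h7 h8,
    gd_cl (x := -x) (y := -y) (d := 0) (e := 0) (by omega) (by omega) (by omega) (by omega) h5'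
      h6' h7' h8',
    gd_cl (x := -x) (y := -y) (d := a) (e := b) h5 h6 h7 h8 h5' h6' h7' h8',
    cl_neg, cl_neg]

/-- the values of clamped coordinates -/
def clVals : List ℤ := [-7, -6, -5, -4, -3, -2, -1, 0, 1, 2, 3, 4, 5, 6, 7]

theorem cl_mem (x : ℤ) : cl x ∈ clVals := by
  have h1 : -7 ≤ cl x := by unfold cl; split_ifs <;> omega
  have h2 : cl x ≤ 7 := by unfold cl; split_ifs <;> omega
  generalize cl x = t at h1 h2
  interval_cases t <;> decide

/-- the condition on the difference of two base points -/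
def okD (a b a' b' x y : ℤ) : Bool :=
  (if (a * b = 0) ∧ (a' * b' = 0) then decide (x % 2 = 0) && decide (y % 2 = 0)
    else decide ((x - y) % 2 = 0)) &&
  !(decide (x = 0) && decide (y = 0)) && !(decide (x + a' = 0) && decide (y + b' = 0)) &&
  !(decide (x - a = 0) && decide (y - b = 0)) &&
  !(decide (x + a' - a = 0) && decide (y + b' - b = 0))

/-- the finite check -/
def chk0 : Bool :=
  (dirS ++ dirD).all fun d => (dirS ++ dirD).all fun d' =>
    clVals.all fun x => clVals.all fun y =>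
      !(okD d.1 d.2 d'.1 d'.2 x y) || !(FF d.1 d.2 d'.1 d'.2 x y)

theorem chk0_true : chk0 = true := by decide +kernel

theorem FF_zero {a b a' b' x y : ℤ} (hd : (a, b) ∈ dirS ++ dirD) (hd' : (a', b') ∈ dirS ++ dirD)
    (h1 : if (a * b = 0) ∧ (a' * b' = 0) then x % 2 = 0 ∧ y % 2 = 0 else (x - y) % 2 = 0)
    (h2 : ¬ (x = 0 ∧ y = 0)) (h3 : ¬ (x + a' = 0 ∧ y + b' = 0)) (h4 : ¬ (x - a = 0 ∧ y - b = 0))
    (h5 : ¬ (x + a' - a = 0 ∧ y + b' - b = 0)) : FF a b a' b' x y = false := by
  have hb : ∀ {a b : ℤ}, (a, b) ∈ dirS ++ dirD → -2 ≤ a ∧ a ≤ 2 ∧ -2 ≤ b ∧ b ≤ 2 := by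
    intro a b h
    simp only [dirS, dirD, List.cons_append, List.nil_append, List.mem_cons, Prod.mk.injEq,
      List.not_mem_nil, or_false] at h
    omega
  obtain ⟨q1, q2, q3, q4⟩ := hb hd
  obtain ⟨q1', q2', q3', q4'⟩ := hb hd'
  rw [FF_cl q1 q2 q3 q4 q1' q2' q3' q4']
  have hc := chk0_true
  unfold chk0 at hc
  rw [List.all_eq_true] at hc
  have hc := hc _ hd
  rw [List.all_eq_true] at hc
  have hc := hc _ hd'
  rw [List.all_eq_true] at hc
  have hc := hc _ (cl_mem x)
  rw [List.all_eq_true] at hc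
  have hc := hc _ (cl_mem y)
  simp only [Bool.or_eq_true, Bool.not_eq_true'] at hc
  rcases hc with hc | hc
  · exfalso
    have hx : cl x % 2 = x % 2 := by unfold cl; split_ifs <;> omega
    have hy : cl y % 2 = y % 2 := by unfold cl; split_ifs <;> omega
    have hxy : (cl x - cl y) % 2 = (x - y) % 2 := by omega
    have e1 := cl_zero (x := x) (d := 0) (by omega) (by omega)
    have e2 := cl_zero (x := y) (d := 0) (by omega) (by omega)
    have e3 := cl_zero (x := x) (d := a') (by omega) (by omega)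
    have e4 := cl_zero (x := y) (d := b') (by omega) (by omega)
    have e5 := cl_zero (x := x) (d := -a) (by omega) (by omega)
    have e6 := cl_zero (x := y) (d := -b) (by omega) (by omega)
    have e7 := cl_zero (x := x) (d := a' - a) (by omega) (by omega)
    have e8 := cl_zero (x := y) (d := b' - b) (by omega) (by omega)
    rw [add_zero, add_zero] at e1 e2
    rw [← sub_eq_add_neg, ← sub_eq_add_neg] at e5 e6
    rw [← add_sub_assoc, ← add_sub_assoc] at e7 e8
    have this : okD a b a' b' (cl x) (cl y) = true := by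
      unfold okD
      rw [hx, hy, hxy]
      simp only [← e1, ← e2, ← e3, ← e4, ← e5, ← e6, ← e7, ← e8, Bool.and_eq_true,
        Bool.not_eq_true', Bool.and_eq_false_iff, decide_eq_false_iff_not]
      rw [not_and_or] at h2 h3 h4 h5
      refine ⟨⟨⟨⟨?_, h2⟩, h3⟩, h4⟩, h5⟩
      split_ifs at h1 ⊢
      · simp only [Bool.and_eq_true, decide_eq_true_eq]
        exact h1
      · simp only [decide_eq_true_eq]
        exact h1
    rw [this] at hc
    exact absurd hc (by decide)
  · exact hc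

/-- The certificate of the grid. -/
def C0 : Cert Adj0 where
  L := L0
  y := y0
  anti p q h := by
    have hne : ¬ (q.1 - p.1 = 0 ∧ q.2 - p.2 = 0) := by
      intro h'
      apply h
      ext <;> omega
    unfold L0 lexb
    rcases lt_trichotomy (q.1 - p.1) 0 with h1 | h1 | h1
    · have e1 : ¬ (0 < q.1 - p.1) := by omega
      have e2 : ¬ (q.1 - p.1 = 0) := by omega
      have e3 : 0 < p.1 - q.1 := by omega
      simp only [e1, e2, e3, decide_true, decide_false]
      cases decide (0 < q.2 - p.2) <;> cases decide (p.1 - q.1 = 0) <;>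
        cases decide (0 < p.2 - q.2) <;> rfl
    · rcases lt_trichotomy (q.2 - p.2) 0 with h2 | h2 | h2
      · have e1 : ¬ (0 < q.1 - p.1) := by omega
        have e3 : ¬ (0 < p.1 - q.1) := by omega
        have e4 : p.1 - q.1 = 0 := by omega
        have e5 : ¬ (0 < q.2 - p.2) := by omega
        have e6 : 0 < p.2 - q.2 := by omega
        simp only [e1, h1, e3, e4, e5, e6, decide_true, decide_false]
        decide
      · exact absurd ⟨h1, h2⟩ hne
      · have e1 : ¬ (0 < q.1 - p.1) := by omega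
        have e3 : ¬ (0 < p.1 - q.1) := by omega
        have e4 : p.1 - q.1 = 0 := by omega
        have e6 : ¬ (0 < p.2 - q.2) := by omega
        simp only [e1, h1, e3, e4, h2, e6, decide_true, decide_false]
        decide
    · have e1 : ¬ (0 < p.1 - q.1) := by omega
      have e2 : ¬ (p.1 - q.1 = 0) := by omega
      simp only [e1, e2, h1, decide_true, decide_false]
      cases decide (0 < p.2 - q.2) <;> cases decide (q.1 - p.1 = 0) <;>
        cases decide (0 < q.2 - p.2) <;> rfl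
  symm p q z := by
    unfold y0 gd
    rcases lt_trichotomy (q.1 - p.1) 0 with h1 | h1 | h1
    · rw [if_neg (by omega), if_pos h1, if_pos (by omega)]
      rw [show -(q.1 - p.1) = p.1 - q.1 by ring, show z.1 - p.1 - (q.1 - p.1) = z.1 - q.1 by ring,
        show z.2 - p.2 - (q.2 - p.2) = z.2 - q.2 by ring]
    · rw [if_neg (by omega), if_neg (by omega), if_neg (by omega), if_neg (by omega)]
    · rw [if_pos h1, if_neg (by omega), if_pos (by omega)]
      rw [show -(p.1 - q.1) = q.1 - p.1 by ring, show z.1 - q.1 - (p.1 - q.1) = z.1 - p.1 by ring,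
        show z.2 - q.2 - (p.2 - q.2) = z.2 - p.2 by ring]
  eq p q z w hpq hzw h1 h2 h3 h4 := by
    have hd : (q.1 - p.1, q.2 - p.2) ∈ dirS ++ dirD := by
      rcases hpq with h | h
      · exact List.mem_append_left _ h.2.2
      · exact List.mem_append_right _ h.2
    have hd' : (w.1 - z.1, w.2 - z.2) ∈ dirS ++ dirD := by
      rcases hzw with h | h
      · exact List.mem_append_left _ h.2.2
      · exact List.mem_append_right _ h.2
    have hS : ∀ {a b : ℤ}, (a, b) ∈ dirS → a * b = 0 := by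
      intro a b h
      simp only [dirS, List.mem_cons, Prod.mk.injEq, List.not_mem_nil, or_false] at h
      rcases h with ⟨rfl, rfl⟩ | ⟨rfl, rfl⟩ | ⟨rfl, rfl⟩ | ⟨rfl, rfl⟩ <;> rfl
    have hD : ∀ {a b : ℤ}, (a, b) ∈ dirD → ¬ (a * b = 0) := by
      intro a b h
      simp only [dirD, List.mem_cons, Prod.mk.injEq, List.not_mem_nil, or_false] at h
      rcases h with ⟨rfl, rfl⟩ | ⟨rfl, rfl⟩ | ⟨rfl, rfl⟩ | ⟨rfl, rfl⟩ <;> decide
    have key := FF_zero (x := z.1 - p.1) (y := z.2 - p.2) hd hd' ?_ ?_ ?_ ?_ ?_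
    · unfold FF at key
      unfold L0 y0
      rw [show z.1 - p.1 + 0 = z.1 - p.1 by ring, show z.2 - p.2 + 0 = z.2 - p.2 by ring,
        show z.1 - p.1 + (w.1 - z.1) = w.1 - p.1 by ring,
        show z.2 - p.2 + (w.2 - z.2) = w.2 - p.2 by ring,
        show z.1 - p.1 + -(q.1 - p.1) = z.1 - q.1 by ring,
        show z.2 - p.2 + -(q.2 - p.2) = z.2 - q.2 by ring,
        show z.1 - p.1 + (w.1 - z.1 - (q.1 - p.1)) = w.1 - q.1 by ring,
        show z.2 - p.2 + (w.2 - z.2 - (q.2 - p.2)) = w.2 - q.2 by ring,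
        show -(z.1 - p.1) + 0 = p.1 - z.1 by ring, show -(z.2 - p.2) + 0 = p.2 - z.2 by ring,
        show -(z.1 - p.1) + (q.1 - p.1) = q.1 - z.1 by ring,
        show -(z.2 - p.2) + (q.2 - p.2) = q.2 - z.2 by ring] at key
      exact key
    · rcases hpq with hpq | hpq <;> rcases hzw with hzw | hzw
      · rw [if_pos ⟨hS hpq.2.2, hS hzw.2.2⟩]
        omega
      · rw [if_neg (fun h => hD hzw.2 h.2)]
        omega
      · rw [if_neg (fun h => hD hpq.2 h.1)]
        omega
      · rw [if_neg (fun h => hD hzw.2 h.2)]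
        omega
    · intro h; apply h1; ext <;> omega
    · intro h; apply h2; ext <;> omega
    · intro h; apply h3; ext <;> omega
    · intro h; apply h4; ext <;> omega

/-- the order of two directions at a vertex -/
def K0 (d e : ℤ × ℤ) : Bool :=
  lexb e.1 e.2 ^^ lexb (-d.1) (-d.2) ^^ lexb (e.1 - d.1) (e.2 - d.2) ^^ gd d.1 d.2 e.1 e.2 ^^
    gd e.1 e.2 d.1 d.2

theorem kappa_C0 (z d e : ℤ × ℤ) : C0.kappa z (z.1 + d.1, z.2 + d.2) (z.1 + e.1, z.2 + e.2) =
    K0 d e := by
  unfold Cert.kappa K0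
  show (L0 _ _ ^^ L0 _ _ ^^ L0 _ _ ^^ y0 _ _ _ ^^ y0 _ _ _) = _
  unfold L0 y0
  simp only
  rw [show z.1 + e.1 - z.1 = e.1 by ring, show z.2 + e.2 - z.2 = e.2 by ring,
    show z.1 + d.1 - z.1 = d.1 by ring, show z.2 + d.2 - z.2 = d.2 by ring,
    show z.1 - (z.1 + d.1) = -d.1 by ring, show z.2 - (z.2 + d.2) = -d.2 by ring,
    show z.1 + e.1 - (z.1 + d.1) = e.1 - d.1 by ring,
    show z.2 + e.2 - (z.2 + d.2) = e.2 - d.2 by ring]

end Pool.Agent.MP_f692a6_lc
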