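import Pool.Agent.MP_f692a6_lc.Down

/-!
# A solution of the cell equations gives a satisfying assignment
-/

set_option autoImplicit false

namespace Pool.Agent.MP_f692a6_lc

open Pool.Agent.H66

theorem netOf_tx (φ : Fm) (r c i : ℕ) : (netOf φ).tx r c i = txN φ r c i := rfl

theorem netOf_ty (φ : Fm) (r c i : ℕ) : (netOf φ).ty r c i = tyN φ r c i := rfl

theorem netOf_fo (φ : Fm) (r c i : ℕ) : (netOf φ).fo r c i = foN φ r c i := rfl

section

variable {φ : Fm} {G : SimpleGraph V2}

/-- the terminal `i` of the cell is true -/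
def tt (G : SimpleGraph V2) (r c i : ℕ) : Prop := Split G ((r : ℤ), (c : ℤ), 8 + i) 1

theorem inn_of {r c : ℕ} (h : inN φ r c = true) : Inn (valN φ) r c := by
  rw [inN_iff] at h
  intro a b k h1 h2 h3 h4 h5
  unfold valN RR CC
  simp only
  push_cast
  omega

theorem rel_of (hR : Real (netOf φ) (valN φ) G) {r c : ℕ} (h : inN φ r c = true) :
    ∃ i < 4, (txN φ r c i = true ∨ tt G r c i) ∧ (tyN φ r c (prv i) = true ∨ tt G r c (prv i)) :=
  cell_eq hR (inn_of h)

theorem forced_of (hR : Real (netOf φ) (valN φ) G) {r c i : ℕ} (hi : i < 4)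
    (h : foN φ r c i = true) : ¬ tt G r c i := by
  have hin : inN φ r c = true := by
    unfold foN at h
    rw [Bool.and_eq_true] at h
    exact h.1
  exact forced_eq hR (inn_of hin) hi h

theorem hor_of (hR : Real (netOf φ) (valN φ) G) {r c : ℕ} (h : inN φ r c = true) :
    tt G r c 1 → ¬ tt G r (c + 1) 3 := by
  intro h1 h2
  refine ruleH hR (inn_of h) h1 ?_
  have := h2
  unfold tt at this
  push_cast at this
  exact this

theorem ver_of (hR : Real (netOf φ) (valN φ) G) {r c : ℕ} (h : inN φ r c = true) :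
    tt G r c 2 → ¬ tt G (r + 1) c 0 := by
  intro h1 h2
  refine ruleV hR (inn_of h) h1 ?_
  have := h2
  unfold tt at this
  push_cast at this
  exact this

/-- a variable: the signals of the two rows are not both true -/
theorem var_of (hR : Real (netOf φ) (valN φ) G) {v : ℕ} (hv : v < nv φ) :
    ¬ (tt G (2 * v + 1) 2 3 ∧ tt G (2 * v + 2) 2 3) := by
  rintro ⟨h1, h2⟩
  have i1 : inN φ (2 * v + 1) 1 = true := inN_iff.2 (by omega)
  have i2 : inN φ (2 * v + 2) 1 = true := inN_iff.2 (by omega)
  have o1 : oddN φ (2 * v + 1) = true := oddN_iff.2 ⟨v, hv, rfl⟩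
  have o2 : oddN φ (2 * v + 2) = false := by
    rw [Bool.eq_false_iff]
    intro h
    obtain ⟨i, -, h⟩ := oddN_iff.1 h
    omega
  have f1 : ¬ tt G (2 * v + 1) 1 3 := forced_of hR (by omega) (by
    unfold foN
    rw [i1]
    simp)
  have f2 : ¬ tt G (2 * v + 2) 1 3 := forced_of hR (by omega) (by
    unfold foN
    rw [i2]
    simp)
  have e1 : ¬ tt G (2 * v + 1) 1 1 := fun h => hor_of hR i1 h h1
  have e2 : ¬ tt G (2 * v + 2) 1 1 := fun h => hor_of hR i2 h h2
  have hS : tt G (2 * v + 1) 1 2 := by
    obtain ⟨i, hi, ha, hb⟩ := rel_of hR i1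
    unfold txN at ha
    unfold tyN at hb
    rw [i1] at ha hb
    simp only [if_true, o1, decide_eq_true_eq] at ha hb
    have hi' : i = 0 ∨ i = 1 ∨ i = 2 ∨ i = 3 := by omega
    rcases hi' with rfl | rfl | rfl | rfl
    · simp only [prv] at hb
      rcases hb with hb | hb
      · omega
      · exact absurd hb f1
    · rcases ha with ha | ha
      · omega
      · exact absurd ha e1
    · rcases ha with ha | ha
      · omega
      · exact ha
    · simp only [prv] at hb
      rcases hb with hb | hb
      · omega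
      · exact hb
  have hN : tt G (2 * v + 2) 1 0 := by
    obtain ⟨i, hi, ha, hb⟩ := rel_of hR i2
    unfold txN at ha
    unfold tyN at hb
    rw [i2] at ha hb
    simp only [if_true, o2, Bool.false_eq_true, if_false, decide_eq_true_eq] at ha hb
    have hi' : i = 0 ∨ i = 1 ∨ i = 2 ∨ i = 3 := by omega
    rcases hi' with rfl | rfl | rfl | rfl
    · rcases ha with ha | ha
      · omega
      · exact ha
    · rcases ha with ha | ha
      · omega
      · exact absurd ha e2
    · simp only [prv] at hb
      rcases hb with hb | hb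
      · omega
      · exact absurd hb e2
    · rcases ha with ha | ha
      · omega
      · exact absurd ha f2
  exact ver_of hR i1 hS hN

/-- the equation of a cell in the column of a clause -/
theorem clause_rel (hR : Real (netOf φ) (valN φ) G) {r c : ℕ} (h : inN φ r c = true) (hc : 2 ≤ c) :
    (tt G r c 3 ∨ tt G r c 1) ∧
      (tt G r c 0 ∨ tt G r c 2 ∨ (tapN φ r c = true ∧ tt G r c 3)) := by
  obtain ⟨i, hi, ha, hb⟩ := rel_of hR h
  unfold txN at ha
  unfold tyN at hb
  have hc1 : ¬ c = 1 := by omega
  rw [h] at ha hb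
  simp only [if_true, hc1, if_false, Bool.and_eq_true, decide_eq_true_eq, Bool.false_eq_true,
    false_or] at ha hb
  have hi' : i = 0 ∨ i = 1 ∨ i = 2 ∨ i = 3 := by omega
  rcases hi' with rfl | rfl | rfl | rfl
  · simp only [prv] at hb
    refine ⟨Or.inl hb, ?_⟩
    rcases ha with ha | ha
    · exact Or.inr (Or.inr ⟨ha.1, hb⟩)
    · exact Or.inl ha
  · simp only [prv] at hb
    rcases ha with ha | ha
    · omega
    · exact ⟨Or.inr ha, Or.inl hb⟩
  · simp only [prv] at hb
    rcases ha with ha | ha
    · omega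
    · exact ⟨Or.inr hb, Or.inr (Or.inl ha)⟩
  · simp only [prv] at hb
    rcases ha with ha | ha
    · omega
    · exact ⟨Or.inl ha, Or.inr (Or.inl hb)⟩

/-- signals can only disappear -/
theorem mono_of (hR : Real (netOf φ) (valN φ) G) {r : ℕ} (h1 : 1 ≤ r) (h2 : r ≤ 2 * nv φ) :
    ∀ c, 2 ≤ c → c ≤ φ.length + 1 → tt G r c 3 → tt G r 2 3 := by
  intro c hc
  induction c, hc using Nat.le_induction with
  | base => exact fun _ h => h
  | succ c hc ih =>
    intro hc' h
    apply ih (by omega)
    have hin : inN φ r c = true := inN_iff.2 (by omega)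
    rcases (clause_rel hR hin hc).1 with h3 | h3
    · exact h3
    · exact absurd h (hor_of hR hin h3)

/-- the token of a clause is removed at a true literal -/
theorem token_of (hR : Real (netOf φ) (valN φ) G) {c : ℕ} (h1 : 2 ≤ c) (h2 : c ≤ φ.length + 1)
    (hn : 1 ≤ nv φ) : ∃ r, 1 ≤ r ∧ r ≤ 2 * nv φ ∧ tapN φ r c = true ∧ tt G r c 3 := by
  by_contra hno
  have key : ∀ r, 1 ≤ r → r ≤ 2 * nv φ → tt G r c 2 := by
    intro r hr
    induction r, hr using Nat.le_induction with
    | base =>
      intro hr2
      have hin : inN φ 1 c = true := inN_iff.2 (by omega)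
      have f0 : ¬ tt G 1 c 0 := forced_of hR (by omega) (by
        unfold foN
        rw [hin, if_neg (by omega)]
        simp)
      rcases (clause_rel hR hin h1).2 with h | h | h
      · exact absurd h f0
      · exact h
      · exact absurd ⟨1, le_rfl, hr2, h.1, h.2⟩ hno
    | succ r hr ih =>
      intro hr2
      have hin : inN φ r c = true := inN_iff.2 (by omega)
      have hin' : inN φ (r + 1) c = true := inN_iff.2 (by omega)
      have f0 : ¬ tt G (r + 1) c 0 := ver_of hR hin (ih (by omega))
      rcases (clause_rel hR hin' h1).2 with h | h | h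
      · exact absurd h f0
      · exact h
      · exact absurd ⟨r + 1, by omega, hr2, h.1, h.2⟩ hno
  have hin : inN φ (2 * nv φ) c = true := inN_iff.2 (by omega)
  exact forced_of hR (i := 2) (by omega) (by
    unfold foN
    rw [hin, if_neg (by omega)]
    simp) (key (2 * nv φ) (by omega) le_rfl)

theorem sat_of (hR : Real (netOf φ) (valN φ) G) : Sat3 φ := by
  classical
  refine ⟨fun v => decide (tt G (2 * v + 1) 2 3), ?_⟩
  intro q hq
  obtain ⟨j, hj, rfl⟩ := List.mem_iff_getElem.1 hq
  obtain ⟨n1, n2, n3⟩ := lt_nv hq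
  obtain ⟨r, hr1, hr2, htap, ht⟩ := token_of hR (c := j + 2) (by omega) (by omega) (by omega)
  have h2 := mono_of hR hr1 hr2 (j + 2) (by omega) (by omega) ht
  have hcl : clN φ (j + 2) = φ[j] := by
    unfold clN
    rw [Nat.add_sub_cancel, List.getD_eq_getElem _ _ hj]
  unfold tapN at htap
  rw [hcl] at htap
  simp only [Bool.or_eq_true, decide_eq_true_eq] at htap
  have key : ∀ l : Bool × ℕ, l.2 < nv φ → r = rowOf l →
      LitSat (fun v => decide (tt G (2 * v + 1) 2 3)) l := by
    rintro ⟨b, v⟩ hv hrow
    unfold LitSat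
    simp only
    unfold rowOf at hrow
    cases b with
    | true =>
      simp only [if_true] at hrow
      rw [decide_eq_true_iff, ← hrow]
      exact h2
    | false =>
      simp only [Bool.false_eq_true, if_false] at hrow
      rw [decide_eq_false_iff_not]
      intro h
      exact var_of hR hv ⟨h, by rw [← hrow]; exact h2⟩
  rcases htap with h | h | h
  · exact Or.inl (key _ n1 h)
  · exact Or.inr (Or.inl (key _ n2 h))
  · exact Or.inr (Or.inr (key _ n3 h))

end

theorem sat_of_planar {φ : Fm} (h : (instOf φ).PathPlanar) : Sat3 φ := by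
  obtain ⟨G, hG⟩ := real_of φ h
  exact sat_of hG

end Pool.Agent.MP_f692a6_lc
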