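import Pool.Agent.MP_f692a6_lc.Assign

/-!
# A solution of the cell equations gives a planar graph with paths in the clusters
-/

set_option autoImplicit false

namespace Pool.Agent.MP_f692a6_lc

open Pool.Agent.H66

/-- the letter with a given number -/
def dec (C x : ℕ) : V2 := (((x / 57 / C : ℕ) : ℤ), ((x / 57 % C : ℕ) : ℤ), x % 57 / 4, x % 57 % 4)

theorem dec_inj (C : ℕ) : ∀ x y, dec C x = dec C y → x = y := by
  intro x y h
  unfold dec at h
  simp only [Prod.mk.injEq, Nat.cast_inj] at h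
  obtain ⟨h1, h2, h3, h4⟩ := h
  have h5 : x / 57 = y / 57 := by
    rw [← Nat.div_add_mod (x / 57) C, ← Nat.div_add_mod (y / 57) C, h1, h2]
  omega

theorem dec_vert {C r c k l : ℕ} (hc : c < C) (hq : 4 * k + l < 57) (hl : l < 4) :
    dec C (vert C r c k l) = ((r : ℤ), (c : ℤ), k, l) := by
  have h1 : vert C r c k l / 57 = r * C + c := by
    unfold vert
    generalize r * C + c = X
    omega
  have h2 : vert C r c k l % 57 = 4 * k + l := by
    unfold vert
    rw [Nat.mul_add_mod_self_right, Nat.mod_eq_of_lt hq]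
  have h3 : (r * C + c) / C = r := by
    rw [mul_comm, Nat.mul_add_div (by omega), Nat.div_eq_of_lt hc]
    rfl
  have h4 : (r * C + c) % C = c := by
    rw [Nat.mul_add_mod_self_right, Nat.mod_eq_of_lt hc]
  unfold dec
  rw [h1, h2, h3, h4]
  have h5 : (4 * k + l) / 4 = k := by omega
  have h6 : (4 * k + l) % 4 = l := by omega
  rw [h5, h6]

/-- consecutive letters of a cluster -/
def Con (φ : Fm) (σ : V1 → ℕ) (u v : ℕ) : Prop :=
  ∃ r < RR φ, ∃ c < CC φ, ∃ k < 14, ∃ p ∈ conPairs (pathOf k (σ ((r : ℤ), (c : ℤ), k))),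
    u = vert (CC φ) r c k p.1 ∧ v = vert (CC φ) r c k p.2

/-- the graph -/
def gr (φ : Fm) (σ : V1 → ℕ) : SimpleGraph ℕ :=
  SimpleGraph.fromRel fun u v => (u, v) ∈ linkN φ ∨ Con φ σ u v

theorem pathOf_perm (k s : ℕ) : (pathOf k s).Perm [0, 1, 2, 3] := by
  have h : ∀ l ∈ [[2, 0, 1, 3], [3, 0, 1, 2], [1, 0, 2, 3]], l.Perm [0, 1, 2, 3] := by decide
  unfold pathOf
  split_ifs <;> exact h _ (by decide)

theorem conPairs_mem {a b : ℕ} : ∀ {l : List ℕ}, (a, b) ∈ conPairs l ↔
    ([a, b] <:+: l ∨ [b, a] <:+: l)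
  | [] => by simp [conPairs]
  | [x] => by
    simp only [conPairs, List.not_mem_nil, false_iff, not_or]
    constructor
    · intro h
      have := h.length_le
      simp at this
    · intro h
      have := h.length_le
      simp at this
  | x :: y :: l => by
    have key : ∀ a b : ℕ, [a, b] <:+: x :: y :: l ↔ (a = x ∧ b = y) ∨ [a, b] <:+: y :: l := by
      intro a b
      rw [List.infix_cons_iff]
      constructor
      · rintro (h | h)
        · left
          rw [List.cons_prefix_cons, List.cons_prefix_cons] at h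
          exact ⟨h.1, h.2.1⟩
        · exact Or.inr h
      · rintro (h | h)
        · left
          rw [h.1, h.2]
          exact ⟨l, rfl⟩
        · exact Or.inr h
    rw [key, key]
    simp only [conPairs, List.mem_cons, Prod.mk.injEq]
    rw [conPairs_mem (l := y :: l)]
    tauto

theorem conPairs_lt {k s : ℕ} {p : ℕ × ℕ} (h : p ∈ conPairs (pathOf k s)) : p.1 < 4 ∧ p.2 < 4 := by
  have h1 := conPairs_mem.1 (show (p.1, p.2) ∈ conPairs (pathOf k s) from h)
  have hm : ∀ x ∈ pathOf k s, x < 4 := by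
    intro x hx
    have := (pathOf_perm k s).mem_iff.1 hx
    simp only [List.mem_cons, List.not_mem_nil, or_false] at this
    omega
  rcases h1 with h1 | h1
  · exact ⟨hm _ (h1.subset (by simp)), hm _ (h1.subset (by simp))⟩
  · exact ⟨hm _ (h1.subset (by simp)), hm _ (h1.subset (by simp))⟩

theorem conPairs_ne {k s : ℕ} {p : ℕ × ℕ} (h : p ∈ conPairs (pathOf k s)) : p.1 ≠ p.2 := by
  have h1 := conPairs_mem.1 (show (p.1, p.2) ∈ conPairs (pathOf k s) from h)
  have hn : (pathOf k s).Nodup := (pathOf_perm k s).nodup_iff.2 (by decide)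
  rcases h1 with h1 | h1
  · have := (List.Sublist.nodup h1.sublist hn)
    simpa using this
  · have h2 := (List.Sublist.nodup h1.sublist hn)
    intro h3
    rw [h3] at h2
    simp at h2

theorem gr_adj2 {φ : Fm} {σ : V1 → ℕ} {u v : ℕ} (h : (gr φ σ).Adj u v) :
    Adj2 (netOf φ) σ (dec (CC φ) u) (dec (CC φ) v) := by
  have hl : ∀ {u v : ℕ}, (u, v) ∈ linkN φ → Adj2 (netOf φ) σ (dec (CC φ) u) (dec (CC φ) v) := by
    intro u v h
    obtain ⟨r, hr, c, hc, e, he, h1, h2, q, hq, heq⟩ := mem_linkN.1 h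
    obtain ⟨rfl, rfl⟩ := Prod.mk.inj heq
    obtain ⟨g1, g2, g3, g4⟩ := lnkN_lt he hq
    obtain ⟨f1, f2, -⟩ := fwd_facts he
    rw [dec_vert hc g3 g1, dec_vert h2 g4 g2]
    right
    refine ⟨toEnt e, f1, rfl, ?_, ?_⟩
    · unfold pr step Ent.base toEnt
      simp
    · rw [lnkN_eq φ r c f2] at hq
      exact hq
  have hc : ∀ {u v : ℕ}, Con φ σ u v → Adj2 (netOf φ) σ (dec (CC φ) u) (dec (CC φ) v) := by
    rintro u v ⟨r, hr, c, hc, k, hk, p, hp, rfl, rfl⟩
    obtain ⟨p1, p2⟩ := conPairs_lt hp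
    rw [dec_vert hc (by omega) p1, dec_vert hc (by omega) p2]
    exact Or.inl ⟨rfl, hk, hp⟩
  unfold gr at h
  rw [SimpleGraph.fromRel_adj] at h
  obtain ⟨-, (h | h) | (h | h)⟩ := h
  · exact hl h
  · exact hc h
  · exact (hl h).symm
  · exact (hc h).symm

theorem con_cluster {φ : Fm} {σ : V1 → ℕ} {u v : ℕ} (h : Con φ σ u v) :
    ∃ S ∈ clusN φ, u ∈ S ∧ v ∈ S := by
  obtain ⟨r, hr, c, hc, k, hk, p, hp, rfl, rfl⟩ := h
  obtain ⟨p1, p2⟩ := conPairs_lt hp
  exact ⟨_, mem_clusN.2 ⟨r, hr, c, hc, Or.inl ⟨k, hk, rfl⟩⟩, mem_cluster.2 ⟨_, p1, rfl⟩,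
    mem_cluster.2 ⟨_, p2, rfl⟩⟩

theorem link_ne {φ : Fm} {u v : ℕ} (h : (u, v) ∈ linkN φ) : u ≠ v := by
  rintro rfl
  obtain ⟨r, hr, c, hc, e, he, h1, h2, q, hq, heq⟩ := mem_linkN.1 h
  obtain ⟨g1, g2, g3, g4⟩ := lnkN_lt he hq
  have hin : u ∈ (clusN φ).flatten := by
    rw [clusN_flatten, List.mem_range, (Prod.mk.inj heq).1]
    exact vert_lt hr hc g3
  obtain ⟨S, hS, hx⟩ := List.mem_flatten.1 hin
  exact link_clusters h hS ⟨hx, hx⟩

theorem con_ne {φ : Fm} {σ : V1 → ℕ} {u v : ℕ} (h : Con φ σ u v) : u ≠ v := by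
  obtain ⟨r, hr, c, hc, k, hk, p, hp, rfl, rfl⟩ := h
  obtain ⟨p1, p2⟩ := conPairs_lt hp
  intro heq
  exact conPairs_ne hp (vert_inj hc hc (by omega) (by omega) p1 p2 heq).2.2.2

theorem planar_of {φ : Fm} (A : Sol (netOf φ)) (hA : A.Ok) : (instOf φ).PathPlanar := by
  have hg : (instOf φ).graph = SimpleGraph.fromRel fun u v => (u, v) ∈ linkN φ ∨
      ∃ S ∈ clusN φ, u ∈ S ∧ v ∈ S := rfl
  refine ⟨gr φ A.st, ?_, ?_, ?_, ?_⟩
  · intro u v h
    rw [hg, SimpleGraph.fromRel_adj]
    unfold gr at h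
    rw [SimpleGraph.fromRel_adj] at h
    refine ⟨h.1, ?_⟩
    rcases h.2 with (h | h) | (h | h)
    · exact Or.inl (Or.inl h)
    · exact Or.inl (Or.inr (con_cluster h))
    · exact Or.inr (Or.inl h)
    · exact Or.inr (Or.inr (con_cluster h))
  · intro u v h hno
    rw [hg, SimpleGraph.fromRel_adj] at h
    unfold gr
    rw [SimpleGraph.fromRel_adj]
    refine ⟨h.1, ?_⟩
    rcases h.2 with (h | ⟨S, hS, h1, h2⟩) | (h | ⟨S, hS, h1, h2⟩)
    · exact Or.inl (Or.inl h)
    · exact absurd ⟨h1, h2⟩ (hno S hS)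
    · exact Or.inr (Or.inl h)
    · exact absurd ⟨h2, h1⟩ (hno S hS)
  · intro S hS
    have hS' : S ∈ clusN φ := hS
    obtain ⟨r, hr, c, hc, ⟨k, hk, rfl⟩ | rfl⟩ := mem_clusN.1 hS'
    · refine ⟨(pathOf k (A.st ((r : ℤ), (c : ℤ), k))).map fun l => vert (CC φ) r c k l, ?_, ?_⟩
      · exact (pathOf_perm _ _).map fun l => vert (CC φ) r c k l
      · intro u hu v hv
        obtain ⟨l, hl, rfl⟩ := mem_cluster.1 hu
        obtain ⟨m, hm, rfl⟩ := mem_cluster.1 hv
        have hinj : ∀ x ∈ pathOf k (A.st ((r : ℤ), (c : ℤ), k)), ∀ y < 4,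
            vert (CC φ) r c k x = vert (CC φ) r c k y → x = y := by
          intro x hx y hy h
          have := (pathOf_perm _ _).mem_iff.1 hx
          simp only [List.mem_cons, List.not_mem_nil, or_false] at this
          exact (vert_inj hc hc (by omega) (by omega) (by omega) hy h).2.2.2
        have key : ∀ a < 4, ∀ b < 4, ([vert (CC φ) r c k a, vert (CC φ) r c k b] <:+:
            (pathOf k (A.st ((r : ℤ), (c : ℤ), k))).map fun l => vert (CC φ) r c k l) ↔
            [a, b] <:+: pathOf k (A.st ((r : ℤ), (c : ℤ), k)) := by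
          intro a ha b hb
          constructor
          · rintro ⟨s, t, hst⟩
            have h1 := hst.symm
            rw [List.append_assoc, List.map_eq_append_iff] at h1
            obtain ⟨s', t', e1, -, e2⟩ := h1
            rw [List.map_eq_append_iff] at e2
            obtain ⟨m', t'', e3, e4, -⟩ := e2
            rw [List.map_eq_cons_iff] at e4
            obtain ⟨x, m'', rfl, hx, e5⟩ := e4
            rw [List.map_eq_cons_iff] at e5
            obtain ⟨y, m3, rfl, hy, e6⟩ := e5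
            rw [List.map_eq_nil_iff] at e6
            subst e6
            have e7 : pathOf k (A.st ((r : ℤ), (c : ℤ), k)) = s' ++ ([x, y] ++ t'') := by
              rw [e1, e3]
            have hx' := hinj x (by rw [e7]; simp) a ha hx
            have hy' := hinj y (by rw [e7]; simp) b hb hy
            subst hx'
            subst hy'
            exact ⟨s', t'', by rw [e7, List.append_assoc]⟩
          · rintro ⟨s, t, hst⟩
            refine ⟨s.map fun l => vert (CC φ) r c k l, t.map fun l => vert (CC φ) r c k l, ?_⟩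
            rw [← hst]
            simp
        unfold CGraph.Consecutive
        rw [key l hl m hm, key m hm l hl, ← conPairs_mem]
        unfold gr
        rw [SimpleGraph.fromRel_adj]
        constructor
        · rintro ⟨-, (h | h) | (h | h)⟩
          · exact absurd ⟨hu, hv⟩ (link_clusters h hS')
          · obtain ⟨r', hr', c', hc', k', hk', p, hp, e1, e2⟩ := h
            obtain ⟨p1, p2⟩ := conPairs_lt hp
            obtain ⟨a1, a2, a3, a4⟩ := vert_inj hc hc' (by omega) (by omega) hl p1 e1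
            obtain ⟨b1, b2, b3, b4⟩ := vert_inj hc hc' (by omega) (by omega) hm p2 e2
            subst a1 a2 a3 a4 b4
            exact hp
          · exact absurd ⟨hv, hu⟩ (link_clusters h hS')
          · obtain ⟨r', hr', c', hc', k', hk', p, hp, e1, e2⟩ := h
            obtain ⟨p1, p2⟩ := conPairs_lt hp
            obtain ⟨a1, a2, a3, a4⟩ := vert_inj hc hc' (by omega) (by omega) hm p1 e1
            obtain ⟨b1, b2, b3, b4⟩ := vert_inj hc hc' (by omega) (by omega) hl p2 e2
            subst a1 a2 a3 a4 b4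
            exact conPairs_symm _ _ _ hp
        · intro h
          have hcon : Con φ A.st (vert (CC φ) r c k l) (vert (CC φ) r c k m) :=
            ⟨r, hr, c, hc, k, hk, (l, m), h, rfl, rfl⟩
          exact ⟨con_ne hcon, Or.inl (Or.inr hcon)⟩
    · refine ⟨[vert (CC φ) r c 14 0], List.Perm.refl _, ?_⟩
      intro u hu v hv
      rw [List.mem_singleton] at hu hv
      subst hu hv
      constructor
      · intro h
        exact absurd rfl h.ne
      · rintro (h | h) <;>
        · have := h.length_le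
          simp at this
  · exact Cert.planar ((C2 (netOf φ) A.st (A.fits hA)).comap (dec (CC φ))
      (fun u v h => gr_adj2 h) (dec_inj (CC φ)))

theorem planar_of_sat {φ : Fm} (h : Sat3 φ) : (instOf φ).PathPlanar := by
  obtain ⟨τ, hτ⟩ := h
  exact planar_of (solOf φ τ) (solOf_ok hτ)

end Pool.Agent.MP_f692a6_lc
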