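import Pool.Agent.MP_f692a6_lc.RedPT
import Pool.Agent.MP_f692a6_lc.Logic
import Pool.Agent.MP_f692a6_lc.Up
import Pool.Agent.MP_f692a6_lc.Code

/-!
# Clique planarity is NP-hard for clusters with at most four vertices
-/

set_option autoImplicit false

namespace Pool.Agent.MP_f692a6_lc

open Turing Pool.Agent.Lib.helper60

theorem inst_iff (φ : Fm) : Pool.Agent.H66.Sat3 φ ↔ (instOf φ).PathPlanar :=
  ⟨planar_of_sat, sat_of_planar⟩

/-- Clique planarity is NP-hard for clusters with at most `h` vertices, if `h ≥ 4`. -/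
theorem hard {h : ℕ} (hh : 4 ≤ h) : NPHard (CliquePlanarity h) := by
  intro L hL
  have hL' : Pool.Agent.H66.InNP L := hL
  obtain ⟨f, hf, hfL⟩ := Pool.Agent.H66.cook_levin hL'
  obtain ⟨h1⟩ := hf.tm2_raw
  have h2 : Nonempty (TM2ComputableInPolyTime (fun φ : Fm => (toD φ).enc)
      (fun x : List Bool => x) (fun φ : Fm => (instOf φ).code)) :=
    PT.toTM2_code PT_code (fun _ => rfl)
  have e : (Pool.Agent.H66.enc : Fm → List Bool) = (fun φ : Fm => (toD φ).enc) := by
    funext φ
    exact ((Same.bool.prod Same.nat).prod ((Same.bool.prod Same.nat).prod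
      (Same.bool.prod Same.nat))).list φ
  rw [← e] at h2
  obtain ⟨h2⟩ := h2
  refine ⟨(fun φ : Fm => (instOf φ).code) ∘ f, TM2_comp h1 h2, ?_⟩
  intro x
  rw [hfL x, inst_iff]
  constructor
  · intro hp
    exact ⟨instOf (f x), rfl, instOf_proper _, fun S hS => (instOf_length _ S hS).trans hh, hp⟩
  · rintro ⟨I, hI, -, -, hp⟩
    rw [code_injective hI] at hp
    exact hp

end Pool.Agent.MP_f692a6_lc
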