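import Pool.Agent.MP_f692a6_lc.Letters
import Pool.Agent.Lib.helper66.Tableau

/-!
# The instance that belongs to a formula
-/

set_option autoImplicit false

namespace Pool.Agent.MP_f692a6_lc

/-- formulas -/
abbrev Fm := List Pool.Agent.H66.Cl

/-- a number larger than all variables -/
def nv (φ : Fm) : ℕ :=
  (φ.flatMap fun c => List.range (c.1.2 + 1) ++ (List.range (c.2.1.2 + 1) ++
    List.range (c.2.2.2 + 1))).length

/-- the row of a literal -/
def rowOf (l : Bool × ℕ) : ℕ := 2 * l.2 + if l.1 = true then 1 else 2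

/-- the clause of a column -/
def clN (φ : Fm) (c : ℕ) : Pool.Agent.H66.Cl := φ.getD (c - 2) ((true, 0), ((true, 0), (true, 0)))

/-- the literal of the row occurs in the clause of the column -/
def tapN (φ : Fm) (r c : ℕ) : Bool :=
  decide (r = rowOf (clN φ c).1) || (decide (r = rowOf (clN φ c).2.1) ||
    decide (r = rowOf (clN φ c).2.2))

/-- the cell is not at the boundary -/
def inN (φ : Fm) (r c : ℕ) : Bool :=
  decide (1 ≤ r) && (decide (r ≤ 2 * nv φ) && (decide (1 ≤ c) && decide (c ≤ φ.length + 1)))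

/-- the row of a positive literal -/
def oddN (φ : Fm) (r : ℕ) : Bool := (List.range (nv φ)).any fun i => decide (r = 2 * i + 1)

/-- the switches of the pairs between `J_i` and `T_i` -/
def txN (φ : Fm) (r c i : ℕ) : Bool :=
  if inN φ r c = true then
    (if c = 1 then (if oddN φ r = true then decide (i = 3) else decide (i = 2)) else
      (tapN φ r c && decide (i = 0)))
  else decide (i = 0)

/-- the switches of the pairs between `T_i` and `V_{i+1}` -/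
def tyN (φ : Fm) (r c i : ℕ) : Bool :=
  if inN φ r c = true then
    (if c = 1 then (if oddN φ r = true then decide (i = 0) else decide (i = 3)) else false)
  else decide (i = 3)

/-- the forced terminals -/
def foN (φ : Fm) (r c i : ℕ) : Bool :=
  inN φ r c && (if c = 1 then decide (i = 3) else
    (decide (r = 1) && decide (i = 0)) || (decide (r = 2 * nv φ) && decide (i = 2)))

/-- the network of a formula -/
def netOf (φ : Fm) : Net :=
  ⟨fun r c i => txN φ r.toNat c.toNat i, fun r c i => tyN φ r.toNat c.toNat i,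
    fun r c i => foN φ r.toNat c.toNat i⟩

/-- the number of rows -/
def RR (φ : Fm) : ℕ := 2 * nv φ + 3

/-- the number of columns -/
def CC (φ : Fm) : ℕ := φ.length + 4

/-- the number of a letter -/
def vert (C r c k l : ℕ) : ℕ := (r * C + c) * 57 + (4 * k + l)

/-- the links, listed in one direction, with nonnegative offsets -/
def fwd : List (ℕ × ℕ × ℕ × ℕ × ℕ × ℕ × ℕ × ℕ) :=
  [(0, 0, 0, 4, 1, 1, 1, 0), (1, 0, 0, 5, 1, 1, 1, 1), (2, 0, 0, 6, 1, 1, 1, 2),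
   (3, 0, 0, 7, 1, 1, 1, 3), (4, 0, 0, 8, 2, 2, 1, 0), (5, 0, 0, 9, 2, 2, 1, 1),
   (6, 0, 0, 10, 2, 2, 1, 2), (7, 0, 0, 11, 2, 2, 1, 3), (8, 0, 0, 1, 3, 3, 3, 0),
   (9, 0, 0, 2, 3, 3, 3, 1), (10, 0, 0, 3, 3, 3, 3, 2), (11, 0, 0, 0, 3, 3, 3, 3),
   (0, 0, 0, 12, 0, 2, 1, 0), (1, 0, 0, 12, 0, 2, 2, 1), (2, 0, 0, 13, 0, 2, 2, 2),
   (3, 0, 0, 13, 0, 2, 3, 3), (12, 0, 0, 13, 0, 3, 1, 0), (9, 0, 1, 11, 0, 2, 2, 0),
   (10, 1, 0, 8, 0, 2, 2, 0),
   (4, 0, 0, 1, 4, 0, 0, 0), (5, 0, 0, 2, 4, 0, 0, 1), (6, 0, 0, 3, 4, 0, 0, 2),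
   (7, 0, 0, 0, 4, 0, 0, 3),
   (4, 0, 0, 14, 4, 3, 0, 0), (5, 0, 1, 14, 4, 3, 0, 1), (6, 1, 1, 14, 4, 3, 0, 2),
   (7, 1, 0, 14, 4, 3, 0, 3),
   (8, 0, 0, 14, 4, 0, 0, 0), (9, 0, 1, 14, 4, 0, 0, 1), (10, 1, 1, 14, 4, 0, 0, 2),
   (11, 1, 0, 14, 4, 0, 0, 3),
   (8, 0, 1, 14, 5, 0, 0, 0), (9, 1, 1, 14, 5, 0, 0, 1), (10, 1, 0, 14, 5, 0, 0, 2),
   (11, 0, 0, 14, 5, 0, 0, 3)]

/-- entries of `fwd` as entries of `E2` -/
def toEnt (e : ℕ × ℕ × ℕ × ℕ × ℕ × ℕ × ℕ × ℕ) : Ent :=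
  ⟨e.1, e.2.1, e.2.2.1, e.2.2.2.1, e.2.2.2.2.1, e.2.2.2.2.2.1, e.2.2.2.2.2.2.1, e.2.2.2.2.2.2.2⟩

theorem fwd_sub : (fwd.all fun e => decide (toEnt e ∈ E2) && decide (e.1 < 14) &&
    decide (e.2.2.2.1 ≤ 14)) = true := by decide +kernel

theorem fwd_all : (E2.all fun e => decide (e ∈ fwd.map toEnt) ||
    decide (e.rev ∈ fwd.map toEnt)) = true := by decide +kernel

/-- the parity of a pair -/
def oddP (φ : Fm) (r c code i : ℕ) : Bool :=
  if code = 0 then false else if code = 1 then true else if code = 2 then txN φ r c i else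
    tyN φ r c i

/-- the pairs of letters joined by the edges of an entry of `fwd` -/
def lnkN (φ : Fm) (r c : ℕ) (e : ℕ × ℕ × ℕ × ℕ × ℕ × ℕ × ℕ × ℕ) : List (ℕ × ℕ) :=
  if e.2.2.2.2.1 < 4 then
    (if oddP φ r c e.2.2.2.2.1 e.2.2.2.2.2.2.2 = true then
      [(0, e.2.2.2.2.2.2.1), (e.2.2.2.2.2.1, 0)] else
      [(0, 0), (e.2.2.2.2.2.1, e.2.2.2.2.2.2.1)])
  else if e.2.2.2.2.1 = 4 then [(e.2.2.2.2.2.1, e.2.2.2.2.2.2.1)]
  else if foN φ r c e.2.2.2.2.2.2.2 = true then [(e.2.2.2.2.2.1, e.2.2.2.2.2.2.1)] else []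

/-- the clusters of a cell -/
def cellC (C r c : ℕ) : List (List ℕ) :=
  (List.range 14).map (fun k => [vert C r c k 0, vert C r c k 1, vert C r c k 2, vert C r c k 3]) ++
    [[vert C r c 14 0]]

/-- the clusters -/
def clusN (φ : Fm) : List (List ℕ) :=
  (List.range (RR φ)).flatMap fun r => (List.range (CC φ)).flatMap fun c => cellC (CC φ) r c

/-- the links of an entry of `fwd` at a cell -/
def linkE (φ : Fm) (r c : ℕ) (e : ℕ × ℕ × ℕ × ℕ × ℕ × ℕ × ℕ × ℕ) : List (ℕ × ℕ) :=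
  if r + e.2.1 < RR φ ∧ c + e.2.2.1 < CC φ then
    (lnkN φ r c e).map fun p => (vert (CC φ) r c e.1 p.1,
      vert (CC φ) (r + e.2.1) (c + e.2.2.1) e.2.2.2.1 p.2)
  else []

/-- the links of a cell -/
def linkC (φ : Fm) (r c : ℕ) : List (ℕ × ℕ) := fwd.flatMap fun e => linkE φ r c e

/-- the links of a row -/
def linkR (φ : Fm) (r : ℕ) : List (ℕ × ℕ) := (List.range (CC φ)).flatMap fun c => linkC φ r c

/-- the links -/
def linkN (φ : Fm) : List (ℕ × ℕ) := (List.range (RR φ)).flatMap fun r => linkR φ r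

/-- the instance of a formula -/
def instOf (φ : Fm) : CGraph := ⟨clusN φ, linkN φ⟩

theorem vert_inj {C r c k l r' c' k' l' : ℕ} (hc : c < C) (hc' : c' < C) (hq : 4 * k + l < 57)
    (hq' : 4 * k' + l' < 57) (hl : l < 4) (hl' : l' < 4)
    (h : vert C r c k l = vert C r' c' k' l') : r = r' ∧ c = c' ∧ k = k' ∧ l = l' := by
  unfold vert at h
  have h1 : 4 * k + l = 4 * k' + l' := by omega
  have h2 : r * C + c = r' * C + c' := by omega
  have h3 : c = c' := by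
    have := congrArg (fun n => n % C) h2
    simp only [Nat.mul_add_mod_self_right] at this
    rwa [Nat.mod_eq_of_lt hc, Nat.mod_eq_of_lt hc'] at this
  have h4 : r = r' := by
    subst h3
    have h5 : r * C = r' * C := by omega
    exact Nat.eq_of_mul_eq_mul_right (by omega) h5
  exact ⟨h4, h3, by omega, by omega⟩

theorem vert_lt {R C r c k l : ℕ} (hr : r < R) (hc : c < C) (hq : 4 * k + l < 57) :
    vert C r c k l < R * C * 57 := by
  unfold vert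
  have h1 : r * C + c < R * C := by
    have : (r + 1) * C ≤ R * C := Nat.mul_le_mul_right _ hr
    have h2 : (r + 1) * C = r * C + C := by ring
    omega
  omega

theorem mem_clusN {φ : Fm} {S : List ℕ} : S ∈ clusN φ ↔ ∃ r < RR φ, ∃ c < CC φ,
    (∃ k < 14, S = [vert (CC φ) r c k 0, vert (CC φ) r c k 1, vert (CC φ) r c k 2,
      vert (CC φ) r c k 3]) ∨ S = [vert (CC φ) r c 14 0] := by
  unfold clusN cellC
  simp only [List.mem_flatMap, List.mem_range, List.mem_append, List.mem_map,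
    List.mem_singleton]
  constructor
  · rintro ⟨r, hr, c, hc, ⟨k, hk, rfl⟩ | rfl⟩
    · exact ⟨r, hr, c, hc, Or.inl ⟨k, hk, rfl⟩⟩
    · exact ⟨r, hr, c, hc, Or.inr rfl⟩
  · rintro ⟨r, hr, c, hc, ⟨k, hk, rfl⟩ | rfl⟩
    · exact ⟨r, hr, c, hc, Or.inl ⟨k, hk, rfl⟩⟩
    · exact ⟨r, hr, c, hc, Or.inr rfl⟩

theorem mem_linkN {φ : Fm} {p : ℕ × ℕ} : p ∈ linkN φ ↔ ∃ r < RR φ, ∃ c < CC φ, ∃ e ∈ fwd,
    r + e.2.1 < RR φ ∧ c + e.2.2.1 < CC φ ∧ ∃ q ∈ lnkN φ r c e,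
      p = (vert (CC φ) r c e.1 q.1, vert (CC φ) (r + e.2.1) (c + e.2.2.1) e.2.2.2.1 q.2) := by
  unfold linkN linkR linkC linkE
  simp only [List.mem_flatMap, List.mem_range]
  constructor
  · rintro ⟨r, hr, c, hc, e, he, h⟩
    split_ifs at h with h1
    · obtain ⟨q, hq, rfl⟩ := List.mem_map.1 h
      exact ⟨r, hr, c, hc, e, he, h1.1, h1.2, q, hq, rfl⟩
    · simp at h
  · rintro ⟨r, hr, c, hc, e, he, h1, h2, q, hq, rfl⟩
    refine ⟨r, hr, c, hc, e, he, ?_⟩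
    rw [if_pos ⟨h1, h2⟩]
    exact List.mem_map.2 ⟨q, hq, rfl⟩

/-- the links of an entry of `fwd` are those of the network -/
theorem lnkN_eq (φ : Fm) (r c : ℕ) {e : ℕ × ℕ × ℕ × ℕ × ℕ × ℕ × ℕ × ℕ} (he : e.1 < 14) :
    lnkN φ r c e = (netOf φ).lnk r c (toEnt e) := by
  unfold lnkN Net.lnk toEnt
  simp only
  by_cases h4 : e.2.2.2.2.1 < 4
  · rw [if_pos h4, if_pos h4]
    unfold two
    have : oddP φ r c e.2.2.2.2.1 e.2.2.2.2.2.2.2 = (netOf φ).odd r c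
        ⟨e.1, e.2.1, e.2.2.1, e.2.2.2.1, e.2.2.2.2.1, e.2.2.2.2.2.1, e.2.2.2.2.2.2.1,
          e.2.2.2.2.2.2.2⟩ := rfl
    rw [this]
  · rw [if_neg h4, if_neg h4]
    by_cases h5 : e.2.2.2.2.1 = 4
    · rw [if_pos h5, if_pos h5]
    · have h14 : ¬ e.1 = 14 := by omega
      rw [if_neg h5, if_neg h5]
      simp only [h14, if_false]
      rfl

end Pool.Agent.MP_f692a6_lc
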