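import Pool.Agent.MP_f692a6_lc.Cell

/-!
# The graph of the letters and its certificate
-/

set_option autoImplicit false

namespace Pool.Agent.MP_f692a6_lc

/-- the vertices: a cell, a kind of cluster, a letter -/
abbrev V2 := ℤ × ℤ × ℕ × ℕ

/-- entries of the table of links -/
structure Ent where
  /-- the kind of the first cluster -/
  k : ℕ
  /-- the offset of the row -/
  dr : ℤ
  /-- the offset of the column -/
  dc : ℤ
  /-- the kind of the second cluster -/
  k' : ℕ
  /-- the code: even pair, odd pair, pair with switch `tx`, pair with switch `ty`, single edge,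
  optional single edge -/
  code : ℕ
  /-- the private letter at the first end -/
  X : ℕ
  /-- the private letter at the second end -/
  X' : ℕ
  /-- the index -/
  idx : ℕ
deriving DecidableEq

/-- the links between clusters -/
def E2 : List Ent :=
  [⟨0, 0, 0, 4, 1, 1, 1, 0⟩, ⟨4, 0, 0, 0, 1, 1, 1, 0⟩, ⟨4, 0, 0, 8, 2, 2, 1, 0⟩, ⟨8, 0, 0, 4,
   2, 1, 2, 0⟩, ⟨8, 0, 0, 1, 3, 3, 3, 0⟩, ⟨1, 0, 0, 8, 3, 3, 3, 0⟩, ⟨4, 0, 0, 1, 4, 0, 0, 0⟩,
   ⟨1, 0, 0, 4, 4, 0, 0, 0⟩, ⟨0, 0, 0, 12, 0, 2, 1, 0⟩, ⟨12, 0, 0, 0, 0, 1, 2, 0⟩, ⟨4, 0, 0,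
   14, 4, 3, 0, 0⟩, ⟨14, 0, 0, 4, 4, 0, 3, 0⟩, ⟨8, 0, 0, 14, 4, 0, 0, 0⟩, ⟨14, 0, 0, 8, 4, 0,
   0, 0⟩, ⟨8, 0, 1, 14, 5, 0, 0, 0⟩, ⟨14, 0, -1, 8, 5, 0, 0, 0⟩, ⟨1, 0, 0, 5, 1, 1, 1, 1⟩, ⟨5,
   0, 0, 1, 1, 1, 1, 1⟩, ⟨5, 0, 0, 9, 2, 2, 1, 1⟩, ⟨9, 0, 0, 5, 2, 1, 2, 1⟩, ⟨9, 0, 0, 2, 3, 3,
   3, 1⟩, ⟨2, 0, 0, 9, 3, 3, 3, 1⟩, ⟨5, 0, 0, 2, 4, 0, 0, 1⟩, ⟨2, 0, 0, 5, 4, 0, 0, 1⟩, ⟨1, 0,
   0, 12, 0, 2, 2, 1⟩, ⟨12, 0, 0, 1, 0, 2, 2, 1⟩, ⟨5, 0, 1, 14, 4, 3, 0, 1⟩, ⟨14, 0, -1, 5, 4,
   0, 3, 1⟩, ⟨9, 0, 1, 14, 4, 0, 0, 1⟩, ⟨14, 0, -1, 9, 4, 0, 0, 1⟩, ⟨9, 1, 1, 14, 5, 0, 0, 1⟩,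
   ⟨14, -1, -1, 9, 5, 0, 0, 1⟩, ⟨2, 0, 0, 6, 1, 1, 1, 2⟩, ⟨6, 0, 0, 2, 1, 1, 1, 2⟩, ⟨6, 0, 0,
   10, 2, 2, 1, 2⟩, ⟨10, 0, 0, 6, 2, 1, 2, 2⟩, ⟨10, 0, 0, 3, 3, 3, 3, 2⟩, ⟨3, 0, 0, 10, 3, 3,
   3, 2⟩, ⟨6, 0, 0, 3, 4, 0, 0, 2⟩, ⟨3, 0, 0, 6, 4, 0, 0, 2⟩, ⟨2, 0, 0, 13, 0, 2, 2, 2⟩, ⟨13,
   0, 0, 2, 0, 2, 2, 2⟩, ⟨6, 1, 1, 14, 4, 3, 0, 2⟩, ⟨14, -1, -1, 6, 4, 0, 3, 2⟩, ⟨10, 1, 1, 14,
   4, 0, 0, 2⟩, ⟨14, -1, -1, 10, 4, 0, 0, 2⟩, ⟨10, 1, 0, 14, 5, 0, 0, 2⟩, ⟨14, -1, 0, 10, 5, 0,
   0, 2⟩, ⟨3, 0, 0, 7, 1, 1, 1, 3⟩, ⟨7, 0, 0, 3, 1, 1, 1, 3⟩, ⟨7, 0, 0, 11, 2, 2, 1, 3⟩, ⟨11,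
   0, 0, 7, 2, 1, 2, 3⟩, ⟨11, 0, 0, 0, 3, 3, 3, 3⟩, ⟨0, 0, 0, 11, 3, 3, 3, 3⟩, ⟨7, 0, 0, 0, 4,
   0, 0, 3⟩, ⟨0, 0, 0, 7, 4, 0, 0, 3⟩, ⟨3, 0, 0, 13, 0, 2, 3, 3⟩, ⟨13, 0, 0, 3, 0, 3, 2, 3⟩,
   ⟨7, 1, 0, 14, 4, 3, 0, 3⟩, ⟨14, -1, 0, 7, 4, 0, 3, 3⟩, ⟨11, 1, 0, 14, 4, 0, 0, 3⟩, ⟨14, -1,
   0, 11, 4, 0, 0, 3⟩, ⟨11, 0, 0, 14, 5, 0, 0, 3⟩, ⟨14, 0, 0, 11, 5, 0, 0, 3⟩, ⟨12, 0, 0, 13,
   0, 3, 1, 0⟩, ⟨13, 0, 0, 12, 0, 1, 3, 0⟩, ⟨8, -1, 0, 10, 0, 2, 2, 0⟩, ⟨9, 0, 1, 11, 0, 2, 2,
   0⟩, ⟨10, 1, 0, 8, 0, 2, 2, 0⟩, ⟨11, 0, -1, 9, 0, 2, 2, 0⟩]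

/-- table of the side function of the path edges -/
def yM : ℕ := 0x2000000000000000080000000004000000000000000000000000000000000000200000000000000008000000000400000000000000000000a000000000000000a0000000000400000c000000000400000c00000000000000a000000000000000a00000000004000008000000000400000800000000000000a000000000000000a00000000004000008000000000400000800000000000000a000000000000000a000000000040000080000000004000008000000000000000000000000040000040000000004000004000000000000002000000000000000000000000004000004000000000400000400000000000000200000000000000000000000000400000400000000040000040000000000000020000000000000000000000000040000040000000004000004000000000000002000000000000000000000000000000000000000000000000000000000040000080000000000000000000000000000000000000000000000000000000004000008000000000000000000000000000000000000000000000000000000000400000800000000000000000000000000000008000000000000000800000000040000000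

/-- table of the side function of the links -/
def eM : ℕ := 0xe2000000000000000060000000000000000008000000080000000000000000000000000066000000000000000000000000000000000000000000010000000000000000000000000040000000000000000000000000000000000000000000000000000000000000000000000000000000000000000000000000000000000000000000000000000000000000e000000000002000006000000000000000000000000000008000000000000000000800006000000000006000000000000000000000000000000000000000000000000000000100004000000000000000000000000000000300000000300000000000000000000000000002000000c00000000000000000000000000300000000300000000000000000000000000002000000c02000000000000000000000000500000000a000000000000000000090000000040e0000a04000000e00000000000000000500000000a000000000000000000090000000040e0000e04000000e00000000000000300000000000080000000000000000000000000020000000020000000000000000000000300000000000080000000000000000000000000020000000020200000000000000000000500000000000000000000000000000000900000004000000000000a0000000000000000050000000000000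0000000000000000000900000004000000040000a000000000000000000300000000800000000000000000000000000000002000200000000000000000000000000300000000800000000000000000000000000000002000200000200000000000000000000500000000000000000000000000000000900000400000000000000a00000000000000000500000000000000000000000000000000900000400000400000000a000000000000000000300000000800000000000000000000000000000002000200000000000000000000000000300000000800000000000000000000000000000002000200000200000000000000000000500000000000000000000000000000000900000040000000000000a00000000000000000500000000000000000000000000000000900000040000400000000a0000000000000000000000000000000000000000000000000000000000000000000000000000000000000000000000000a00000000000000000000000004000000000a00000000000000000000000000000000000a00000000000000000000000004000000000e00000000000000000000000000000000000800000000000000000000000000000000000e000000020000000000000000000000000000000000000000000000000000000000000000000000000000000000000000000000000000a000000000000000000000000040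00000000a00000000000000000000000000000000000a00000000000000000000000004000000000e00000000000000000000000000000000000800000000000000000000000000000000000e000000020000000000000000000000000000000000000000000000000000000000000000000000000000000000000000000000000000a00000000000000000000000004000000000a00000000000000000000000000000000000a00000000000000000000000004000000000e00000000000000000000000000000000000800000000000000000000000000000000000e000000020000000000000000000000000000000000000000000000000000000000000000000000000000000000000000000000000000a00000000000000000000000004000000000a00000000000000000000000000000000000a00000000000000000000000004000000000e00000000000000000000000000000000000800000000000000000000000000000000000e000000020000000000000000000000000000000000000000000000000000000000000000000000000000000000000000000000800000000000000000000000800000000000e00000800000000000000000000000000000800000000000000000000000800000000000e00800800000000000000500000000000000000000000000000000000000900000000000000a000a000000000000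0000000000000000000000000000000000000000000000000000000000000000000000000000000000000000800000000000000000000000080000000000e00000080000000000000000000000000000800000000000000000000000080000000000e000800800000000000000500000000000000000000000000000000000000900000000000000a000a0000000000000000000000000000000000000000000000000000000000000000000000000000000000000000000000000000800000000000000000000000080000000000e00000080000000000000000000000000000800000000000000000000000080000000000e000800800000000000000500000000000000000000000000000000000000900000000000000a000a0000000000000000000000000000000000000000000000000000000000000000000000000000000000600000000000000008000000000000000000000000080000000006600060000000000000600000000000000008000000000000000000000000080000000006e00060000000000000000000000000000000000000000000000000000000010000000000400040000000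

/-- the entry of the table of clusters -/
def Ent.base (e : Ent) : ℕ × ℤ × ℤ × ℕ := (e.k, e.dr, e.dc, e.k')

/-- the switches of a network -/
structure Net where
  /-- the pair between `J_i` and `T_i` is odd -/
  tx : ℤ → ℤ → ℕ → Bool
  /-- the pair between `T_i` and `V_{i+1}` is odd -/
  ty : ℤ → ℤ → ℕ → Bool
  /-- the additional edge between `T_i` and the next corner is present -/
  fo : ℤ → ℤ → ℕ → Bool

/-- the pairs of letters joined by an even or odd pair of edges -/
def two (odd : Bool) (X X' : ℕ) : List (ℕ × ℕ) :=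
  if odd then [(0, X'), (X, 0)] else [(0, 0), (X, X')]

/-- whether the pair of edges is odd -/
def Net.odd (N : Net) (r c : ℤ) (e : Ent) : Bool :=
  if e.code = 0 then false else if e.code = 1 then true else
    if e.code = 2 then N.tx r c e.idx else N.ty r c e.idx

/-- the pairs of letters joined by edges -/
def Net.lnk (N : Net) (r c : ℤ) (e : Ent) : List (ℕ × ℕ) :=
  if e.code < 4 then two (N.odd r c e) e.X e.X'
  else if e.code = 4 then [(e.X, e.X')]
  else if (if e.k = 14 then N.fo (r + e.dr) (c + e.dc) e.idx else N.fo r c e.idx) then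
    [(e.X, e.X')] else []

/-- the path in a cluster of kind `k` and state `s` -/
def pathOf (k s : ℕ) : List ℕ :=
  if k < 4 then (if s = 0 then [2, 0, 1, 3] else [3, 0, 1, 2])
  else if k < 8 then (if s = 0 then [1, 0, 2, 3] else [2, 0, 1, 3])
  else if k < 12 then (if s < 2 then [2, 0, 1, 3] else [1, 0, 2, 3])
  else (if s = 0 then [2, 0, 1, 3] else if s = 1 then [3, 0, 1, 2] else [1, 0, 2, 3])

/-- the number of states of a cluster of kind `k` -/
def nst (k : ℕ) : ℕ := if 8 ≤ k ∧ k < 12 then 4 else 3

/-- the ordered pairs of consecutive entries -/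
def conPairs : List ℕ → List (ℕ × ℕ)
  | a :: b :: l => (a, b) :: (b, a) :: conPairs (b :: l)
  | _ => []

/-- the cluster of a letter -/
def pr (u : V2) : V1 := (u.1, u.2.1, u.2.2.1)

/-- the graph of the letters, for given states of the clusters -/
def Adj2 (N : Net) (σ : V1 → ℕ) (u v : V2) : Prop :=
  (pr u = pr v ∧ u.2.2.1 < 14 ∧ (u.2.2.2, v.2.2.2) ∈ conPairs (pathOf u.2.2.1 (σ (pr u)))) ∨
    ∃ e ∈ E2, u.2.2.1 = e.k ∧ pr v = step (pr u) e.base ∧
      (u.2.2.2, v.2.2.2) ∈ N.lnk u.1 u.2.1 e

/-- the code of a direction -/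
def pcode (a b : ℤ) (k' : ℕ) : ℕ := if k' = 14 then 14 + (a * 2 + b).toNat else k'

/-- lookup in the table `yM` -/
def ybit2 (k s l m w : ℕ) : Bool :=
  Nat.testBit yM ((((k * 4 + s) * 4 + min l m) * 4 + max l m) * 4 + w)

/-- lookup in the table `eM` -/
def ebit2 (k s l pc w : ℕ) : Bool := Nat.testBit eM ((((k * 4 + s) * 4 + l) * 18 + pc) * 4 + w)

/-- the letters of the first cluster that are ends of a link -/
def lets (e : Ent) : List ℕ := if e.code < 4 then [0, e.X] else [e.X]

/-- the entry occurs in the state `s` -/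
def usable (k s : ℕ) (e : Ent) : Bool := !(decide (e.code = 5) && decide (2 ≤ s))

/-- the code of the direction of an entry -/
def Ent.pc (e : Ent) : ℕ := pcode e.dr e.dc e.k'

/-- the orientation of the pair `e` at its first end, in state `s` -/
def orient (s : ℕ) (e : Ent) : Bool :=
  decide (0 < e.X) ^^ ebit2 e.k s 0 e.pc e.X ^^ ebit2 e.k s e.X e.pc 0

/-- check of two edges of a path -/
def chk6 : Bool :=
  (List.range 14).all fun k => (List.range (nst k)).all fun s =>
    (conPairs (pathOf k s)).all fun a => (conPairs (pathOf k s)).all fun b =>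
      decide (a.1 = b.1) || decide (a.1 = b.2) || decide (a.2 = b.1) || decide (a.2 = b.2) ||
      !(decide (a.1 < b.1) ^^ decide (a.1 < b.2) ^^ decide (a.2 < b.1) ^^ decide (a.2 < b.2) ^^
        ybit2 k s a.1 a.2 b.1 ^^ ybit2 k s a.1 a.2 b.2 ^^ ybit2 k s b.1 b.2 a.1 ^^
        ybit2 k s b.1 b.2 a.2)

/-- check of a link and an edge of a path -/
def chk7 : Bool :=
  E2.all fun e => decide (e.k = 14) || (List.range (nst e.k)).all fun s => !(usable e.k s e) ||
    (lets e).all fun l => (conPairs (pathOf e.k s)).all fun a =>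
      decide (l = a.1) || decide (l = a.2) ||
      !(decide (l < a.1) ^^ decide (l < a.2) ^^ ebit2 e.k s l e.pc a.1 ^^
        ebit2 e.k s l e.pc a.2 ^^ ybit2 e.k s a.1 a.2 l)

/-- check of two links in different directions -/
def chk8 : Bool :=
  E2.all fun e => E2.all fun f => decide (e.k ≠ f.k) || decide (e.k = 14) ||
    decide (e.base = f.base) || (List.range (nst e.k)).all fun s => !(usable e.k s e) ||
      !(usable e.k s f) || (lets e).all fun l => (lets f).all fun m => decide (l = m) ||
      !(decide (l < m) ^^ ebit2 e.k s l e.pc m ^^ ebit2 e.k s m f.pc l ^^ K1 e.base f.base)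

theorem chk6_true : chk6 = true := by decide +kernel

theorem chk7_true : chk7 = true := by decide +kernel

theorem chk8_true : chk8 = true := by decide +kernel

theorem E2_base : (E2.all fun e => decide (e.base ∈ T1)) = true := by decide +kernel

/-- the reversed entry -/
def Ent.rev (e : Ent) : Ent := ⟨e.k', -e.dr, -e.dc, e.k, e.code, e.X', e.X, e.idx⟩

/-- structural properties of the table of links -/
def chk9 : Bool :=
  E2.all fun e => decide (e.rev ∈ E2) && !(decide (e.k = e.k') && decide (e.dr = 0) &&
    decide (e.dc = 0)) && (!(decide (e.code < 4)) || (decide (0 < e.X) && decide (0 < e.X'))) &&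
    (!(decide (e.code = 2) || decide (e.code = 3)) || (decide (e.dr = 0) && decide (e.dc = 0))) &&
    (!(decide (e.code = 5)) || (((decide (e.k = 14) && decide (e.k' ≠ 14)) ||
      (decide (e.k ≠ 14) && decide (e.k' = 14))) && decide (e.X = 0) &&
      decide (e.X' = 0) && (decide (e.k = 14) || decide (e.k = 8 + e.idx)) &&
      decide (e.idx < 4))) &&
    decide (e.code ≤ 5) && decide (e.k ≤ 14) &&
    (decide (e.k ≠ 14) || (decide (4 ≤ e.code) && decide (e.X = 0)))

/-- an entry is determined by its ends -/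
def chk10 : Bool := E2.all fun e => E2.all fun f => decide (e.base ≠ f.base) || decide (e = f)

theorem chk9_true : chk9 = true := by decide +kernel

theorem chk10_true : chk10 = true := by decide +kernel

theorem E2_facts {e : Ent} (he : e ∈ E2) : e.rev ∈ E2 ∧ ¬ (e.k = e.k' ∧ e.dr = 0 ∧ e.dc = 0) ∧
    (e.code < 4 → 0 < e.X ∧ 0 < e.X') ∧ (e.code = 2 ∨ e.code = 3 → e.dr = 0 ∧ e.dc = 0) ∧
    (e.code = 5 → ((e.k = 14 ∧ e.k' ≠ 14) ∨ (e.k ≠ 14 ∧ e.k' = 14)) ∧ e.X = 0 ∧ e.X' = 0 ∧
      (e.k = 14 ∨ e.k = 8 + e.idx) ∧ e.idx < 4) ∧ e.code ≤ 5 ∧ e.base ∈ T1 ∧ e.k ≤ 14 ∧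
    (e.k = 14 → 4 ≤ e.code ∧ e.X = 0) := by
  have h := chk9_true
  unfold chk9 at h
  rw [List.all_eq_true] at h
  have h := h e he
  have h' := E2_base
  rw [List.all_eq_true] at h'
  have h' := h' e he
  simp only [Bool.and_eq_true, Bool.not_eq_true', Bool.and_eq_false_iff, Bool.or_eq_true,
    decide_eq_true_eq, decide_eq_false_iff_not, Bool.or_eq_false_iff] at h h'
  obtain ⟨⟨⟨⟨⟨⟨⟨h1, h2⟩, h3⟩, h4⟩, h5⟩, h6⟩, h7⟩, h8⟩ := h
  exact ⟨h1, by tauto, by tauto, by tauto, by tauto, h6, h', h7, by tauto⟩

theorem step_ne {z : V1} {e : Ent} (he : e ∈ E2) (hk : z.2.2 = e.k) : step z e.base ≠ z := by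
  intro h
  have h2 := (E2_facts he).2.1
  apply h2
  unfold step Ent.base at h
  rw [Prod.ext_iff, Prod.ext_iff] at h
  simp only at h
  obtain ⟨a1, a2, a3⟩ := h
  exact ⟨by omega, by omega, by omega⟩

theorem step_inj {z : V1} {e f : Ent} (he : e ∈ E2) (hf : f ∈ E2) (hk : z.2.2 = e.k)
    (hk' : z.2.2 = f.k) (h : step z e.base = step z f.base) : e = f := by
  have := all_all chk10_true he hf
  have hb : e.base = f.base := by
    unfold step Ent.base at h
    unfold Ent.base
    rw [Prod.ext_iff, Prod.ext_iff] at h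
    simp only at h
    obtain ⟨a1, a2, a3⟩ := h
    rw [Prod.mk.injEq, Prod.mk.injEq, Prod.mk.injEq]
    exact ⟨by omega, by omega, by omega, by omega⟩
  simpa [hb] using this

theorem conPairs_symm : ∀ (l : List ℕ) (a b : ℕ), (a, b) ∈ conPairs l → (b, a) ∈ conPairs l
  | [], a, b, h => by simp [conPairs] at h
  | [x], a, b, h => by simp [conPairs] at h
  | x :: y :: l, a, b, h => by
    simp only [conPairs, List.mem_cons, Prod.mk.injEq] at h ⊢
    rcases h with h | h | h
    · exact Or.inr (Or.inl ⟨h.2, h.1⟩)
    · exact Or.inl ⟨h.2, h.1⟩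
    · exact Or.inr (Or.inr (conPairs_symm (y :: l) a b h))

theorem step_rev (z : V1) (e : Ent) (hk : z.2.2 = e.k) : step (step z e.base) e.rev.base = z := by
  unfold step Ent.base Ent.rev
  simp only [add_neg_cancel_right, ← hk]

theorem lnk_symm (N : Net) {z : V1} {e : Ent} (he : e ∈ E2) {l m : ℕ}
    (h : (l, m) ∈ N.lnk z.1 z.2.1 e) :
    (m, l) ∈ N.lnk (step z e.base).1 (step z e.base).2.1 e.rev := by
  obtain ⟨f1, f2, f3, f4, f5, f6, f7, -, -⟩ := E2_facts he
  unfold Net.lnk at h ⊢
  have ec : e.rev.code = e.code := rfl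
  have eX : e.rev.X = e.X' := rfl
  have eX' : e.rev.X' = e.X := rfl
  rw [ec, eX, eX']
  by_cases h4 : e.code < 4
  · rw [if_pos h4] at h ⊢
    have ho : N.odd (step z e.base).1 (step z e.base).2.1 e.rev = N.odd z.1 z.2.1 e := by
      unfold Net.odd
      rw [ec]
      by_cases h0 : e.code = 0
      · rw [if_pos h0, if_pos h0]
      · by_cases h1 : e.code = 1
        · rw [if_neg h0, if_pos h1, if_neg h0, if_pos h1]
        · have h23 : e.code = 2 ∨ e.code = 3 := by omega
          have hd := f4 h23
          have e1 : (step z e.base).1 = z.1 := by unfold step Ent.base; simp [hd.1]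
          have e2 : (step z e.base).2.1 = z.2.1 := by unfold step Ent.base; simp [hd.2]
          rw [e1, e2]
          rfl
    rw [ho]
    unfold two at h ⊢
    split_ifs at h ⊢
    · simp only [List.mem_cons, Prod.mk.injEq, List.not_mem_nil, or_false] at h ⊢
      omega
    · simp only [List.mem_cons, Prod.mk.injEq, List.not_mem_nil, or_false] at h ⊢
      omega
  · rw [if_neg h4] at h ⊢
    by_cases h5 : e.code = 4
    · rw [if_pos h5] at h ⊢
      simp only [List.mem_cons, Prod.mk.injEq, List.not_mem_nil, or_false] at h ⊢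
      omega
    · rw [if_neg h5] at h ⊢
      have h55 : e.code = 5 := by omega
      obtain ⟨g1, g2, g3, g4, -⟩ := f5 h55
      have hf : (if e.rev.k = 14 then N.fo ((step z e.base).1 + e.rev.dr)
          ((step z e.base).2.1 + e.rev.dc) e.rev.idx else
          N.fo (step z e.base).1 (step z e.base).2.1 e.rev.idx) =
          (if e.k = 14 then N.fo (z.1 + e.dr) (z.2.1 + e.dc) e.idx else
            N.fo z.1 z.2.1 e.idx) := by
        have k1 : e.rev.k = e.k' := rfl
        have k2 : e.rev.idx = e.idx := rfl
        have k3 : e.rev.dr = - e.dr := rfl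
        have k4 : e.rev.dc = - e.dc := rfl
        have k5 : (step z e.base).1 = z.1 + e.dr := rfl
        have k6 : (step z e.base).2.1 = z.2.1 + e.dc := rfl
        rw [k1, k2, k3, k4, k5, k6]
        rcases g1 with ⟨g1, g1'⟩ | ⟨g1, g1'⟩
        · rw [if_neg g1', if_pos g1]
        · rw [if_pos g1', if_neg g1, add_neg_cancel_right, add_neg_cancel_right]
      rw [hf]
      split_ifs at h ⊢ <;>
        simp only [List.mem_cons, Prod.mk.injEq, List.not_mem_nil, or_false] at h ⊢ <;> omega

theorem Adj2.symm (N : Net) (σ : V1 → ℕ) {u v : V2} (h : Adj2 N σ u v) : Adj2 N σ v u := by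
  rcases h with ⟨h1, h2, h3⟩ | ⟨e, he, h1, h2, h3⟩
  · left
    have hk : v.2.2.1 = u.2.2.1 := by
      have := congrArg (fun z : V1 => z.2.2) h1
      exact this.symm
    refine ⟨h1.symm, by rw [hk]; exact h2, ?_⟩
    rw [← h1, hk]
    exact conPairs_symm _ _ _ h3
  · right
    refine ⟨e.rev, (E2_facts he).1, ?_, ?_, ?_⟩
    · have := congrArg (fun z : V1 => z.2.2) h2
      exact this
    · rw [h2, step_rev _ _ h1]
    · have := lnk_symm N (z := pr u) he h3
      rw [← h2] at this
      exact this

/-- the states of the clusters fit together -/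
structure Fits (N : Net) (σ : V1 → ℕ) : Prop where
  lt : ∀ z : V1, z.2.2 < 14 → σ z < nst z.2.2
  forced : ∀ z : V1, ∀ i < 4, z.2.2 = 8 + i → N.fo z.1 z.2.1 i = true → σ z < 2
  pair : ∀ z : V1, ∀ e ∈ E2, z.2.2 = e.k → e.code < 4 →
    (orient (σ z) e ^^ orient (σ (step z e.base)) e.rev) = !(N.odd z.1 z.2.1 e)

/-- the side function of the links -/
def eta2 (σ : V1 → ℕ) (u v w : V2) : Bool :=
  ebit2 u.2.2.1 (σ (pr u)) u.2.2.2 (pcode (v.1 - u.1) (v.2.1 - u.2.1) v.2.2.1) w.2.2.2

theorem eta2_eq (σ : V1 → ℕ) {u v w : V2} {e : Ent} (h1 : u.2.2.1 = e.k)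
    (h2 : pr v = step (pr u) e.base) :
    eta2 σ u v w = ebit2 e.k (σ (pr u)) u.2.2.2 e.pc w.2.2.2 := by
  unfold eta2 Ent.pc
  have a1 : v.1 = u.1 + e.dr := congrArg (fun z : V1 => z.1) h2
  have a2 : v.2.1 = u.2.1 + e.dc := congrArg (fun z : V1 => z.2.1) h2
  have a3 : v.2.2.1 = e.k' := congrArg (fun z : V1 => z.2.2) h2
  rw [a1, a2, a3, h1, add_sub_cancel_left, add_sub_cancel_left]

theorem lets_of_lnk (N : Net) {r c : ℤ} {e : Ent} {l m : ℕ} (h : (l, m) ∈ N.lnk r c e) :
    l ∈ lets e := by
  unfold Net.lnk at h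
  unfold lets
  by_cases h4 : e.code < 4
  · rw [if_pos h4] at h ⊢
    unfold two at h
    split_ifs at h <;>
      simp only [List.mem_cons, Prod.mk.injEq, List.not_mem_nil, or_false] at h ⊢ <;> omega
  · rw [if_neg h4] at h ⊢
    split_ifs at h <;>
      simp only [List.mem_cons, Prod.mk.injEq, List.not_mem_nil, or_false] at h ⊢ <;> omega

theorem usable_of_lnk {N : Net} {σ : V1 → ℕ} (hF : Fits N σ) {z : V1} {e : Ent} (he : e ∈ E2)
    (hk : z.2.2 = e.k) (hz : z.2.2 < 14) {l m : ℕ} (h : (l, m) ∈ N.lnk z.1 z.2.1 e) :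
    usable e.k (σ z) e = true := by
  unfold usable
  by_cases h5 : e.code = 5
  · obtain ⟨g1, g2, g3, g4, g5⟩ := (E2_facts he).2.2.2.2.1 h5
    have hk14 : e.k ≠ 14 := by omega
    unfold Net.lnk at h
    rw [if_neg (by omega), if_neg (by omega), if_neg hk14] at h
    split_ifs at h with hfo
    · have := hF.forced z e.idx g5 (by omega) hfo
      have h2 : ¬ (2 ≤ σ z) := by omega
      simp [h2]
    · simp at h
  · simp [h5]

theorem intra_of {N : Net} {σ : V1 → ℕ} {u v : V2} (h : Adj2 N σ u v) (hp : pr u = pr v) :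
    u.2.2.1 < 14 ∧ (u.2.2.2, v.2.2.2) ∈ conPairs (pathOf u.2.2.1 (σ (pr u))) := by
  rcases h with ⟨h1, h2, h3⟩ | ⟨e, he, h1, h2, h3⟩
  · exact ⟨h2, h3⟩
  · exfalso
    exact step_ne (z := pr u) he h1 (by rw [← h2, hp])

theorem inter_of {N : Net} {σ : V1 → ℕ} {u v : V2} (h : Adj2 N σ u v) (hp : pr u ≠ pr v) :
    ∃ e ∈ E2, u.2.2.1 = e.k ∧ pr v = step (pr u) e.base ∧
      (u.2.2.2, v.2.2.2) ∈ N.lnk u.1 u.2.1 e := by
  rcases h with ⟨h1, h2, h3⟩ | h
  · exact absurd h1 hp
  · exact h

theorem eq_of_letter {u v : V2} (h : pr u = pr v) (hl : u.2.2.2 = v.2.2.2) : u = v := by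
  have a1 : u.1 = v.1 := congrArg (fun z : V1 => z.1) h
  have a2 : u.2.1 = v.2.1 := congrArg (fun z : V1 => z.2.1) h
  have a3 : u.2.2.1 = v.2.2.1 := congrArg (fun z : V1 => z.2.2) h
  ext
  · exact a1
  · exact a2
  · exact a3
  · exact hl

/-- the certificate of the graph of the letters -/
def C2 (N : Net) (σ : V1 → ℕ) (hF : Fits N σ) : Cert (Adj2 N σ) :=
  C1.subst pr (fun _ _ h => h.symm)
    (by
      intro u v h hne
      obtain ⟨e, he, h1, h2, h3⟩ := inter_of h hne
      exact ⟨e.base, (E2_facts he).2.2.2.2.2.2.1, h1, h2⟩)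
    (fun u v => decide (u.2.2.2 < v.2.2.2))
    (fun u v w => ybit2 u.2.2.1 (σ (pr u)) u.2.2.2 v.2.2.2 w.2.2.2)
    (eta2 σ)
    (by
      intro u v h hne
      have hk : u.2.2.2 ≠ v.2.2.2 := fun hk => hne (eq_of_letter h hk)
      rcases lt_or_gt_of_ne hk with h | h
      · simp [h, not_lt_of_gt h]
      · simp [h, not_lt_of_gt h])
    (by
      intro u v w h
      have a3 : u.2.2.1 = v.2.2.1 := congrArg (fun z : V1 => z.2.2) h
      rw [h, a3]
      unfold ybit2
      rw [min_comm, max_comm])
    (by
      intro u v w x huv hwx h1 h2 h3 h4 h5 h6 h7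
      obtain ⟨b1, b2⟩ := intra_of huv h1
      obtain ⟨c1, c2⟩ := intra_of hwx (h2.symm.trans h3)
      have a3 : u.2.2.1 = w.2.2.1 := congrArg (fun z : V1 => z.2.2) h2
      rw [← h2, ← a3] at c2
      have hc := chk6_true
      unfold chk6 at hc
      rw [List.all_eq_true] at hc
      have hc := hc u.2.2.1 (List.mem_range.2 b1)
      rw [List.all_eq_true] at hc
      have hc := hc (σ (pr u)) (List.mem_range.2 (hF.lt (pr u) b1))
      rw [List.all_eq_true] at hc
      have hc := hc _ b2
      rw [List.all_eq_true] at hc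
      have hc := hc _ c2
      have n1 : ¬ u.2.2.2 = w.2.2.2 := fun h => h4 (eq_of_letter h2 h)
      have n2 : ¬ u.2.2.2 = x.2.2.2 := fun h => h5 (eq_of_letter h3 h)
      have n3 : ¬ v.2.2.2 = w.2.2.2 := fun h => h6 (eq_of_letter (h1.symm.trans h2) h)
      have n4 : ¬ v.2.2.2 = x.2.2.2 := fun h => h7 (eq_of_letter (h1.symm.trans h3) h)
      simp only [n1, n2, n3, n4, decide_false, Bool.or_self, Bool.false_or,
        Bool.not_eq_true'] at hc
      rw [← h2, ← a3]
      exact hc)
    (by
      intro u v w x huv hwx h1 h2 h3 h4 h5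
      obtain ⟨e, he, b1, b2, b3⟩ := inter_of huv h1
      obtain ⟨c1, c2⟩ := intra_of hwx (h2.symm.trans h3)
      have a3 : u.2.2.1 = w.2.2.1 := congrArg (fun z : V1 => z.2.2) h2
      rw [← h2, ← a3, b1] at c2
      rw [← a3] at c1
      have hc := chk7_true
      unfold chk7 at hc
      rw [List.all_eq_true] at hc
      have hc := hc e he
      have n0 : ¬ e.k = 14 := by omega
      simp only [n0, decide_false, Bool.false_or] at hc
      rw [List.all_eq_true] at hc
      have hc := hc (σ (pr u)) (List.mem_range.2 (by rw [← b1]; exact hF.lt (pr u) c1))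
      rw [usable_of_lnk hF (z := pr u) he b1 c1 b3] at hc
      simp only [Bool.not_true, Bool.false_or] at hc
      rw [List.all_eq_true] at hc
      have hc := hc _ (lets_of_lnk N b3)
      rw [List.all_eq_true] at hc
      have hc := hc _ c2
      have n1 : ¬ u.2.2.2 = w.2.2.2 := fun h => h4 (eq_of_letter h2 h)
      have n2 : ¬ u.2.2.2 = x.2.2.2 := fun h => h5 (eq_of_letter h3 h)
      simp only [n1, n2, decide_false, Bool.or_self, Bool.false_or, Bool.not_eq_true'] at hc
      rw [eta2_eq σ b1 b2, eta2_eq σ b1 b2, ← h2, ← a3, b1]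
      exact hc)
    (by
      intro u v w x huv hwx h1 h2 h3 h4 h5
      obtain ⟨e, he, b1, b2, b3⟩ := inter_of huv h2
      obtain ⟨f, hf, c1, c2, c3⟩ := inter_of hwx (by rw [← h1]; exact h3)
      have a3 : u.2.2.1 = w.2.2.1 := congrArg (fun z : V1 => z.2.2) h1
      have hlt : u.2.2.1 < 14 := by
        have g1 := (E2_facts he).2.2.2.2.2.2.2
        have g2 := (E2_facts hf).2.2.2.2.2.2.2
        rcases Nat.lt_or_ge e.k 14 with h | h
        · omega
        · exfalso
          apply h5
          apply eq_of_letter h1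
          have k1 := g1.2 (by omega)
          have k2 := g2.2 (by omega)
          have l1 := lets_of_lnk N b3
          have l2 := lets_of_lnk N c3
          unfold lets at l1 l2
          rw [if_neg (by omega)] at l1 l2
          simp only [List.mem_cons, List.not_mem_nil, or_false] at l1 l2
          omega
      have hc := all_all chk8_true he hf
      have n0 : ¬ e.k = 14 := by omega
      have n1 : e.k = f.k := by omega
      have n2 : ¬ e.base = f.base := by
        intro h
        apply h4
        rw [b2, c2, h, h1]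
      simp only [n0, n1.symm, n2, ne_eq, not_true_eq_false, decide_false, Bool.false_or,
        Bool.or_self] at hc
      rw [List.all_eq_true] at hc
      have hc := hc (σ (pr u)) (List.mem_range.2 (by rw [← b1]; exact hF.lt (pr u) hlt))
      have u1 := usable_of_lnk hF (z := pr u) he b1 hlt b3
      have u2 := usable_of_lnk hF (z := pr w) hf c1 (by
        show w.2.2.1 < 14
        omega) c3
      rw [← h1] at u2
      rw [← n1] at u2
      rw [u1, u2] at hc
      simp only [Bool.not_true, Bool.false_or] at hc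
      rw [List.all_eq_true] at hc
      have hc := hc _ (lets_of_lnk N b3)
      rw [List.all_eq_true] at hc
      have hc := hc _ (lets_of_lnk N c3)
      have n3 : ¬ u.2.2.2 = w.2.2.2 := fun h => h5 (eq_of_letter h1 h)
      simp only [n3, decide_false, Bool.false_or, Bool.not_eq_true'] at hc
      rw [eta2_eq σ b1 b2, eta2_eq σ c1 c2, b2, c2, ← h1,
        kappa_C1 (pr u) (E2_facts he).2.2.2.2.2.2.1 (E2_facts hf).2.2.2.2.2.2.1 b1 (a3.trans c1) n2
          (by show u.2.2.1 ≠ 14; omega), ← n1]
      rw [z2_iff_false] at hc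
      rw [z2_eq]
      simp only [z2_xor] at hc ⊢
      grind)
    (by
      intro u v w x huv hwx h1 h2 h3 h4 h5
      obtain ⟨e, he, b1, b2, b3⟩ := inter_of huv h3
      obtain ⟨f, hf, c1, c2, c3⟩ := inter_of hwx (by rw [← h1, ← h2]; exact h3)
      have a3 : u.2.2.1 = w.2.2.1 := congrArg (fun z : V1 => z.2.2) h1
      have hef : e = f := by
        apply step_inj (z := pr u) he hf b1 (a3.trans c1)
        rw [← b2, h2, c2, h1]
      subst hef
      have n1 : ¬ u.2.2.2 = w.2.2.2 := fun h => h4 (eq_of_letter h1 h)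
      have n2 : ¬ v.2.2.2 = x.2.2.2 := fun h => h5 (eq_of_letter h2 h)
      have d1 : v.2.2.1 = e.rev.k := congrArg (fun z : V1 => z.2.2) b2
      have d2 : pr u = step (pr v) e.rev.base := by rw [b2, step_rev _ _ b1]
      have d3 : x.2.2.1 = e.rev.k := congrArg (fun z : V1 => z.2.2) c2
      have d4 : pr w = step (pr x) e.rev.base := by rw [c2, step_rev _ _ c1]
      rw [eta2_eq σ b1 b2, eta2_eq σ c1 c2, eta2_eq σ d1 d2, eta2_eq σ d3 d4, ← h1, ← h2]
      have cw : w.1 = u.1 := (congrArg (fun z : V1 => z.1) h1).symm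
      have cw' : w.2.1 = u.2.1 := (congrArg (fun z : V1 => z.2.1) h1).symm
      rw [cw, cw'] at c3
      by_cases h4' : e.code < 4
      · have hp := hF.pair (pr u) e he b1 h4'
        rw [← b2] at hp
        obtain ⟨x1, x2⟩ := (E2_facts he).2.2.1 h4'
        have x1' : ¬ e.X < 0 := by omega
        have x2' : ¬ e.X' < 0 := by omega
        unfold orient at hp
        have eX : e.rev.X = e.X' := rfl
        rw [eX] at hp
        unfold Net.lnk at b3 c3
        rw [if_pos h4'] at b3 c3
        have ho : N.odd (pr u).1 (pr u).2.1 e = N.odd u.1 u.2.1 e := rfl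
        rw [ho] at hp
        cases hodd : N.odd u.1 u.2.1 e
        · rw [hodd] at b3 c3 hp
          simp only [two, Bool.false_eq_true, if_false, List.mem_cons, Prod.mk.injEq,
            List.not_mem_nil, or_false] at b3 c3
          rcases b3 with b3 | b3 <;> rcases c3 with c3 | c3
          · omega
          · rw [b3.1, b3.2, c3.1, c3.2]
            simp only [x1, x2, decide_true] at hp ⊢
            rw [z2_eq] at hp ⊢
            simp only [z2_xor, Bool.not_false] at hp ⊢
            grind
          · rw [b3.1, b3.2, c3.1, c3.2]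
            simp only [x1, x2, x1', x2', decide_true, decide_false] at hp ⊢
            rw [z2_eq] at hp ⊢
            simp only [z2_xor, Bool.not_false, z2_true, z2_false] at hp ⊢
            grind
          · omega
        · rw [hodd] at b3 c3 hp
          simp only [two, if_true, List.mem_cons, Prod.mk.injEq,
            List.not_mem_nil, or_false] at b3 c3
          rcases b3 with b3 | b3 <;> rcases c3 with c3 | c3
          · omega
          · rw [b3.1, b3.2, c3.1, c3.2]
            simp only [x1, x2, x1', x2', decide_true, decide_false] at hp ⊢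
            rw [z2_eq] at hp ⊢
            simp only [z2_xor, Bool.not_true, z2_true, z2_false] at hp ⊢
            grind
          · rw [b3.1, b3.2, c3.1, c3.2]
            simp only [x1, x2, x1', x2', decide_true, decide_false] at hp ⊢
            rw [z2_eq] at hp ⊢
            simp only [z2_xor, Bool.not_true, z2_true, z2_false] at hp ⊢
            grind
          · omega
      · exfalso
        unfold Net.lnk at b3 c3
        rw [if_neg h4'] at b3 c3
        split_ifs at b3 c3 <;>
          simp only [List.mem_cons, Prod.mk.injEq, List.not_mem_nil, or_false] at b3 c3 <;> omega)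

end Pool.Agent.MP_f692a6_lc
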