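import Pool.Agent.MP_f692a6_lc.Letters

/-!
# Minors in the graph of the letters
-/

set_option autoImplicit false

namespace Pool.Agent.MP_f692a6_lc

/-- the letter `l` of the cluster `z` -/
def lt (z : V1) (l : ℕ) : V2 := (z.1, z.2.1, z.2.2, l)

/-- the letters `L` of the cluster `z` -/
def lset (z : V1) (L : List ℕ) : Set V2 := {u | ∃ l ∈ L, u = lt z l}

/-- the cluster `z` is cut into the letters `0, s` and the other letters -/
def Split (G : SimpleGraph V2) (z : V1) (s : ℕ) : Prop :=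
  (G.induce (lset z [0, s])).Connected ∧
    (G.induce (lset z ([1, 2, 3].filter fun l => l ≠ s))).Connected ∧
    ∃ l ∈ [0, s], ∃ l' ∈ [1, 2, 3].filter (fun l => l ≠ s), G.Adj (lt z l) (lt z l')

/-- `G` contains the network, and a path in each cluster -/
structure Real (N : Net) (val : V1 → Prop) (G : SimpleGraph V2) : Prop where
  planar : ¬ HasMinor (completeBipartiteGraph (Fin 3) (Fin 3)) G
  lnk : ∀ z : V1, ∀ e ∈ E2, z.2.2 = e.k → val z → val (step z e.base) → ∀ p ∈ N.lnk z.1 z.2.1 e,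
    G.Adj (lt z p.1) (lt (step z e.base) p.2)
  path : ∀ z : V1, val z → z.2.2 < 14 → ∃ l : List ℕ, l.Perm [0, 1, 2, 3] ∧
    ∀ a b, [a, b] <:+: l → G.Adj (lt z a) (lt z b)

/-- items: offset of the cell, kind, part: `0` is the whole cluster, `1 + s` are the letters `0, s`
and `5 + s` are the other letters -/
abbrev Itm := ℤ × ℤ × ℕ × ℕ

/-- the letters of an item -/
def lts (k p : ℕ) : List ℕ :=
  if p = 0 then (if k = 14 then [0] else [0, 1, 2, 3]) else if p < 5 then [0, p - 1] else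
    [1, 2, 3].filter fun l => l ≠ p - 5

/-- the assumptions of a certificate: the cut clusters, the even pairs, the forced terminals -/
structure Asm where
  /-- the cut clusters -/
  sp : List (ℤ × ℤ × ℕ × ℕ)
  /-- the pairs that are known to be even -/
  ev : List (ℤ × ℤ × ℕ × ℕ)
  /-- the forced terminals -/
  fo : List (ℤ × ℤ × ℕ)
deriving DecidableEq

/-- the item is admissible -/
def okI (A : Asm) (i : Itm) : Bool :=
  decide (-1 ≤ i.1) && decide (i.1 ≤ 2) && decide (-1 ≤ i.2.1) && decide (i.2.1 ≤ 2) &&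
    decide (i.2.2.1 ≤ 14) && (decide (i.2.2.2 = 0) ||
      (decide (i.2.2.2 ≤ 8) && decide ((i.1, i.2.1, i.2.2.1, (i.2.2.2 - 1) % 4) ∈ A.sp)))

/-- the possible parities of a pair -/
def pars (A : Asm) (a b : ℤ) (e : Ent) : List Bool :=
  if e.code = 0 then [false] else if e.code = 1 then [true] else
    if (a, b, e.code, e.idx) ∈ A.ev then [false] else [false, true]

/-- the link `e` joins the letters `L` and `L'` -/
def lnkI (A : Asm) (a b : ℤ) (e : Ent) (L L' : List ℕ) : Bool :=
  if e.code < 4 then (pars A a b e).all fun o => (two o e.X e.X').any fun q =>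
    decide (q.1 ∈ L) && decide (q.2 ∈ L')
  else (decide (e.code = 4) ||
      decide ((if e.k = 14 then (a + e.dr, b + e.dc, e.idx) else (a, b, e.idx)) ∈ A.fo)) &&
    decide (e.X ∈ L) && decide (e.X' ∈ L')

/-- the items are adjacent -/
def adjI (A : Asm) (i j : Itm) : Bool :=
  (decide (i.1 = j.1) && decide (i.2.1 = j.2.1) && decide (i.2.2.1 = j.2.2.1) &&
    ((decide (1 ≤ i.2.2.2) && decide (i.2.2.2 ≤ 4) && decide (j.2.2.2 = i.2.2.2 + 4)) ||
      (decide (1 ≤ j.2.2.2) && decide (j.2.2.2 ≤ 4) && decide (i.2.2.2 = j.2.2.2 + 4)))) ||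
  E2.any fun e => decide (i.2.2.1 = e.k) && decide (j.1 = i.1 + e.dr) &&
    decide (j.2.1 = i.2.1 + e.dc) && decide (j.2.2.1 = e.k') &&
    lnkI A i.1 i.2.1 e (lts i.2.2.1 i.2.2.2) (lts j.2.2.1 j.2.2.2)

/-- the items are disjoint -/
def disI (i j : Itm) : Bool :=
  decide (i.1 ≠ j.1) || decide (i.2.1 ≠ j.2.1) || decide (i.2.2.1 ≠ j.2.2.1) ||
    (lts i.2.2.1 i.2.2.2).all fun l => !(decide (l ∈ lts j.2.2.1 j.2.2.2))

/-- the items form a connected set -/
def conI (A : Asm) : List Itm → Bool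
  | [] => false
  | [i] => okI A i
  | i :: j :: l => okI A i && (j :: l).any (adjI A i) && conI A (j :: l)

/-- certificates -/
def chk33 (A : Asm) (B : List (List Itm)) : Bool :=
  decide (B.length = 6) && B.all (conI A) &&
    ((List.range 6).all fun m => (List.range 6).all fun n => decide (m = n) ||
      (B.getD m []).all fun i => (B.getD n []).all fun j => disI i j) &&
    ((List.range 3).all fun m => (List.range 3).all fun n =>
      (B.getD m []).any fun i => (B.getD (n + 3) []).any fun j => adjI A i j)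

/-- the cluster of an item -/
def icl (r c : ℤ) (i : Itm) : V1 := (r + i.1, c + i.2.1, i.2.2.1)

/-- the set of an item -/
def iset (r c : ℤ) (i : Itm) : Set V2 := lset (icl r c i) (lts i.2.2.1 i.2.2.2)

/-- the set of a list of items -/
def bset (r c : ℤ) (B : List Itm) : Set V2 := {u | ∃ i ∈ B, u ∈ iset r c i}

/-- the assumptions hold at the cell `(r, c)` -/
structure Asm.Holds (A : Asm) (N : Net) (val : V1 → Prop) (G : SimpleGraph V2) (r c : ℤ) :
    Prop where
  val : ∀ a b : ℤ, ∀ k : ℕ, -1 ≤ a → a ≤ 2 → -1 ≤ b → b ≤ 2 → k ≤ 14 → val (r + a, c + b, k)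
  sp : ∀ q ∈ A.sp, Split G (r + q.1, c + q.2.1, q.2.2.1) q.2.2.2
  ev : ∀ q ∈ A.ev, (q.2.2.1 = 2 → N.tx (r + q.1) (c + q.2.1) q.2.2.2 = false) ∧
    (q.2.2.1 = 3 → N.ty (r + q.1) (c + q.2.1) q.2.2.2 = false)
  fo : ∀ q ∈ A.fo, N.fo (r + q.1) (c + q.2.1) q.2.2 = true

end Pool.Agent.MP_f692a6_lc
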