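import Pool.Agent.MP_f692a6_lc.Certs

/-!
# Correctness of the certificates
-/

set_option autoImplicit false

namespace Pool.Agent.MP_f692a6_lc

variable {N : Net} {val : V1 → Prop} {G : SimpleGraph V2}

theorem lset_congr {z : V1} {L L' : List ℕ} (h : ∀ x, x ∈ L ↔ x ∈ L') : lset z L = lset z L' := by
  ext u
  unfold lset
  simp only [Set.mem_ofPred_eq, h]

theorem conn_singleton (G : SimpleGraph V2) (x : V2) : (G.induce {x}).Connected := by
  have : Nonempty ({x} : Set V2) := ⟨⟨x, rfl⟩⟩
  refine SimpleGraph.Connected.mk ?_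
  rintro ⟨a, ha⟩ ⟨b, hb⟩
  have : (⟨a, ha⟩ : ({x} : Set V2)) = ⟨b, hb⟩ := Subtype.ext (ha.trans hb.symm)
  rw [this]

theorem lset_single (z : V1) (a : ℕ) : lset z [a] = {lt z a} := by
  ext u
  simp [lset]

theorem chain_conn {z : V1} : ∀ (m : List ℕ), m ≠ [] →
    (∀ a b, [a, b] <:+: m → G.Adj (lt z a) (lt z b)) → (G.induce (lset z m)).Connected
  | [], h, _ => absurd rfl h
  | [a], _, _ => by
    rw [lset_single]
    exact conn_singleton G _
  | a :: b :: m, _, h => by
    have h1 := chain_conn (z := z) (b :: m) (by simp) (fun x y hxy => h x y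
      (hxy.trans (List.suffix_cons a _).isInfix))
    have h2 := h a b ⟨[], m, rfl⟩
    have e : lset z (a :: b :: m) = {lt z a} ∪ lset z (b :: m) := by
      ext u
      simp [lset]
    rw [e]
    exact G.connected_induce_union (conn_singleton G _).preconnected h1.preconnected rfl
      ⟨b, by simp, rfl⟩ h2

theorem cut_conn {z : V1} (l₁ l₂ : List ℕ) (h₁ : l₁ ≠ []) (h₂ : l₂ ≠ [])
    (h : ∀ a b, [a, b] <:+: l₁ ++ l₂ → G.Adj (lt z a) (lt z b)) :
    (G.induce (lset z l₁)).Connected ∧ (G.induce (lset z l₂)).Connected ∧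
      ∃ a ∈ l₁, ∃ b ∈ l₂, G.Adj (lt z a) (lt z b) := by
  refine ⟨chain_conn l₁ h₁ fun a b hab => h a b (hab.trans (List.prefix_append l₁ l₂).isInfix),
    chain_conn l₂ h₂ fun a b hab => h a b (hab.trans (List.suffix_append l₁ l₂).isInfix), ?_⟩
  obtain ⟨m, a, rfl⟩ := List.eq_nil_or_concat l₁ |>.resolve_left h₁
  obtain ⟨b, m', rfl⟩ := List.exists_cons_of_ne_nil h₂
  exact ⟨a, by simp, b, by simp, h a b ⟨m, m', by simp⟩⟩

/-- the lists have the same members -/
def same (L L' : List ℕ) : Bool := L.all (fun x => decide (x ∈ L')) && L'.all fun x => decide (x ∈ L)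

theorem same_iff {L L' : List ℕ} (h : same L L' = true) : ∀ x, x ∈ L ↔ x ∈ L' := by
  unfold same at h
  simp only [Bool.and_eq_true, List.all_eq_true, decide_eq_true_eq] at h
  exact fun x => ⟨h.1 x, h.2 x⟩

/-- each order of the letters can be cut -/
def chkP : Bool :=
  ([0, 1, 2, 3] : List ℕ).permutations'.all fun l => [1, 2, 3].any fun n => [0, 1, 2, 3].any fun s =>
    (same (l.take n) [0, s] && same (l.drop n) ([1, 2, 3].filter fun l => l ≠ s)) ||
    (same (l.drop n) [0, s] && same (l.take n) ([1, 2, 3].filter fun l => l ≠ s))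

theorem chkP_true : chkP = true := by decide +kernel

theorem exists_split (hR : Real N val G) {z : V1} (hz : val z) (hk : z.2.2 < 14) :
    ∃ s < 4, Split G z s := by
  obtain ⟨l, hl, hadj⟩ := hR.path z hz hk
  have h := chkP_true
  unfold chkP at h
  rw [List.all_eq_true] at h
  have h := h l (List.mem_permutations'.2 hl)
  rw [List.any_eq_true] at h
  obtain ⟨n, hn, h⟩ := h
  rw [List.any_eq_true] at h
  obtain ⟨s, hs, h⟩ := h
  have hlen : l.length = 4 := by rw [hl.length_eq]; rfl
  have hn' : 1 ≤ n ∧ n ≤ 3 := by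
    simp only [List.mem_cons, List.not_mem_nil, or_false] at hn
    omega
  have hs' : s < 4 := by
    simp only [List.mem_cons, List.not_mem_nil, or_false] at hs
    omega
  have n1 : l.take n ≠ [] := by
    intro h
    have := congrArg List.length h
    simp only [List.length_take, List.length_nil] at this
    omega
  have n2 : l.drop n ≠ [] := by
    intro h
    have := congrArg List.length h
    simp only [List.length_drop, List.length_nil] at this
    omega
  obtain ⟨c1, c2, a, ha, b, hb, hab⟩ := cut_conn (z := z) (l.take n) (l.drop n) n1 n2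
    (by rw [List.take_append_drop]; exact hadj)
  refine ⟨s, hs', ?_⟩
  simp only [Bool.or_eq_true, Bool.and_eq_true] at h
  rcases h with ⟨h1, h2⟩ | ⟨h1, h2⟩
  · have e1 := same_iff h1
    have e2 := same_iff h2
    refine ⟨?_, ?_, a, (e1 a).1 ha, b, (e2 b).1 hb, hab⟩
    · rw [← lset_congr e1]; exact c1
    · rw [← lset_congr e2]; exact c2
  · have e1 := same_iff h1
    have e2 := same_iff h2
    refine ⟨?_, ?_, b, (e1 b).1 hb, a, (e2 a).1 ha, hab.symm⟩
    · rw [← lset_congr e1]; exact c2
    · rw [← lset_congr e2]; exact c1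

theorem full_conn (hR : Real N val G) {z : V1} (hz : val z) (hk : z.2.2 < 14) :
    (G.induce (lset z [0, 1, 2, 3])).Connected := by
  obtain ⟨l, hl, hadj⟩ := hR.path z hz hk
  have : lset z [0, 1, 2, 3] = lset z l := lset_congr fun x => (hl.mem_iff).symm
  rw [this]
  apply chain_conn _ _ hadj
  intro h
  have := hl.length_eq
  rw [h] at this
  simp at this

variable {A : Asm} {r c : ℤ}

theorem okI_iff {i : Itm} (h : okI A i = true) : -1 ≤ i.1 ∧ i.1 ≤ 2 ∧ -1 ≤ i.2.1 ∧ i.2.1 ≤ 2 ∧
    i.2.2.1 ≤ 14 ∧ (i.2.2.2 = 0 ∨ (i.2.2.2 ≤ 8 ∧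
      (i.1, i.2.1, i.2.2.1, (i.2.2.2 - 1) % 4) ∈ A.sp)) := by
  unfold okI at h
  simp only [Bool.and_eq_true, Bool.or_eq_true, decide_eq_true_eq] at h
  obtain ⟨⟨⟨⟨⟨h1, h2⟩, h3⟩, h4⟩, h5⟩, h6⟩ := h
  exact ⟨h1, h2, h3, h4, h5, h6⟩

theorem item_val (hA : A.Holds N val G r c) {i : Itm} (h : okI A i = true) : val (icl r c i) := by
  obtain ⟨h1, h2, h3, h4, h5, -⟩ := okI_iff h
  exact hA.val _ _ _ h1 h2 h3 h4 h5

theorem item_conn (hR : Real N val G) (hA : A.Holds N val G r c) {i : Itm}
    (h : okI A i = true) : (G.induce (iset r c i)).Connected := by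
  obtain ⟨h1, h2, h3, h4, h5, h6⟩ := okI_iff h
  have hv := item_val hA h
  unfold iset lts
  rcases h6 with h6 | ⟨h6, h7⟩
  · rw [if_pos h6]
    by_cases h14 : i.2.2.1 = 14
    · rw [if_pos h14, lset_single]
      exact conn_singleton G _
    · rw [if_neg h14]
      exact full_conn hR hv (by show i.2.2.1 < 14; omega)
  · by_cases h0 : i.2.2.2 = 0
    · rw [if_pos h0]
      by_cases h14 : i.2.2.1 = 14
      · rw [if_pos h14, lset_single]
        exact conn_singleton G _
      · rw [if_neg h14]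
        exact full_conn hR hv (by show i.2.2.1 < 14; omega)
    · have hs := hA.sp _ h7
      simp only at hs
      rw [if_neg h0]
      by_cases h5' : i.2.2.2 < 5
      · rw [if_pos h5']
        have : (i.2.2.2 - 1) % 4 = i.2.2.2 - 1 := by omega
        rw [this] at hs
        exact hs.1
      · rw [if_neg h5']
        have : (i.2.2.2 - 1) % 4 = i.2.2.2 - 5 := by omega
        rw [this] at hs
        exact hs.2.1

theorem odd_pars (hA : A.Holds N val G r c) {a b : ℤ} {e : Ent} (h4 : e.code < 4) :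
    N.odd (r + a) (c + b) e ∈ pars A a b e := by
  unfold Net.odd pars
  by_cases h0 : e.code = 0
  · simp [h0]
  · by_cases h1 : e.code = 1
    · simp [h1]
    · rw [if_neg h0, if_neg h1, if_neg h0, if_neg h1]
      split_ifs with h2 h3 h3
      · have := (hA.ev _ h2).1 h3
        simp only at this
        simp [this]
      · have := (hA.ev _ h2).2 (by simp only; omega)
        simp only at this
        simp [this]
      · cases N.tx (r + a) (c + b) e.idx <;> simp
      · cases N.ty (r + a) (c + b) e.idx <;> simp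

theorem lnkI_sound (hR : Real N val G) (hA : A.Holds N val G r c) {i j : Itm}
    (hi : okI A i = true) (hj : okI A j = true) {e : Ent} (he : e ∈ E2) (hk : i.2.2.1 = e.k)
    (h1 : j.1 = i.1 + e.dr) (h2 : j.2.1 = i.2.1 + e.dc) (h3 : j.2.2.1 = e.k') {L L' : List ℕ}
    (hl : lnkI A i.1 i.2.1 e L L' = true) :
    ∃ l ∈ L, ∃ l' ∈ L', G.Adj (lt (icl r c i) l) (lt (icl r c j) l') := by
  have hs : step (icl r c i) e.base = icl r c j := by
    unfold step Ent.base icl
    simp only [h1, h2, h3]
    ext <;> simp only <;> ring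
  have hlk := hR.lnk (icl r c i) e he hk (item_val hA hi) (by rw [hs]; exact item_val hA hj)
  rw [hs] at hlk
  have hlk' : ∀ p ∈ N.lnk (r + i.1) (c + i.2.1) e,
      G.Adj (lt (icl r c i) p.1) (lt (icl r c j) p.2) := hlk
  unfold lnkI at hl
  unfold Net.lnk at hlk'
  by_cases h4 : e.code < 4
  · rw [if_pos h4] at hl hlk'
    rw [List.all_eq_true] at hl
    have hl := hl _ (odd_pars hA (a := i.1) (b := i.2.1) h4)
    rw [List.any_eq_true] at hl
    obtain ⟨q, hq, hl⟩ := hl
    simp only [Bool.and_eq_true, decide_eq_true_eq] at hl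
    exact ⟨q.1, hl.1, q.2, hl.2, hlk' q hq⟩
  · rw [if_neg h4] at hl hlk'
    simp only [Bool.and_eq_true, Bool.or_eq_true, decide_eq_true_eq] at hl
    obtain ⟨⟨h5, h6⟩, h7⟩ := hl
    refine ⟨e.X, h6, e.X', h7, hlk' (e.X, e.X') ?_⟩
    by_cases h44 : e.code = 4
    · rw [if_pos h44]
      simp
    · rw [if_neg h44]
      have h5 := h5.resolve_left h44
      have : (if e.k = 14 then N.fo (r + i.1 + e.dr) (c + i.2.1 + e.dc) e.idx else
          N.fo (r + i.1) (c + i.2.1) e.idx) = true := by
        by_cases h14 : e.k = 14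
        · rw [if_pos h14] at h5 ⊢
          have := hA.fo _ h5
          simp only [← add_assoc] at this
          exact this
        · rw [if_neg h14] at h5 ⊢
          exact hA.fo _ h5
      rw [if_pos this]
      simp

theorem adjI_sound (hR : Real N val G) (hA : A.Holds N val G r c) {i j : Itm}
    (hi : okI A i = true) (hj : okI A j = true) (h : adjI A i j = true) :
    ∃ x ∈ iset r c i, ∃ y ∈ iset r c j, G.Adj x y := by
  unfold adjI at h
  rw [Bool.or_eq_true] at h
  rcases h with h | h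
  · simp only [Bool.and_eq_true, Bool.or_eq_true, decide_eq_true_eq] at h
    obtain ⟨⟨⟨h1, h2⟩, h3⟩, h4⟩ := h
    have hc : icl r c i = icl r c j := by
      unfold icl
      rw [h1, h2, h3]
    have key : ∀ {i j : Itm}, okI A i = true → icl r c i = icl r c j → 1 ≤ i.2.2.2 →
        i.2.2.2 ≤ 4 → j.2.2.2 = i.2.2.2 + 4 → ∃ x ∈ iset r c i, ∃ y ∈ iset r c j, G.Adj x y := by
      intro i j hi hc h5 h6 h7
      obtain ⟨-, -, -, -, -, h8⟩ := okI_iff hi
      have h8 := (h8.resolve_left (by omega)).2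
      have hs := hA.sp _ h8
      simp only at hs
      have e1 : (i.2.2.2 - 1) % 4 = i.2.2.2 - 1 := by omega
      rw [e1] at hs
      obtain ⟨-, -, l, hl, l', hl', hadj⟩ := hs
      refine ⟨lt (icl r c i) l, ⟨l, ?_, rfl⟩, lt (icl r c j) l', ⟨l', ?_, rfl⟩, ?_⟩
      · unfold lts
        rw [if_neg (by omega), if_pos (by omega)]
        exact hl
      · unfold lts
        rw [if_neg (by omega), if_neg (by omega), h7]
        have e2 : i.2.2.2 + 4 - 5 = i.2.2.2 - 1 := by omega
        rw [e2]
        exact hl'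
      · rw [← hc]
        exact hadj
    rcases h4 with ⟨⟨h5, h6⟩, h7⟩ | ⟨⟨h5, h6⟩, h7⟩
    · exact key hi hc h5 h6 h7
    · obtain ⟨x, hx, y, hy, hxy⟩ := key hj hc.symm h5 h6 h7
      exact ⟨y, hy, x, hx, hxy.symm⟩
  · rw [List.any_eq_true] at h
    obtain ⟨e, he, h⟩ := h
    simp only [Bool.and_eq_true, decide_eq_true_eq] at h
    obtain ⟨⟨⟨⟨h1, h2⟩, h3⟩, h4⟩, h5⟩ := h
    obtain ⟨l, hl, l', hl', hadj⟩ := lnkI_sound hR hA hi hj he h1 h2 h3 h4 h5
    exact ⟨_, ⟨l, hl, rfl⟩, _, ⟨l', hl', rfl⟩, hadj⟩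

theorem conI_ok : ∀ {B : List Itm}, conI A B = true → ∀ i ∈ B, okI A i = true
  | [], h, i, hi => by simp at hi
  | [j], h, i, hi => by
    simp only [List.mem_singleton] at hi
    rw [hi]
    exact h
  | j :: k :: l, h, i, hi => by
    unfold conI at h
    simp only [Bool.and_eq_true] at h
    rcases List.mem_cons.1 hi with rfl | hi
    · exact h.1.1
    · exact conI_ok h.2 i hi

theorem bset_cons (i : Itm) (B : List Itm) : bset r c (i :: B) = iset r c i ∪ bset r c B := by
  ext u
  simp [bset]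

theorem conI_conn (hR : Real N val G) (hA : A.Holds N val G r c) :
    ∀ {B : List Itm}, conI A B = true → (G.induce (bset r c B)).Connected
  | [], h => by simp [conI] at h
  | [i], h => by
    have e : bset r c [i] = iset r c i := by
      ext u
      simp [bset]
    rw [e]
    exact item_conn hR hA h
  | i :: j :: l, h => by
    have hok := conI_ok h
    unfold conI at h
    simp only [Bool.and_eq_true] at h
    obtain ⟨⟨h1, h2⟩, h3⟩ := h
    rw [List.any_eq_true] at h2
    obtain ⟨k, hk, h2⟩ := h2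
    obtain ⟨x, hx, y, hy, hxy⟩ := adjI_sound hR hA h1 (hok k (List.mem_cons_of_mem _ hk)) h2
    rw [bset_cons]
    exact G.connected_induce_union (item_conn hR hA h1).preconnected
      (conI_conn hR hA h3).preconnected hx ⟨k, hk, hy⟩ hxy

theorem disI_sound {i j : Itm} (h : disI i j = true) : Disjoint (iset r c i) (iset r c j) := by
  rw [Set.disjoint_left]
  rintro x ⟨l, hl, rfl⟩ ⟨l', hl', h'⟩
  unfold lt icl at h'
  simp only [Prod.mk.injEq] at h'
  obtain ⟨h1, h2, h3, h4⟩ := h'
  unfold disI at h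
  have h1' : i.1 = j.1 := by omega
  have h2' : i.2.1 = j.2.1 := by omega
  simp only [h1', h2', h3, ne_eq, not_true_eq_false, decide_false, Bool.false_or,
    List.all_eq_true] at h
  rw [h3] at hl
  have := h l hl
  rw [h4] at this
  simp [hl'] at this

theorem chk33_false (hR : Real N val G) (hA : A.Holds N val G r c) {B : List (List Itm)}
    (h : chk33 A B = true) : False := by
  unfold chk33 at h
  simp only [Bool.and_eq_true, decide_eq_true_eq] at h
  obtain ⟨⟨⟨h1, h2⟩, h3⟩, h4⟩ := h
  rw [List.all_eq_true] at h2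
  have hmem : ∀ m < 6, B.getD m [] ∈ B := by
    intro m hm
    rw [List.getD_eq_getElem _ _ (by omega)]
    exact List.getElem_mem _
  have hdis : ∀ m < 6, ∀ n < 6, m ≠ n → Disjoint (bset r c (B.getD m [])) (bset r c (B.getD n [])) := by
    intro m hm n hn hmn
    rw [List.all_eq_true] at h3
    have h3 := h3 m (List.mem_range.2 hm)
    rw [List.all_eq_true] at h3
    have h3 := h3 n (List.mem_range.2 hn)
    simp only [hmn, decide_false, Bool.false_or] at h3
    rw [List.all_eq_true] at h3
    rw [Set.disjoint_left]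
    rintro x ⟨i, hi, hx⟩ ⟨j, hj, hy⟩
    have h3 := h3 i hi
    rw [List.all_eq_true] at h3
    exact Set.disjoint_left.1 (disI_sound (h3 j hj)) hx hy
  have hadj : ∀ m < 3, ∀ n < 3, ∃ x ∈ bset r c (B.getD m []), ∃ y ∈ bset r c (B.getD (n + 3) []),
      G.Adj x y := by
    intro m hm n hn
    rw [List.all_eq_true] at h4
    have h4 := h4 m (List.mem_range.2 hm)
    rw [List.all_eq_true] at h4
    have h4 := h4 n (List.mem_range.2 hn)
    rw [List.any_eq_true] at h4
    obtain ⟨i, hi, h4⟩ := h4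
    rw [List.any_eq_true] at h4
    obtain ⟨j, hj, h4⟩ := h4
    obtain ⟨x, hx, y, hy, hxy⟩ := adjI_sound hR hA
      (conI_ok (h2 _ (hmem m (by omega))) i hi) (conI_ok (h2 _ (hmem (n + 3) (by omega))) j hj) h4
    exact ⟨x, ⟨i, hi, hx⟩, y, ⟨j, hj, hy⟩, hxy⟩
  apply hR.planar
  refine ⟨fun w => Sum.elim (fun m : Fin 3 => bset r c (B.getD m [])) (fun n : Fin 3 =>
    bset r c (B.getD (n + 3) [])) w, ?_, ?_, ?_⟩
  · rintro (m | n)
    · exact conI_conn hR hA (h2 _ (hmem m (by omega)))
    · exact conI_conn hR hA (h2 _ (hmem (n + 3) (by omega)))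
  · rintro (m | m) (n | n) hmn
    · apply hdis _ (by omega) _ (by omega)
      intro h
      exact hmn (congrArg Sum.inl (Fin.ext h))
    · exact hdis _ (by omega) _ (by omega) (by omega)
    · exact hdis _ (by omega) _ (by omega) (by omega)
    · apply hdis _ (by omega) _ (by omega)
      intro h
      exact hmn (congrArg Sum.inr (Fin.ext (by omega)))
  · rintro (m | m) (n | n) hmn
    · simp at hmn
    · exact hadj m m.2 n n.2
    · obtain ⟨x, hx, y, hy, hxy⟩ := hadj n n.2 m m.2
      exact ⟨y, hy, x, hx, hxy.symm⟩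
    · simp at hmn

theorem cert_false (hR : Real N val G) (hA : A.Holds N val G r c)
    (hm : A ∈ certs.map Prod.fst) : False := by
  obtain ⟨q, hq, rfl⟩ := List.mem_map.1 hm
  have h := certs_ok
  rw [List.all_eq_true] at h
  exact chk33_false hR hA (h q hq)

end Pool.Agent.MP_f692a6_lc
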