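import Pool.Agent.MP_f692a6_lc.Inst

/-!
# The instance of a formula is proper
-/

set_option autoImplicit false

namespace Pool.Agent.MP_f692a6_lc

theorem range_blocks (m : ℕ) : ∀ n : ℕ, ((List.range n).flatMap fun i =>
    (List.range m).map fun j => i * m + j) = List.range (n * m)
  | 0 => by simp
  | n + 1 => by
    rw [List.range_succ, List.flatMap_append, range_blocks m n]
    simp only [List.flatMap_cons, List.flatMap_nil, List.append_nil]
    rw [Nat.succ_mul, List.range_add]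

theorem cellC_flatten (C r c : ℕ) : (cellC C r c).flatten =
    (List.range 57).map fun q => (r * C + c) * 57 + q := by
  rfl

theorem flatten_flatMap' {α β : Type} (l : List α) (f : α → List (List β)) :
    (l.flatMap f).flatten = l.flatMap fun a => (f a).flatten := by
  induction l with
  | nil => rfl
  | cons a l ih => rw [List.flatMap_cons, List.flatten_append, ih, List.flatMap_cons]

theorem clusN_flatten (φ : Fm) : (clusN φ).flatten = List.range (RR φ * CC φ * 57) := by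
  unfold clusN
  rw [flatten_flatMap']
  have h1 : ∀ r, ((List.range (CC φ)).flatMap fun c => cellC (CC φ) r c).flatten =
      (List.range (CC φ)).flatMap fun c => (List.range 57).map fun q =>
        (r * CC φ + c) * 57 + q := by
    intro r
    rw [flatten_flatMap']
    congr 1
  simp only [h1]
  rw [← range_blocks 57 (RR φ * CC φ), ← range_blocks (CC φ) (RR φ), List.flatMap_assoc]
  congr 1
  funext r
  rw [List.flatMap_map]

theorem fwd_facts {e : ℕ × ℕ × ℕ × ℕ × ℕ × ℕ × ℕ × ℕ} (he : e ∈ fwd) :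
    toEnt e ∈ E2 ∧ e.1 < 14 ∧ e.2.2.2.1 ≤ 14 ∧ e.2.2.2.2.2.1 < 4 ∧ e.2.2.2.2.2.2.1 < 4 ∧
      (e.2.2.2.1 = 14 → e.2.2.2.2.2.2.1 = 0 ∧ 4 ≤ e.2.2.2.2.1) ∧ e.2.1 ≤ 1 ∧ e.2.2.1 ≤ 1 := by
  have h := fwd_sub
  rw [List.all_eq_true] at h
  have h := h e he
  simp only [Bool.and_eq_true, decide_eq_true_eq] at h
  have h2 : (fwd.all fun e => decide (e.2.2.2.2.2.1 < 4) && decide (e.2.2.2.2.2.2.1 < 4) &&
    (decide (e.2.2.2.1 ≠ 14) || (decide (e.2.2.2.2.2.2.1 = 0) && decide (4 ≤ e.2.2.2.2.1))) &&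
      decide (e.2.1 ≤ 1) && decide (e.2.2.1 ≤ 1)) = true := by decide +kernel
  rw [List.all_eq_true] at h2
  have h2 := h2 e he
  simp only [Bool.and_eq_true, Bool.or_eq_true, decide_eq_true_eq] at h2
  obtain ⟨⟨⟨⟨a1, a2⟩, a3⟩, a4⟩, a5⟩ := h2
  refine ⟨h.1.1, h.1.2, h.2, a1, a2, ?_, a4, a5⟩
  intro h14
  rcases a3 with a3 | a3
  · exact absurd h14 a3
  · exact a3

theorem lnkN_lt {φ : Fm} {r c : ℕ} {e : ℕ × ℕ × ℕ × ℕ × ℕ × ℕ × ℕ × ℕ} (he : e ∈ fwd)
    {q : ℕ × ℕ} (hq : q ∈ lnkN φ r c e) :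
    q.1 < 4 ∧ q.2 < 4 ∧ 4 * e.1 + q.1 < 57 ∧ 4 * e.2.2.2.1 + q.2 < 57 := by
  obtain ⟨f1, f2, f3, f4, f5, f6, -, -⟩ := fwd_facts he
  have h : (q.1 = 0 ∨ q.1 = e.2.2.2.2.2.1) ∧ (q.2 = e.2.2.2.2.2.2.1 ∨
      (q.2 = 0 ∧ e.2.2.2.2.1 < 4)) := by
    unfold lnkN at hq
    split_ifs at hq with h1 h2 h3 h4 <;>
      simp only [List.mem_cons, List.not_mem_nil, or_false] at hq
    · rcases hq with rfl | rfl
      · exact ⟨Or.inl rfl, Or.inl rfl⟩
      · exact ⟨Or.inr rfl, Or.inr ⟨rfl, h1⟩⟩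
    · rcases hq with rfl | rfl
      · exact ⟨Or.inl rfl, Or.inr ⟨rfl, h1⟩⟩
      · exact ⟨Or.inr rfl, Or.inl rfl⟩
    · subst hq
      exact ⟨Or.inr rfl, Or.inl rfl⟩
    · subst hq
      exact ⟨Or.inr rfl, Or.inl rfl⟩
  obtain ⟨h1, h2⟩ := h
  refine ⟨by omega, by omega, by omega, ?_⟩
  by_cases h14 : e.2.2.2.1 = 14
  · have := f6 h14
    omega
  · omega

theorem mem_cluster {C r c k x : ℕ} : x ∈ [vert C r c k 0, vert C r c k 1, vert C r c k 2,
    vert C r c k 3] ↔ ∃ l < 4, x = vert C r c k l := by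
  simp only [List.mem_cons, List.not_mem_nil, or_false]
  constructor
  · rintro (h | h | h | h)
    · exact ⟨0, by omega, h⟩
    · exact ⟨1, by omega, h⟩
    · exact ⟨2, by omega, h⟩
    · exact ⟨3, by omega, h⟩
  · rintro ⟨l, hl, h⟩
    have : l = 0 ∨ l = 1 ∨ l = 2 ∨ l = 3 := by omega
    rcases this with rfl | rfl | rfl | rfl
    · exact Or.inl h
    · exact Or.inr (Or.inl h)
    · exact Or.inr (Or.inr (Or.inl h))
    · exact Or.inr (Or.inr (Or.inr h))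

/-- the members of a cluster -/
theorem cluster_mem {φ : Fm} {S : List ℕ} (hS : S ∈ clusN φ) : ∃ r < RR φ, ∃ c < CC φ,
    ∃ k ≤ 14, ∀ x, x ∈ S ↔ ∃ l < 4, (k = 14 → l = 0) ∧ x = vert (CC φ) r c k l := by
  obtain ⟨r, hr, c, hc, ⟨k, hk, rfl⟩ | rfl⟩ := mem_clusN.1 hS
  · refine ⟨r, hr, c, hc, k, hk.le, fun x => ?_⟩
    rw [mem_cluster]
    constructor
    · rintro ⟨l, hl, h⟩
      exact ⟨l, hl, fun h => by omega, h⟩
    · rintro ⟨l, hl, -, h⟩
      exact ⟨l, hl, h⟩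
  · refine ⟨r, hr, c, hc, 14, le_rfl, fun x => ?_⟩
    rw [List.mem_singleton]
    constructor
    · intro h
      exact ⟨0, by omega, fun _ => rfl, h⟩
    · rintro ⟨l, hl, h1, h⟩
      rw [h1 rfl] at h
      exact h

theorem link_clusters {φ : Fm} {p : ℕ × ℕ} (hp : p ∈ linkN φ) {S : List ℕ} (hS : S ∈ clusN φ) :
    ¬ (p.1 ∈ S ∧ p.2 ∈ S) := by
  rintro ⟨h1, h2⟩
  obtain ⟨r, hr, c, hc, k, hk, hm⟩ := cluster_mem hS
  obtain ⟨r', hr', c', hc', e, he, hr'', hc'', q, hq, rfl⟩ := mem_linkN.1 hp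
  obtain ⟨g1, g2, g3, g4⟩ := lnkN_lt he hq
  obtain ⟨l, hl, hl', e1⟩ := (hm _).1 h1
  obtain ⟨m, hm, hm', e2⟩ := (hm _).1 h2
  obtain ⟨a1, a2, a3, a4⟩ := vert_inj hc' hc g3 (by omega) g1 hl e1
  obtain ⟨b1, b2, b3, b4⟩ := vert_inj hc'' hc g4 (by omega) g2 hm e2
  have := (E2_facts (fwd_facts he).1).2.1
  unfold toEnt at this
  simp only at this
  omega

theorem instOf_proper (φ : Fm) : (instOf φ).Proper := by
  refine ⟨?_, ?_⟩
  · show (clusN φ).flatten.Nodup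
    rw [clusN_flatten]
    exact List.nodup_range
  · intro p hp
    have hp' : p ∈ linkN φ := hp
    refine ⟨?_, ?_, fun S hS => link_clusters hp' hS⟩
    · show p.1 ∈ (clusN φ).flatten
      rw [clusN_flatten, List.mem_range]
      obtain ⟨r, hr, c, hc, e, he, h1, h2, q, hq, rfl⟩ := mem_linkN.1 hp'
      obtain ⟨g1, g2, g3, g4⟩ := lnkN_lt he hq
      exact vert_lt hr hc g3
    · show p.2 ∈ (clusN φ).flatten
      rw [clusN_flatten, List.mem_range]
      obtain ⟨r, hr, c, hc, e, he, h1, h2, q, hq, rfl⟩ := mem_linkN.1 hp'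
      obtain ⟨g1, g2, g3, g4⟩ := lnkN_lt he hq
      exact vert_lt h1 h2 g4

theorem instOf_length (φ : Fm) : ∀ S ∈ (instOf φ).clusters, S.length ≤ 4 := by
  intro S hS
  obtain ⟨r, hr, c, hc, ⟨k, hk, rfl⟩ | rfl⟩ := mem_clusN.1 (show S ∈ clusN φ from hS)
  · simp
  · simp

open Pool.Agent.H66

theorem length_le_flatMap {α β : Type} {f : α → List β} {a : α} : ∀ {l : List α}, a ∈ l →
    (f a).length ≤ (l.flatMap f).length
  | b :: l, h => by
    rw [List.flatMap_cons, List.length_append]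
    rcases List.mem_cons.1 h with rfl | h
    · omega
    · have := length_le_flatMap (f := f) h
      omega

theorem lt_nv {φ : Fm} {c : Cl} (hc : c ∈ φ) : c.1.2 < nv φ ∧ c.2.1.2 < nv φ ∧ c.2.2.2 < nv φ := by
  have h := length_le_flatMap (f := fun c : Cl => List.range (c.1.2 + 1) ++
    (List.range (c.2.1.2 + 1) ++ List.range (c.2.2.2 + 1))) hc
  unfold nv
  simp only [List.length_append, List.length_range] at h ⊢
  omega

theorem rowOf_le {φ : Fm} {l : Bool × ℕ} (hl : l.2 < nv φ) : 1 ≤ rowOf l ∧ rowOf l ≤ 2 * nv φ := by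
  unfold rowOf
  split_ifs <;> omega

theorem inN_iff {φ : Fm} {r c : ℕ} : inN φ r c = true ↔ 1 ≤ r ∧ r ≤ 2 * nv φ ∧ 1 ≤ c ∧
    c ≤ φ.length + 1 := by
  unfold inN
  simp only [Bool.and_eq_true, decide_eq_true_eq]

theorem oddN_iff {φ : Fm} {r : ℕ} : oddN φ r = true ↔ ∃ i < nv φ, r = 2 * i + 1 := by
  unfold oddN
  simp only [List.any_eq_true, List.mem_range, decide_eq_true_eq]

end Pool.Agent.MP_f692a6_lc
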