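import Pool.Agent.MP_f692a6_lc.Inst
import Pool.Agent.Lib.helper60.NAE

/-!
# The reduction runs in polynomial time
-/

set_option autoImplicit false

namespace Pool.Agent.MP_f692a6_lc

open Pool.Agent.Lib.helper60

section

variable {α β : Type} [DEnc α] [DEnc β]

theorem codeNat_eq (n : ℕ) : codeNat n = ((List.range n).flatMap fun _ => [true, false]) ++
    [false] := by
  induction n with
  | zero => rfl
  | succ n ih =>
    have h : ∀ m : ℕ, ((List.range (m + 1)).flatMap fun _ => [true, false]) =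
        [true, false] ++ (List.range m).flatMap fun _ => [true, false] := by
      intro m
      rw [List.range_succ_eq_map, List.flatMap_cons, List.flatMap_map]
    rw [h]
    show true :: false :: codeNat n = _
    rw [ih]
    rfl

theorem codeList_eq {γ : Type} (c : γ → List Bool) (l : List γ) :
    codeList c l = (l.flatMap fun a => true :: c a) ++ [false] := by
  induction l with
  | nil => rfl
  | cons a l ih =>
    show true :: (c a ++ codeList c l) = _
    rw [ih, List.flatMap_cons]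
    simp

theorem PT_codeNat {f : α → ℕ} (hf : PT f) : PT (fun a => codeNat (f a)) := by
  have h := PT.append (PT.flatMap (g := fun _ : α × ℕ => [true, false]) (PT.range hf)
    (PT.const [true, false])) (PT.const [false])
  exact h.congr fun a => (codeNat_eq (f a)).symm

theorem PT_codeList {l : α → List β} {c : β → List Bool} (hl : PT l) (hc : PT c) :
    PT (fun a => codeList c (l a)) := by
  have h := PT.append (PT.flatMap (g := fun z : α × β => true :: c z.2) hl
    (PT.cons (PT.const true) (hc.comp PT.snd))) (PT.const [false])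
  exact h.congr fun a => (codeList_eq c (l a)).symm

theorem PT_codePair {f g : α → List Bool} (hf : PT f) (hg : PT g) :
    PT (fun a => codePair (f a) (g a)) :=
  PT.cons (PT.const true) (PT.append hf hg)

variable {φ : α → Fm} {r c i C k l : α → ℕ}

theorem PT_nv (hφ : PT φ) : PT (fun a => nv (φ a)) := by
  have h : PT nv := by
    unfold nv
    have hc : PT (fun z : Fm × Pool.Agent.H66.Cl => z.2) := PT.snd
    exact PT.length (PT.flatMap (g := fun z : Fm × Pool.Agent.H66.Cl =>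
      List.range (z.2.1.2 + 1) ++ (List.range (z.2.2.1.2 + 1) ++ List.range (z.2.2.2.2 + 1)))
      PT.id (PT.append (PT.range (PT.nsucc hc.p1.p2)) (PT.append
        (PT.range (PT.nsucc hc.p2.p1.p2)) (PT.range (PT.nsucc hc.p2.p2.p2)))))
  exact h.comp hφ

theorem PT_rowOf {f : α → Bool × ℕ} (hf : PT f) : PT (fun a => rowOf (f a)) :=
  PT.nadd (PT.nmul (PT.const 2) hf.p2) (PT.ite (c := fun a => (f a).1 = true)
    (PT.beq hf.p1 (PT.const true)) (PT.const 1) (PT.const 2))

theorem PT_clN (hφ : PT φ) (hc : PT c) : PT (fun a => clN (φ a) (c a)) :=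
  PT.getD hφ (PT.nsub hc (PT.const 2)) (PT.const _)

theorem PT_tapN (hφ : PT φ) (hr : PT r) (hc : PT c) : PT (fun a => tapN (φ a) (r a) (c a)) := by
  have h := PT_clN hφ hc
  exact PT.bor (PT.neq hr (PT_rowOf h.p1)) (PT.bor (PT.neq hr (PT_rowOf h.p2.p1))
    (PT.neq hr (PT_rowOf h.p2.p2)))

theorem PT_inN (hφ : PT φ) (hr : PT r) (hc : PT c) : PT (fun a => inN (φ a) (r a) (c a)) :=
  PT.band (PT.nle (PT.const 1) hr) (PT.band (PT.nle hr (PT.nmul (PT.const 2) (PT_nv hφ)))
    (PT.band (PT.nle (PT.const 1) hc) (PT.nle hc (PT.nadd (PT.length hφ) (PT.const 1)))))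

theorem PT_oddN (hφ : PT φ) (hr : PT r) : PT (fun a => oddN (φ a) (r a)) :=
  PT.any (p := fun z : α × ℕ => decide (r z.1 = 2 * z.2 + 1)) (PT.range (PT_nv hφ))
    (PT.neq (hr.comp PT.fst) (PT.nadd (PT.nmul (PT.const 2) PT.snd) (PT.const 1)))

theorem PT_txN (hφ : PT φ) (hr : PT r) (hc : PT c) (hi : PT i) :
    PT (fun a => txN (φ a) (r a) (c a) (i a)) := by
  unfold txN
  exact PT.ite (c := fun a => inN (φ a) (r a) (c a) = true)
    (PT.beq (PT_inN hφ hr hc) (PT.const true))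
    (PT.ite (PT.neq hc (PT.const 1)) (PT.ite (c := fun a => oddN (φ a) (r a) = true)
      (PT.beq (PT_oddN hφ hr) (PT.const true)) (PT.neq hi (PT.const 3)) (PT.neq hi (PT.const 2)))
      (PT.band (PT_tapN hφ hr hc) (PT.neq hi (PT.const 0)))) (PT.neq hi (PT.const 0))

theorem PT_tyN (hφ : PT φ) (hr : PT r) (hc : PT c) (hi : PT i) :
    PT (fun a => tyN (φ a) (r a) (c a) (i a)) := by
  unfold tyN
  exact PT.ite (c := fun a => inN (φ a) (r a) (c a) = true)
    (PT.beq (PT_inN hφ hr hc) (PT.const true))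
    (PT.ite (PT.neq hc (PT.const 1)) (PT.ite (c := fun a => oddN (φ a) (r a) = true)
      (PT.beq (PT_oddN hφ hr) (PT.const true)) (PT.neq hi (PT.const 0)) (PT.neq hi (PT.const 3)))
      (PT.const false)) (PT.neq hi (PT.const 3))

theorem PT_foN (hφ : PT φ) (hr : PT r) (hc : PT c) (hi : PT i) :
    PT (fun a => foN (φ a) (r a) (c a) (i a)) := by
  unfold foN
  exact PT.band (PT_inN hφ hr hc) (PT.ite (PT.neq hc (PT.const 1)) (PT.neq hi (PT.const 3))
    (PT.bor (PT.band (PT.neq hr (PT.const 1)) (PT.neq hi (PT.const 0)))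
      (PT.band (PT.neq hr (PT.nmul (PT.const 2) (PT_nv hφ))) (PT.neq hi (PT.const 2)))))

theorem PT_vert (hC : PT C) (hr : PT r) (hc : PT c) (hk : PT k) (hl : PT l) :
    PT (fun a => vert (C a) (r a) (c a) (k a) (l a)) :=
  PT.nadd (PT.nmul (PT.nadd (PT.nmul hr hC) hc) (PT.const 57))
    (PT.nadd (PT.nmul (PT.const 4) hk) hl)

theorem PT_RR (hφ : PT φ) : PT (fun a => RR (φ a)) :=
  PT.nadd (PT.nmul (PT.const 2) (PT_nv hφ)) (PT.const 3)

theorem PT_CC (hφ : PT φ) : PT (fun a => CC (φ a)) := PT.nadd (PT.length hφ) (PT.const 4)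

theorem PT_cellC (hC : PT C) (hr : PT r) (hc : PT c) :
    PT (fun a => cellC (C a) (r a) (c a)) := by
  unfold cellC
  have hC' := hC.comp (PT.fst (α := α) (β := ℕ))
  have hr' := hr.comp (PT.fst (α := α) (β := ℕ))
  have hc' := hc.comp (PT.fst (α := α) (β := ℕ))
  have hk : PT (fun z : α × ℕ => z.2) := PT.snd
  refine PT.append (PT.map (g := fun z : α × ℕ => [vert (C z.1) (r z.1) (c z.1) z.2 0,
    vert (C z.1) (r z.1) (c z.1) z.2 1, vert (C z.1) (r z.1) (c z.1) z.2 2,
    vert (C z.1) (r z.1) (c z.1) z.2 3]) (PT.range (PT.const 14)) ?_) ?_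
  · exact PT.cons (PT_vert hC' hr' hc' hk (PT.const 0)) (PT.cons
      (PT_vert hC' hr' hc' hk (PT.const 1)) (PT.cons (PT_vert hC' hr' hc' hk (PT.const 2))
        (PT.cons (PT_vert hC' hr' hc' hk (PT.const 3)) (PT.const []))))
  · exact PT.cons (PT.cons (PT_vert hC hr hc (PT.const 14) (PT.const 0)) (PT.const []))
      (PT.const [])

theorem PT_clusN (hφ : PT φ) : PT (fun a => clusN (φ a)) := by
  unfold clusN
  refine PT.flatMap (g := fun z : α × ℕ => (List.range (CC (φ z.1))).flatMap fun c =>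
    cellC (CC (φ z.1)) z.2 c) (PT.range (PT_RR hφ)) ?_
  have hφ' := hφ.comp (PT.fst (α := α) (β := ℕ))
  refine PT.flatMap (g := fun z : (α × ℕ) × ℕ => cellC (CC (φ z.1.1)) z.1.2 z.2)
    (PT.range (PT_CC hφ')) ?_
  exact PT_cellC (PT_CC (hφ'.comp PT.fst)) PT.fst.p2 PT.snd

/-- entries of `fwd` -/
abbrev E8 := ℕ × ℕ × ℕ × ℕ × ℕ × ℕ × ℕ × ℕ

theorem PT_lnkN {e : α → E8} (hφ : PT φ) (hr : PT r) (hc : PT c) (he : PT e) :
    PT (fun a => lnkN (φ a) (r a) (c a) (e a)) := by
  unfold lnkN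
  have hcode := he.p2.p2.p2.p2.p1
  have hX := he.p2.p2.p2.p2.p2.p1
  have hX' := he.p2.p2.p2.p2.p2.p2.p1
  have hi := he.p2.p2.p2.p2.p2.p2.p2
  have hodd : PT (fun a => oddP (φ a) (r a) (c a) (e a).2.2.2.2.1 (e a).2.2.2.2.2.2.2) := by
    unfold oddP
    exact PT.ite (PT.neq hcode (PT.const 0)) (PT.const false)
      (PT.ite (PT.neq hcode (PT.const 1)) (PT.const true)
        (PT.ite (PT.neq hcode (PT.const 2)) (PT_txN hφ hr hc hi) (PT_tyN hφ hr hc hi)))
  refine PT.ite (PT.nlt hcode (PT.const 4)) (PT.ite (PT.beq hodd (PT.const true)) ?_ ?_)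
    (PT.ite (PT.neq hcode (PT.const 4)) ?_ (PT.ite (PT.beq (PT_foN hφ hr hc hi) (PT.const true))
      ?_ (PT.const [])))
  · exact PT.cons (PT.pair (PT.const 0) hX') (PT.cons (PT.pair hX (PT.const 0)) (PT.const []))
  · exact PT.cons (PT.pair (PT.const 0) (PT.const 0)) (PT.cons (PT.pair hX hX') (PT.const []))
  · exact PT.cons (PT.pair hX hX') (PT.const [])
  · exact PT.cons (PT.pair hX hX') (PT.const [])

theorem PT_linkP {r' c' k' : α → ℕ} {q : α → List (ℕ × ℕ)} (hC : PT C) (hr : PT r) (hc : PT c)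
    (hk : PT k) (hr' : PT r') (hc' : PT c') (hk' : PT k') (hq : PT q) :
    PT (fun a => (q a).map fun p => (vert (C a) (r a) (c a) (k a) p.1,
      vert (C a) (r' a) (c' a) (k' a) p.2)) := by
  have f : PT (fun z : α × (ℕ × ℕ) => z.1) := PT.fst
  have g : PT (fun z : α × (ℕ × ℕ) => z.2) := PT.snd
  exact PT.map (g := fun z : α × (ℕ × ℕ) => (vert (C z.1) (r z.1) (c z.1) (k z.1) z.2.1,
      vert (C z.1) (r' z.1) (c' z.1) (k' z.1) z.2.2)) hq
    (PT.pair (PT_vert (hC.comp f) (hr.comp f) (hc.comp f) (hk.comp f) g.p1)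
      (PT_vert (hC.comp f) (hr'.comp f) (hc'.comp f) (hk'.comp f) g.p2))

theorem PT_linkE {e : α → E8} (hφ : PT φ) (hr : PT r) (hc : PT c) (he : PT e) :
    PT (fun a => linkE (φ a) (r a) (c a) (e a)) := by
  unfold linkE
  exact PT.ite (PT.dand (PT.nlt (PT.nadd hr he.p2.p1) (PT_RR hφ))
    (PT.nlt (PT.nadd hc he.p2.p2.p1) (PT_CC hφ)))
    (PT_linkP (PT_CC hφ) hr hc he.p1 (PT.nadd hr he.p2.p1) (PT.nadd hc he.p2.p2.p1)
      he.p2.p2.p2.p1 (PT_lnkN hφ hr hc he)) (PT.const [])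

theorem PT_linkC (hφ : PT φ) (hr : PT r) (hc : PT c) :
    PT (fun a => linkC (φ a) (r a) (c a)) := by
  have f : PT (fun z : α × E8 => z.1) := PT.fst
  have g : PT (fun z : α × E8 => z.2) := PT.snd
  exact PT.flatMap (g := fun z : α × E8 => linkE (φ z.1) (r z.1) (c z.1) z.2) (PT.const fwd)
    (PT_linkE (hφ.comp f) (hr.comp f) (hc.comp f) g)

theorem PT_linkR (hφ : PT φ) (hr : PT r) : PT (fun a => linkR (φ a) (r a)) := by
  have f : PT (fun z : α × ℕ => z.1) := PT.fst
  have g : PT (fun z : α × ℕ => z.2) := PT.snd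
  exact PT.flatMap (g := fun z : α × ℕ => linkC (φ z.1) (r z.1) z.2) (PT.range (PT_CC hφ))
    (PT_linkC (hφ.comp f) (hr.comp f) g)

theorem PT_linkN (hφ : PT φ) : PT (fun a => linkN (φ a)) := by
  have f : PT (fun z : α × ℕ => z.1) := PT.fst
  have g : PT (fun z : α × ℕ => z.2) := PT.snd
  exact PT.flatMap (g := fun z : α × ℕ => linkR (φ z.1) z.2) (PT.range (PT_RR hφ))
    (PT_linkR (hφ.comp f) g)

end

theorem PT_code : PT (fun φ : Fm => (instOf φ).code) := by
  have h1 : PT (fun x : List ℕ => codeList codeNat x) := PT_codeList PT.id (PT_codeNat PT.id)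
  have h2 : PT (fun e : ℕ × ℕ => codePair (codeNat e.1) (codeNat e.2)) :=
    PT_codePair (PT_codeNat PT.fst) (PT_codeNat PT.snd)
  exact PT_codePair (PT_codeList (PT_clusN PT.id) h1) (PT_codeList (PT_linkN PT.id) h2)

end Pool.Agent.MP_f692a6_lc
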