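import Pool.Agent.MP_f692a6_lc.Cert

/-!
# Substitution of certificates

If a coarse graph has a certificate and each of its vertices is replaced by a piece that has a
compatible local certificate, then the fine graph has a certificate.
-/

set_option autoImplicit false

namespace Pool.Agent.MP_f692a6_lc

/-- the order of the edges `z a` and `z b` at their common end `z` -/
def Cert.kappa {Z : Type} {AdjZ : Z → Z → Prop} (C : Cert AdjZ) (z a b : Z) : Bool :=
  C.L z b ^^ C.L a z ^^ C.L a b ^^ C.y z a b ^^ C.y z b a

theorem z2_iff_true {a : Bool} : a = true ↔ z2 a = 1 := by
  rw [z2_eq]; simp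

theorem z2_iff_false {a : Bool} : a = false ↔ z2 a = 0 := by
  rw [z2_eq]; simp

/-- The substitution. -/
def Cert.subst {V Z : Type} [DecidableEq Z] {Adj : V → V → Prop} {AdjZ : Z → Z → Prop}
    (C : Cert AdjZ) (π : V → Z) (hsymm : ∀ u v, Adj u v → Adj v u)
    (hπ : ∀ u v, Adj u v → π u ≠ π v → AdjZ (π u) (π v))
    (Λ : V → V → Bool) (yl η : V → V → V → Bool)
    (hΛ : ∀ u v, π u = π v → u ≠ v → (Λ u v ^^ Λ v u) = true)
    (hyl : ∀ u v w, π u = π v → yl u v w = yl v u w)
    (h1 : ∀ u v w x, Adj u v → Adj w x → π u = π v → π u = π w → π u = π x →
      u ≠ w → u ≠ x → v ≠ w → v ≠ x →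
      (Λ u w ^^ Λ u x ^^ Λ v w ^^ Λ v x ^^ yl u v w ^^ yl u v x ^^ yl w x u ^^ yl w x v) = false)
    (h2 : ∀ u v w x, Adj u v → Adj w x → π u ≠ π v → π u = π w → π u = π x →
      u ≠ w → u ≠ x →
      (Λ u w ^^ Λ u x ^^ η u v w ^^ η u v x ^^ yl w x u) = false)
    (h3 : ∀ u v w x, Adj u v → Adj w x → π u = π w → π u ≠ π v → π u ≠ π x → π v ≠ π x →
      u ≠ w → (Λ u w ^^ η u v w ^^ η w x u) = C.kappa (π u) (π v) (π x))
    (h4 : ∀ u v w x, Adj u v → Adj w x → π u = π w → π v = π x → π u ≠ π v →
      u ≠ w → v ≠ x →
      (Λ u w ^^ η u v w ^^ η w x u ^^ Λ v x ^^ η v u x ^^ η x w v) = true) :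
    Cert Adj where
  L u v := if π u = π v then Λ u v else C.L (π u) (π v)
  y u v w := if π u = π v then (if π w = π u then yl u v w else false) else
    if π w = π u then η u v w else if π w = π v then η v u w else C.y (π u) (π v) (π w)
  anti u v h := by
    by_cases hp : π u = π v
    · rw [if_pos hp, if_pos hp.symm]
      exact hΛ u v hp h
    · rw [if_neg hp, if_neg (Ne.symm hp)]
      exact C.anti _ _ hp
  symm u v w := by
    by_cases hp : π u = π v
    · rw [if_pos hp, if_pos hp.symm, hyl u v w hp, hp]
    · rw [if_neg hp, if_neg (Ne.symm hp), C.symm (π u) (π v) (π w)]
      by_cases h1 : π w = π u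
      · rw [if_pos h1, if_neg (by rw [h1]; exact hp), if_pos h1]
      · rw [if_neg h1, if_neg h1]
  eq u v w x huv hwx h5 h6 h7 h8 := by
    by_cases hab : π u = π v
    · by_cases hcd : π w = π x
      · by_cases hac : π u = π w
        · have := h1 u v w x huv hwx hab hac (hac.trans hcd) h5 h6 h7 h8
          simpa only [← hab, ← hcd, ← hac, if_true] using this
        · have hca : π w ≠ π u := Ne.symm hac
          simp only [← hab, ← hcd, hac, hca, if_true, if_false, z2_iff_false, z2_xor, z2_false]
          grind
      · have hdc := Ne.symm hcd
        by_cases hac : π u = π w
        · have := h2 w x u v hwx huv hcd hac.symm (hac.symm.trans hab) h5.symm h7.symm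
          have e1 := hΛ u w hac h5
          have e2 := hΛ v w (hab.symm.trans hac) h7
          simp only [← hab, hac, hcd, hdc, if_true, if_false, z2_iff_false, z2_iff_true, z2_xor,
            z2_false] at this e1 e2 ⊢
          grind
        · by_cases had : π u = π x
          · have := h2 x w u v (hsymm _ _ hwx) huv hdc had.symm (had.symm.trans hab) h6.symm h8.symm
            have e1 := hΛ u x had h6
            have e2 := hΛ v x (hab.symm.trans had) h8
            simp only [← hab, had, hcd, hdc, if_true, if_false, z2_iff_false, z2_iff_true,
              z2_xor, z2_false] at this e1 e2 ⊢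
            grind
          · have hca : π w ≠ π u := Ne.symm hac
            have hda : π x ≠ π u := Ne.symm had
            simp only [← hab, hac, had, hca, hda, hcd, if_true, if_false, z2_iff_false, z2_xor,
              z2_false]
            grind
    · have hba := Ne.symm hab
      by_cases hcd : π w = π x
      · by_cases hca : π w = π u
        · have := h2 u v w x huv hwx hab hca.symm (hca.symm.trans hcd) h5 h6
          simp only [← hcd, hca, hab, hba, if_true, if_false, z2_iff_false, z2_xor,
            z2_false] at this ⊢
          grind
        · by_cases hcb : π w = π v
          · have := h2 v u w x (hsymm _ _ huv) hwx hba hcb.symm (hcb.symm.trans hcd) h7 h8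
            simp only [← hcd, hcb, hab, hba, if_true, if_false, z2_iff_false, z2_xor,
              z2_false] at this ⊢
            grind
          · have hac := Ne.symm hca
            have hbc := Ne.symm hcb
            simp only [← hcd, hca, hcb, hac, hbc, hab, if_true, if_false, z2_iff_false, z2_xor,
              z2_false]
            grind
      · have hdc := Ne.symm hcd
        by_cases hac : π u = π w
        · by_cases hbd : π v = π x
          · have := h4 u v w x huv hwx hac hbd hab h5 h8
            have e := C.anti _ _ hab
            simp only [hac, hbd] at hab hba this e
            simp only [hac, hbd, hab, hba, if_true, if_false, z2_iff_false, z2_iff_true, z2_xor,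
              z2_false] at this e ⊢
            grind
          · have := h3 u v w x huv hwx hac hab (by rw [hac]; exact hcd) hbd h5
            have hdb := Ne.symm hbd
            unfold Cert.kappa at this
            simp only [hac] at hab hba this
            rw [z2_eq] at this
            simp only [hac, hbd, hdb, hab, hba, hcd, hdc, if_true, if_false, z2_iff_false, z2_xor,
              z2_false] at this ⊢
            grind
        · have hca := Ne.symm hac
          by_cases had : π u = π x
          · by_cases hbc : π v = π w
            · have := h4 u v x w huv (hsymm _ _ hwx) had hbc hab h6 h7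
              have e := C.anti _ _ hab
              simp only [had, hbc] at hab hba this e
              simp only [had, hbc, hab, hba, if_true, if_false, z2_iff_false, z2_iff_true,
                z2_xor, z2_false] at this e ⊢
              grind
            · have := h3 u v x w huv (hsymm _ _ hwx) had hab (by rw [had]; exact hdc) hbc h6
              have hcb := Ne.symm hbc
              unfold Cert.kappa at this
              simp only [had] at hab hba this
              have e := C.symm (π x) (π w)
              rw [z2_eq] at this
              simp only [had, hbc, hcb, hab, hba, hcd, hdc, if_true, if_false, z2_iff_false,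
                z2_xor, z2_false, e] at this ⊢
              grind
          · have hda := Ne.symm had
            by_cases hbc : π v = π w
            · have := h3 v u w x (hsymm _ _ huv) hwx hbc hba (by rw [hbc]; exact hcd) had h7
              unfold Cert.kappa at this
              simp only [hbc] at hab hba this
              rw [z2_eq] at this
              have e := C.symm (π u) (π w)
              simp only [hbc, had, hda, hab, hba, hcd, hdc, if_true, if_false, z2_iff_false,
                z2_xor, z2_false, e] at this ⊢
              grind
            · have hcb := Ne.symm hbc
              by_cases hbd : π v = π x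
              · have := h3 v u x w (hsymm _ _ huv) (hsymm _ _ hwx) hbd hba
                  (by rw [hbd]; exact hdc) hac h8
                unfold Cert.kappa at this
                simp only [hbd] at hab hba hbc hcb this
                rw [z2_eq] at this
                have e := C.symm (π u) (π x)
                have e' := C.symm (π w) (π x)
                simp only [hbd, hac, hca, hab, hba, hbc, hcb, hcd, hdc, if_true, if_false,
                  z2_iff_false, z2_xor, z2_false, e, e'] at this ⊢
                grind
              · have hdb := Ne.symm hbd
                have := C.eq (π u) (π v) (π w) (π x) (hπ _ _ huv hab) (hπ _ _ hwx hcd) hac had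
                  hbc hbd
                simpa only [hab, hcd, hac, had, hbc, hbd, hca, hda, hcb, hdb, if_false] using this

end Pool.Agent.MP_f692a6_lc
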