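import Pool.Agent.MP_f692a6_lc.Defs

/-!
# Clusters with at most three vertices: paths and trees
-/

set_option autoImplicit false

namespace Pool.Agent.MP_f692a6_lc

theorem infix_pair {u v : ℕ} : ∀ {l : List ℕ}, ([u, v] <:+: l) ↔ ∃ i, l[i]? = some u ∧
    l[i + 1]? = some v := by
  intro l
  constructor
  · rintro ⟨s, t, rfl⟩
    refine ⟨s.length, ?_, ?_⟩
    · simp
    · rw [List.append_assoc, List.getElem?_append_right (by omega)]
      simp
  · rintro ⟨i, h1, h2⟩
    obtain ⟨hi, h1⟩ := List.getElem?_eq_some_iff.1 h1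
    obtain ⟨hi', h2⟩ := List.getElem?_eq_some_iff.1 h2
    refine ⟨l.take i, l.drop (i + 2), ?_⟩
    have e : l.drop i = u :: v :: l.drop (i + 2) := by
      rw [List.drop_eq_getElem_cons hi, List.drop_eq_getElem_cons hi', h1, h2]
    have := List.take_append_drop i l
    rw [e] at this
    simpa using this

theorem cons1 {a u v : ℕ} : CGraph.Consecutive [a] u v ↔ False := by
  unfold CGraph.Consecutive
  simp only [infix_pair]
  constructor
  · rintro (⟨i, h1, h2⟩ | ⟨i, h1, h2⟩)
    · simp at h2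
    · simp at h2
  · exact False.elim

theorem cons2 {a b u v : ℕ} : CGraph.Consecutive [a, b] u v ↔
    (u = a ∧ v = b) ∨ (u = b ∧ v = a) := by
  unfold CGraph.Consecutive
  simp only [infix_pair]
  constructor
  · rintro (⟨i, h1, h2⟩ | ⟨i, h1, h2⟩)
    · rcases i with _ | i
      · simp at h1 h2
        exact Or.inl ⟨h1.symm, h2.symm⟩
      · simp at h2
    · rcases i with _ | i
      · simp at h1 h2
        exact Or.inr ⟨h2.symm, h1.symm⟩
      · simp at h2
  · rintro (⟨rfl, rfl⟩ | ⟨rfl, rfl⟩)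
    · exact Or.inl ⟨0, by simp, by simp⟩
    · exact Or.inr ⟨0, by simp, by simp⟩

theorem cons3 {a b c u v : ℕ} : CGraph.Consecutive [a, b, c] u v ↔
    (u = a ∧ v = b) ∨ (u = b ∧ v = a) ∨ (u = b ∧ v = c) ∨ (u = c ∧ v = b) := by
  unfold CGraph.Consecutive
  simp only [infix_pair]
  constructor
  · rintro (⟨i, h1, h2⟩ | ⟨i, h1, h2⟩)
    · rcases i with _ | _ | i
      · simp at h1 h2
        exact Or.inl ⟨h1.symm, h2.symm⟩
      · simp at h1 h2
        exact Or.inr (Or.inr (Or.inl ⟨h1.symm, h2.symm⟩))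
      · simp at h2
    · rcases i with _ | _ | i
      · simp at h1 h2
        exact Or.inr (Or.inl ⟨h2.symm, h1.symm⟩)
      · simp at h1 h2
        exact Or.inr (Or.inr (Or.inr ⟨h2.symm, h1.symm⟩))
      · simp at h2
  · rintro (⟨rfl, rfl⟩ | ⟨rfl, rfl⟩ | ⟨rfl, rfl⟩ | ⟨rfl, rfl⟩)
    · exact Or.inl ⟨0, by simp, by simp⟩
    · exact Or.inr ⟨0, by simp, by simp⟩
    · exact Or.inl ⟨1, by simp, by simp⟩
    · exact Or.inr ⟨1, by simp, by simp⟩

theorem eq_of_isolated {V : Type} {H : SimpleGraph V} {u x : V} (h : ∀ w, ¬ H.Adj u w)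
    (hr : H.Reachable u x) : u = x := by
  obtain ⟨p⟩ := hr
  cases p with
  | nil => rfl
  | cons h' _ => exact absurd h' (h _)

theorem acyclic_of_star {V : Type} {H : SimpleGraph V} (b : V)
    (h : ∀ u v, H.Adj u v → u = b ∨ v = b) : H.IsAcyclic := by
  rw [SimpleGraph.isAcyclic_iff_forall_adj_isBridge]
  have key : ∀ u, H.Adj u b → ¬ (H.deleteEdges {s(u, b)}).Reachable u b := by
    intro u hub hr
    refine hub.ne (eq_of_isolated ?_ hr)
    intro w hw
    rw [SimpleGraph.deleteEdges_adj] at hw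
    rcases h _ _ hw.1 with h1 | h1
    · exact hub.ne h1
    · apply hw.2
      rw [h1]
      rfl
  intro v w hvw
  rw [SimpleGraph.isBridge_iff]
  rcases h _ _ hvw with rfl | rfl
  · intro hr
    apply key w hvw.symm
    rw [Sym2.eq_swap]
    exact hr.symm
  · exact key v hvw

theorem preconn_of_star {V : Type} {H : SimpleGraph V} (b : V) (h : ∀ u, u = b ∨ H.Adj u b) :
    H.Preconnected := by
  have key : ∀ u, H.Reachable u b := by
    intro u
    rcases h u with rfl | h
    · exact SimpleGraph.Reachable.refl _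
    · exact h.reachable
  exact fun u v => (key u).trans (key v).symm

/-- a path through the cluster -/
def PathF (P : SimpleGraph ℕ) (S : List ℕ) : Prop :=
  ∃ l : List ℕ, l.Perm S ∧ ∀ u ∈ S, ∀ v ∈ S, (P.Adj u v ↔ CGraph.Consecutive l u v)

/-- a tree on the cluster -/
def TreeF (P : SimpleGraph ℕ) (S : List ℕ) : Prop :=
  (P.induce {v | v ∈ S}).Preconnected ∧ (P.induce {v | v ∈ S}).IsAcyclic

theorem treeF_of_star {P : SimpleGraph ℕ} {S : List ℕ} (b : ℕ) (hb : b ∈ S)
    (h1 : ∀ u ∈ S, u = b ∨ P.Adj u b) (h2 : ∀ u ∈ S, ∀ v ∈ S, P.Adj u v → u = b ∨ v = b) :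
    TreeF P S := by
  constructor
  · refine preconn_of_star ⟨b, hb⟩ ?_
    rintro ⟨u, hu⟩
    rcases h1 u hu with h | h
    · exact Or.inl (Subtype.ext h)
    · exact Or.inr h
  · refine acyclic_of_star ⟨b, hb⟩ ?_
    rintro ⟨u, hu⟩ ⟨v, hv⟩ h
    rcases h2 u hu v hv h with h | h
    · exact Or.inl (Subtype.ext h)
    · exact Or.inr (Subtype.ext h)

theorem treeF_of_pathF {P : SimpleGraph ℕ} {S : List ℕ} (hS : S.length ≤ 3) (h : PathF P S) :
    TreeF P S := by
  obtain ⟨l, hl, hadj⟩ := h
  have hlen := hl.length_eq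
  have hmem : ∀ x, x ∈ l ↔ x ∈ S := fun x => hl.mem_iff
  match l, hlen, hmem, hadj with
  | [], _, hmem, _ =>
    constructor
    · rintro ⟨u, hu⟩
      have := (hmem u).2 hu
      simp at this
    · rintro ⟨u, hu⟩
      have := (hmem u).2 hu
      simp at this
  | [b], _, hmem, hadj =>
    refine treeF_of_star b ((hmem b).1 (by simp)) ?_ ?_
    · intro u hu
      have := (hmem u).2 hu
      rw [List.mem_singleton] at this
      exact Or.inl this
    · intro u hu v hv h
      have := (hmem u).2 hu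
      rw [List.mem_singleton] at this
      exact Or.inl this
  | [a, b], _, hmem, hadj =>
    have hb : b ∈ S := (hmem b).1 (by simp)
    refine treeF_of_star b hb ?_ ?_
    · intro u hu
      have := (hmem u).2 hu
      simp only [List.mem_cons, List.not_mem_nil, or_false] at this
      rcases this with rfl | rfl
      · right
        rw [hadj _ hu _ hb, cons2]
        exact Or.inl ⟨rfl, rfl⟩
      · exact Or.inl rfl
    · intro u hu v hv h
      rw [hadj _ hu _ hv, cons2] at h
      tauto
  | [a, b, c], _, hmem, hadj =>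
    have hb : b ∈ S := (hmem b).1 (by simp)
    refine treeF_of_star b hb ?_ ?_
    · intro u hu
      have := (hmem u).2 hu
      simp only [List.mem_cons, List.not_mem_nil, or_false] at this
      rcases this with rfl | rfl | rfl
      · right
        rw [hadj _ hu _ hb, cons3]
        exact Or.inl ⟨rfl, rfl⟩
      · exact Or.inl rfl
      · right
        rw [hadj _ hu _ hb, cons3]
        exact Or.inr (Or.inr (Or.inr ⟨rfl, rfl⟩))
    · intro u hu v hv h
      rw [hadj _ hu _ hv, cons3] at h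
      tauto
  | _ :: _ :: _ :: _ :: _, hlen, _, _ =>
    simp only [List.length_cons] at hlen
    omega

theorem not_triangle {P : SimpleGraph ℕ} {S : List ℕ} {a b c : ℕ} (ha : a ∈ S) (hb : b ∈ S)
    (hc : c ∈ S) (h : TreeF P S) : ¬ (P.Adj a b ∧ P.Adj b c ∧ P.Adj c a) := by
  rintro ⟨h1, h2, h3⟩
  let H := P.induce {v | v ∈ S}
  have k1 : H.Adj ⟨a, ha⟩ ⟨b, hb⟩ := h1
  have k2 : H.Adj ⟨b, hb⟩ ⟨c, hc⟩ := h2
  have k3 : H.Adj ⟨c, hc⟩ ⟨a, ha⟩ := h3
  have hb' := (SimpleGraph.isAcyclic_iff_forall_adj_isBridge.1 h.2) k1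
  rw [SimpleGraph.isBridge_iff] at hb'
  apply hb'
  have n1 : a ≠ b := h1.ne
  have n2 : b ≠ c := h2.ne
  have n3 : c ≠ a := h3.ne
  have m1 : (H.deleteEdges {s((⟨a, ha⟩ : {v | v ∈ S}), ⟨b, hb⟩)}).Adj ⟨a, ha⟩ ⟨c, hc⟩ := by
    rw [SimpleGraph.deleteEdges_adj]
    refine ⟨k3.symm, ?_⟩
    simp only [Set.mem_singleton_iff, Sym2.eq_iff, Subtype.mk.injEq, true_and]
    rintro (h | h)
    · exact n2 h.symm
    · exact n1 h.1
  have m2 : (H.deleteEdges {s((⟨a, ha⟩ : {v | v ∈ S}), ⟨b, hb⟩)}).Adj ⟨c, hc⟩ ⟨b, hb⟩ := by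
    rw [SimpleGraph.deleteEdges_adj]
    refine ⟨k2.symm, ?_⟩
    simp only [Set.mem_singleton_iff, Sym2.eq_iff, Subtype.mk.injEq]
    rintro (h | h)
    · exact n3 h.1
    · exact n2 h.1.symm
  exact m1.reachable.trans m2.reachable

theorem has_neighbor {P : SimpleGraph ℕ} {S : List ℕ} {a b : ℕ} (ha : a ∈ S) (hb : b ∈ S)
    (hab : a ≠ b) (h : TreeF P S) : ∃ w ∈ S, P.Adj a w := by
  by_contra hno
  push Not at hno
  have hr := h.1 ⟨a, ha⟩ ⟨b, hb⟩
  have := eq_of_isolated (u := (⟨a, ha⟩ : {v | v ∈ S})) (fun w hw => hno w.1 w.2 hw) hr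
  exact hab (congrArg Subtype.val this)

theorem pathF_of_treeF {P : SimpleGraph ℕ} {S : List ℕ} (hS : S.length ≤ 3) (hn : S.Nodup)
    (h : TreeF P S) : PathF P S := by
  match S, hS, hn, h with
  | [], _, _, _ => exact ⟨[], List.Perm.refl _, by simp⟩
  | [a], _, _, _ =>
    refine ⟨[a], List.Perm.refl _, ?_⟩
    intro u hu v hv
    rw [List.mem_singleton] at hu hv
    subst hu hv
    rw [cons1]
    exact ⟨fun h => h.ne rfl, False.elim⟩
  | [a, b], _, hn, h =>
    have hab : a ≠ b := by simpa using hn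
    have hadj : P.Adj a b := by
      obtain ⟨w, hw, haw⟩ := has_neighbor (a := a) (b := b) (by simp) (by simp) hab h
      simp only [List.mem_cons, List.not_mem_nil, or_false] at hw
      rcases hw with rfl | rfl
      · exact absurd rfl haw.ne
      · exact haw
    refine ⟨[a, b], List.Perm.refl _, ?_⟩
    intro u hu v hv
    simp only [List.mem_cons, List.not_mem_nil, or_false] at hu hv
    rw [cons2]
    have h1 := hadj.symm
    have hba := hab.symm
    rcases hu with rfl | rfl <;> rcases hv with rfl | rfl <;> simp_all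
  | [a, b, c], _, hn, h =>
    have hn' : a ≠ b ∧ a ≠ c ∧ b ≠ c := by
      simp only [List.nodup_cons, List.mem_cons, List.not_mem_nil, or_false, not_or] at hn
      tauto
    obtain ⟨n1, n2, n3⟩ := hn'
    have t := not_triangle (a := a) (b := b) (c := c) (by simp) (by simp) (by simp) h
    have da : P.Adj a b ∨ P.Adj a c := by
      obtain ⟨w, hw, haw⟩ := has_neighbor (a := a) (b := b) (by simp) (by simp) n1 h
      simp only [List.mem_cons, List.not_mem_nil, or_false] at hw
      rcases hw with rfl | rfl | rfl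
      · exact absurd rfl haw.ne
      · exact Or.inl haw
      · exact Or.inr haw
    have db : P.Adj a b ∨ P.Adj b c := by
      obtain ⟨w, hw, haw⟩ := has_neighbor (a := b) (b := a) (by simp) (by simp) n1.symm h
      simp only [List.mem_cons, List.not_mem_nil, or_false] at hw
      rcases hw with rfl | rfl | rfl
      · exact Or.inl haw.symm
      · exact absurd rfl haw.ne
      · exact Or.inr haw
    have dc : P.Adj a c ∨ P.Adj b c := by
      obtain ⟨w, hw, haw⟩ := has_neighbor (a := c) (b := a) (by simp) (by simp) n2.symm h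
      simp only [List.mem_cons, List.not_mem_nil, or_false] at hw
      rcases hw with rfl | rfl | rfl
      · exact Or.inl haw.symm
      · exact Or.inr haw.symm
      · exact absurd rfl haw.ne
    have key : ∀ x y z : ℕ, x ≠ y → x ≠ z → y ≠ z → P.Adj x y → P.Adj y z → ¬ P.Adj x z →
        ∀ u, (u = x ∨ u = y ∨ u = z) → ∀ v, (v = x ∨ v = y ∨ v = z) →
        (P.Adj u v ↔ CGraph.Consecutive [x, y, z] u v) := by
      intro x y z m1 m2 m3 hxy hyz hxz u hu v hv
      rw [cons3]
      have hxy' := hxy.symm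
      have hyz' := hyz.symm
      have hzx : ¬ P.Adj z x := fun h => hxz h.symm
      have m1' := m1.symm
      have m2' := m2.symm
      have m3' := m3.symm
      rcases hu with rfl | rfl | rfl <;> rcases hv with rfl | rfl | rfl <;> simp_all
    by_cases hab : P.Adj a b
    · by_cases hbc : P.Adj b c
      · have hac : ¬ P.Adj a c := fun h => t ⟨hab, hbc, h.symm⟩
        refine ⟨[a, b, c], List.Perm.refl _, ?_⟩
        intro u hu v hv
        simp only [List.mem_cons, List.not_mem_nil, or_false] at hu hv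
        exact key a b c n1 n2 n3 hab hbc hac u hu v hv
      · have hac : P.Adj a c := by tauto
        refine ⟨[b, a, c], List.Perm.swap _ _ _, ?_⟩
        intro u hu v hv
        simp only [List.mem_cons, List.not_mem_nil, or_false] at hu hv
        exact key b a c n1.symm n3 n2 hab.symm hac hbc u (by tauto) v (by tauto)
    · have hac : P.Adj a c := by tauto
      have hbc : P.Adj b c := by tauto
      refine ⟨[a, c, b], (List.Perm.swap _ _ _).cons a, ?_⟩
      intro u hu v hv
      simp only [List.mem_cons, List.not_mem_nil, or_false] at hu hv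
      exact key a c b n2 n1 n3.symm hac hbc.symm hab u (by tauto) v (by tauto)
  | _ :: _ :: _ :: _ :: _, hS, _, _ =>
    simp only [List.length_cons] at hS
    omega

/-- For clusters with at most three vertices the path form and the tree form agree. -/
theorem path_iff_tree (I : CGraph) (hI : I.Proper) (h3 : ∀ S ∈ I.clusters, S.length ≤ 3) :
    I.PathPlanar ↔ I.TreePlanar := by
  have hn : ∀ S ∈ I.clusters, S.Nodup := by
    intro S hS
    exact (List.nodup_flatten.1 hI.1).1 S hS
  constructor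
  · rintro ⟨P, h1, h2, h3', h4⟩
    exact ⟨P, h1, h2, fun S hS => treeF_of_pathF (h3 S hS) (h3' S hS), h4⟩
  · rintro ⟨P, h1, h2, h3', h4⟩
    exact ⟨P, h1, h2, fun S hS => pathF_of_treeF (h3 S hS) (hn S hS) (h3' S hS), h4⟩

end Pool.Agent.MP_f692a6_lc
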